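import Pool.Agent.W_8c5d11_h65.Leaf

/-!
MP_8c5d11_gt: splitting of certificates.
-/

set_option autoImplicit false

open Set
open scoped Real

namespace Pool.Agent.W_8c5d11_h65

open Pool.Agent.W_8c5d11_v22

/-- The difference of the two sides at a big split. -/
noncomputable def Kf (s y W : ℝ) : ℝ :=
  Real.cos ((y + s) / 2) / Real.cos (π / 6 + (y - s) / 2) - Real.sin s + Real.sin y -
    y * Real.cos y - (π / 3 - s) * Real.cos s + W * (Real.cos y - Real.cos s)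

/-- The elementary inequalities which are needed for the splits. -/
structure Ineqs : Prop where
  Kl : ∀ s y W : ℝ, 0 ≤ y → y ≤ s → s ≤ π / 6 → 0 ≤ W → 0 ≤ Kf s y W
  Kr : ∀ s y W : ℝ, 0 ≤ s → s ≤ y → y ≤ π / 6 → W ≤ π / 6 - s + (π / 6 + Real.sqrt 3 - 1) →
    0 ≤ Kf s y W
  I4 : ∀ s c : ℝ, 0 ≤ s → s ≤ π / 6 → 1 ≤ c →
    0 ≤ 1 + π / 6 - s + c - Real.sin s - (π / 3 - s + c) * Real.cos s
  I5a : ∀ s e c : ℝ, 0 ≤ s → s ≤ e → e ≤ π / 6 → 1 ≤ c →
    0 ≤ Real.sin e - Real.sin s - (1 - Real.cos e) * (π / 6) +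
      (π / 2 - e - s + c) * (1 - Real.cos s)
  I5b : ∀ s e c : ℝ, 0 ≤ s → s ≤ e → e ≤ π / 6 → 1 ≤ c →
    0 ≤ 2 * Real.sin e - e - Real.sin s + (π / 2 - e - s + c) * (1 - Real.cos s)
  I8 : ∀ b v s : ℝ, 0 < b → b ≤ π / 6 → 0 ≤ v → v ≤ b → 0 ≤ s → s ≤ π / 6 →
    (1 - Real.cos v) / Real.sin b ≤ v * Real.cos s
  I9 : ∀ s y k : ℝ, 0 ≤ s → s ≤ π / 6 → 0 ≤ y → y ≤ π / 6 → 0 ≤ k → k ≤ π / 6 - s →
    Real.cos ((y + s) / 2) / Real.cos (π / 6 + (y - s) / 2) - (π / 6 - s) * Real.cos s ≤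
      Real.cos ((π / 6 + y - k) / 2) / Real.cos ((π / 6 + y + k) / 2) - k * Real.cos s

/-! ### identities between vectors -/

theorem chord {α β κ θ : ℝ} (hκ : κ = 2 * Real.sin ((β - α) / 2)) (hθ : θ = (α + β) / 2 - π / 2) :
    pt κ θ + pt 1 β = pt 1 α := by
  have e1 := Real.cos_sub_cos β α
  have e2 := Real.sin_sub_sin β α
  have e3 : Real.cos θ = Real.sin ((β + α) / 2) := by
    rw [hθ, Real.cos_sub_pi_div_two, add_comm α β]
  have e4 : Real.sin θ = -Real.cos ((β + α) / 2) := by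
    rw [hθ, Real.sin_sub_pi_div_two, add_comm α β]
  apply Complex.ext
  · rw [Complex.add_re, pt_re, pt_re, pt_re, hκ, e3]; linarith
  · rw [Complex.add_im, pt_im, pt_im, pt_im, hκ, e4]; linarith

theorem chord' {α ξ κ θ : ℝ} (hκ : κ = 2 * Real.sin (ξ / 2)) (hθ : θ = α - ξ / 2 + π / 2) :
    pt 1 (α - ξ) + pt κ θ = pt 1 α := by
  have e1 := Real.cos_sub_cos α (α - ξ)
  have e2 := Real.sin_sub_sin α (α - ξ)
  have f1 : (α + (α - ξ)) / 2 = α - ξ / 2 := by ring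
  have f2 : (α - (α - ξ)) / 2 = ξ / 2 := by ring
  rw [f1, f2] at e1
  rw [f1, f2] at e2
  have e3 : Real.cos θ = -Real.sin (α - ξ / 2) := by rw [hθ, Real.cos_add_pi_div_two]
  have e4 : Real.sin θ = Real.cos (α - ξ / 2) := by rw [hθ, Real.sin_add_pi_div_two]
  apply Complex.ext
  · rw [Complex.add_re, pt_re, pt_re, pt_re, hκ, e3]; linarith
  · rw [Complex.add_im, pt_im, pt_im, pt_im, hκ, e4]; linarith

theorem third (θ : ℝ) : pt 1 (θ - π / 3) + pt 1 (θ + π / 3) = pt 1 θ := by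
  apply Complex.ext
  · rw [Complex.add_re, pt_re, pt_re, pt_re, Real.cos_sub, Real.cos_add, Real.cos_pi_div_three]
    ring
  · rw [Complex.add_im, pt_im, pt_im, pt_im, Real.sin_sub, Real.sin_add, Real.cos_pi_div_three]
    ring

/-- value of two terminals for a chord -/
theorem chord_value {s σ : ℝ} (hs : Real.cos (s / 2) ≠ 0) :
    2 * Real.sin ((s + σ) / 2) * (Real.cos (((s - σ) / 2 - (s + σ) / 2) / 2) /
      Real.cos (((s - σ) / 2 + (s + σ) / 2) / 2)) =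
      Real.sin σ + Real.tan (s / 2) * (1 + Real.cos σ) := by
  have f1 : ((s - σ) / 2 - (s + σ) / 2) / 2 = -(σ / 2) := by ring
  have f2 : ((s - σ) / 2 + (s + σ) / 2) / 2 = s / 2 := by ring
  rw [f1, f2, Real.cos_neg, Real.tan_eq_sin_div_cos]
  have e1 : 2 * Real.sin ((s + σ) / 2) * Real.cos (σ / 2) =
      Real.sin (s / 2 + σ) + Real.sin (s / 2) := by
    have a := Real.sin_add ((s + σ) / 2) (σ / 2)
    have b := Real.sin_sub ((s + σ) / 2) (σ / 2)
    have c : (s + σ) / 2 + σ / 2 = s / 2 + σ := by ring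
    have d : (s + σ) / 2 - σ / 2 = s / 2 := by ring
    rw [c] at a; rw [d] at b
    linarith
  have e2 : 2 * Real.sin ((s + σ) / 2) * (Real.cos (σ / 2) / Real.cos (s / 2)) =
      (2 * Real.sin ((s + σ) / 2) * Real.cos (σ / 2)) / Real.cos (s / 2) := by ring
  rw [e2, e1, Real.sin_add]
  field_simp
  ring

theorem half_le_tan {x : ℝ} (h0 : 0 ≤ x) (h1 : x ≤ π / 3) : x / 2 ≤ Real.tan (x / 2) :=
  Real.le_tan (by linarith) (by linarith [Real.pi_pos])

theorem two_sin_le_one {x : ℝ} (h1 : x ≤ π / 6) (h0 : 0 ≤ x) : 2 * Real.sin x ≤ 1 := by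
  have : Real.sin x ≤ 1 / 2 := by
    rw [← Real.sin_pi_div_six]
    exact Real.sin_le_sin_of_le_of_le_pi_div_two (by linarith [Real.pi_pos])
      (by linarith [Real.pi_pos]) h1
  linarith

theorem sin_nonneg' {x : ℝ} (h0 : 0 ≤ x) (h1 : x ≤ π / 6) : 0 ≤ Real.sin x :=
  Real.sin_nonneg_of_nonneg_of_le_pi h0 (by linarith [Real.pi_pos])

/-- The conclusion of a split. -/
def Spl (b x c y : ℝ) (w : ℂ) (v : ℝ) : Prop :=
  ∃ (w' : ℂ) (v' : ℝ) (w'' : ℂ) (v'' : ℝ), C b x c w' v' ∧ C b c y w'' v'' ∧ w' + w'' = w ∧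
    v ≤ v' + v''

theorem split_T {b x c y v : ℝ} {w : ℂ} (h : CT b x y w v) : Spl b x c y w v := by
  obtain ⟨s₁, s₂, w₁, w₂, h1, h2, h3, h4, h5, h6, h7, h8⟩ := h
  rcases le_total s₂ c with hc | hc
  · exact ⟨w, v, 0, 0, Or.inr (Or.inl ⟨s₁, s₂, w₁, w₂, h1, h2, hc, h4, h5, h6, h7, h8⟩),
      C.zero _ _ _, add_zero _, (add_zero v).ge⟩
  rcases le_total c s₁ with hc' | hc'
  · exact ⟨0, 0, w, v, C.zero _ _ _,
      Or.inr (Or.inl ⟨s₁, s₂, w₁, w₂, hc', h2, h3, h4, h5, h6, h7, h8⟩), zero_add _,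
      (zero_add v).ge⟩
  exact ⟨w₁, _, w₂, _, C.one h1 hc' h4, C.one hc h3 h5, h7.symm, h8⟩

variable {b m σ s : ℝ}

theorem R2 (hb0 : 0 < b) (hb1 : b ≤ π / 6) (hσ0 : 0 ≤ σ) (hσ : σ ≤ π / 6)
    (hm' : m ≤ π - 2 * σ) (hz : σ < m - π / 2 + b) (hs0 : 0 < s) (hs : s ≤ σ) :
    Spl b 0 s m (pt 1 (π / 2 - σ)) (vF b m σ) := by
  have hpi := Real.pi_pos
  refine ⟨pt (2 * Real.sin σ) 0, 2 * Real.sin σ, pt 1 (0 + π / 2 + σ), vF b (m - σ) 0,
    C.soft le_rfl hs0.le (by linarith [sin_nonneg' hσ0 hσ]) (two_sin_le_one hσ hσ0), ?_, ?_, ?_⟩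
  · have := C.main (b := b) (x := s) (y := m) (g := σ) (d := m) (σ := 0) hs le_rfl le_rfl
      (by linarith) (by linarith) (by linarith)
    convert this using 2
    ring
  · rw [split_chord, zero_add]
  · have h := I7' hσ0 hσ hz.le (t_lower hb0 hb1)
    rw [vF_eq, vF_eq, Real.sin_zero, Real.cos_zero]
    linarith

theorem R3 (hb0 : 0 < b) (hb1 : b ≤ π / 6) (hσ0 : 0 ≤ σ) (hσ : σ ≤ π / 6)
    (hm' : m ≤ π - 2 * σ) (hs : σ < s) (hsz : s ≤ m - π / 2 + b) (hs3 : s ≤ π / 3 - σ) :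
    Spl b 0 s m (pt 1 (π / 2 - σ)) (vF b m σ) := by
  have hpi := Real.pi_pos
  have hcs : Real.cos (s / 2) ≠ 0 :=
    (Real.cos_pos_of_mem_Ioo ⟨by linarith, by linarith⟩).ne'
  have hq := sin_nonneg' (x := (s + σ) / 2) (by linarith) (by linarith)
  have hq1 := two_sin_le_one (x := (s + σ) / 2) (by linarith) (by linarith)
  refine ⟨pt (2 * Real.sin ((s + σ) / 2)) ((s - σ) / 2), _, pt 1 (s + π / 2), vF b (m - s) 0,
    C.two (s₁ := 0) (s₂ := s) (p := (s - σ) / 2) (q := (s + σ) / 2) le_rfl le_rfl (by ring)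
      (by ring) (by linarith) (by linarith) (by linarith) (by linarith) (by linarith)
      (by linarith) (by linarith) hq1, ?_, ?_, ?_⟩
  · have := C.main (b := b) (x := s) (y := m) (g := s) (d := m) (σ := 0) le_rfl le_rfl le_rfl
      (by linarith) (by linarith) (by linarith)
    convert this using 2
    ring
  · exact chord (by congr 2; ring) (by ring)
  · rw [chord_value hcs, vF_eq, vF_eq, Real.sin_zero, Real.cos_zero]
    have h1 := half_le_tan (x := s) (by linarith) (by linarith)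
    have h2 := Real.cos_le_one σ
    have h3 := cos_pos_small (x := σ) (by linarith) hσ
    have h4 := t_lower hb0 hb1
    nlinarith [mul_nonneg (sub_nonneg.2 h2) (by linarith : (0 : ℝ) ≤ m - π / 2 + b +
      (1 - Real.tan (b / 2)) - s / 2), mul_nonneg (sub_nonneg.2 h1) (by linarith :
      (0 : ℝ) ≤ 1 + Real.cos σ)]

theorem R4 (hb0 : 0 < b) (hb1 : b ≤ π / 6) (hσ0 : 0 ≤ σ) (hσ : σ ≤ π / 6)
    (hz : σ < m - π / 2 + b) (hx : m - π / 2 + b + σ ≤ π / 3)
    (hs : m - π / 2 + b < s) (hsm : s < m) :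
    Spl b 0 s m (pt 1 (π / 2 - σ)) (vF b m σ) := by
  have hpi := Real.pi_pos
  set z := m - π / 2 + b with hzd
  have hcs : Real.cos (z / 2) ≠ 0 :=
    (Real.cos_pos_of_mem_Ioo ⟨by linarith, by linarith⟩).ne'
  have hq := sin_nonneg' (x := (z + σ) / 2) (by linarith) (by linarith)
  have hq1 := two_sin_le_one (x := (z + σ) / 2) (by linarith) (by linarith)
  refine ⟨pt (2 * Real.sin ((z + σ) / 2)) ((z - σ) / 2), _, pt 1 (m + b), _,
    C.two (s₁ := 0) (s₂ := z) (p := (z - σ) / 2) (q := (z + σ) / 2) le_rfl hs.le (by ring)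
      (by ring) (by linarith) (by linarith) (by linarith) (by linarith) (by linarith)
      (by linarith) (by linarith) hq1, C.hard hb0 hb1 hsm.le le_rfl zero_le_one le_rfl, ?_, ?_⟩
  · exact chord (by congr 2; rw [hzd]; ring) (by rw [hzd]; ring)
  · rw [chord_value hcs, vF_eq, ← hzd]
    have h1 := half_le_tan (x := z) (by linarith) (by linarith)
    have h2 := Real.cos_le_one σ
    have h3 := cos_pos_small (x := σ) (by linarith) hσ
    have h4 := t_lower hb0 hb1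
    nlinarith [mul_nonneg (sub_nonneg.2 h2) (by linarith : (0 : ℝ) ≤ z / 2 +
      (1 - Real.tan (b / 2))), mul_nonneg (sub_nonneg.2 h1) (by linarith :
      (0 : ℝ) ≤ 1 + Real.cos σ)]

theorem big_sum (σ : ℝ) : pt 1 (π / 6 - σ) + pt 1 (5 * π / 6 - σ) = pt 1 (π / 2 - σ) := by
  rw [← third (π / 2 - σ)]
  congr 2 <;> ring

theorem R5a (I : Ineqs) (hb0 : 0 < b) (hb1 : b ≤ π / 6) (hσ0 : 0 ≤ σ) (hσ : σ ≤ π / 6)
    (hm' : m ≤ π - 2 * σ) (hx : π / 3 < m - π / 2 + b + σ) (hs : π / 3 - σ < s)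
    (hs2 : s ≤ π / 2 - σ) :
    Spl b 0 s m (pt 1 (π / 2 - σ)) (vF b m σ) := by
  have hpi := Real.pi_pos
  set τ := s - π / 3 + σ with hτ
  have hs' : s = π / 3 - σ + τ := by rw [hτ]; ring
  refine ⟨pt 1 (π / 6 - σ), _, pt 1 (5 * π / 6 - σ), vF b (m - s) τ,
    C.two (s₁ := 0) (s₂ := s) (p := π / 6 - σ) (q := π / 6 + τ) le_rfl le_rfl (by ring)
      (by linarith) (by linarith) (by linarith) (by linarith) (by linarith) (by linarith)
      (by linarith) zero_le_one le_rfl, ?_, big_sum σ, ?_⟩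
  · have := C.main (b := b) (x := s) (y := m) (g := s) (d := m) (σ := τ) le_rfl le_rfl
      (by linarith) (by linarith) (by linarith) (by linarith)
    convert this using 2
    rw [hτ]; ring
  · have hc := cb_gt_one hb0 hb1
    have hc' := cb_le hb0 hb1
    have ht := t_lower hb0 hb1
    have hK : 0 ≤ Kf σ τ (m + σ - 5 * π / 6 + cb b) := by
      rcases le_total τ σ with h | h
      · exact I.Kl σ τ _ (by linarith) h hσ (by unfold cb; linarith)
      · exact I.Kr σ τ _ hσ0 h (by linarith) (by linarith)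
    have f1 : (π / 6 - σ - (π / 6 + τ)) / 2 = -((τ + σ) / 2) := by ring
    have f2 : (π / 6 - σ + (π / 6 + τ)) / 2 = π / 6 + (τ - σ) / 2 := by ring
    rw [one_mul, f1, f2, Real.cos_neg]
    unfold Kf at hK
    unfold vF
    rw [hs'] 
    nlinarith [hK]

/-- lower bound for the right part, in the range of cases R5b and R5c, `k < 0` -/
theorem right_neg (I : Ineqs) (hb0 : 0 < b) (hb1 : b ≤ π / 6) (hσ0 : 0 ≤ σ) (hσ : σ ≤ π / 6)
    (hx : π / 3 < m - π / 2 + b + σ) (hk : m - 5 * π / 6 + σ < 0) (hsm : s < m) :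
    C b s m (pt 1 (5 * π / 6 - σ)) (1 + (m - 5 * π / 6 + σ) * Real.cos σ) := by
  have h1 := C.one (b := b) (x := s) (y := m) (s := m) (w := pt 1 (5 * π / 6 - σ)) hsm.le le_rfl
    (norm_pt_one _).le
  rw [hb_pt b m 1 _ zero_le_one, one_mul] at h1
  have h2 := I.I8 b (5 * π / 6 - σ - m) σ hb0 hb1 (by linarith) (by linarith) hσ0 hσ
  rcases h1 with ⟨h3, -⟩ | h3 | h3 | h3
  · exfalso
    have := norm_pt_one (5 * π / 6 - σ)
    rw [h3, norm_zero] at this
    exact zero_ne_one this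
  · obtain ⟨s₁, s₂, w₁, w₂, a1, a2, a3, a4, a5, a6, a7, a8⟩ := h3
    exact Or.inr (Or.inl ⟨s₁, s₂, w₁, w₂, a1, a2, a3, a4, a5, a6, a7, by linarith⟩)
  · obtain ⟨g, d, σ', a1, a2, a3, a4, a5, a6, a7, a8⟩ := h3
    exact Or.inr (Or.inr (Or.inl ⟨g, d, σ', a1, a2, a3, a4, a5, a6, a7, by linarith⟩))
  · obtain ⟨g, d, σ', a1, a2, a3, a4, a5, a6, a7, a8⟩ := h3
    exact Or.inr (Or.inr (Or.inr ⟨g, d, σ', a1, a2, a3, a4, a5, a6, a7, by linarith⟩))

theorem R5b (I : Ineqs) (hb0 : 0 < b) (hb1 : b ≤ π / 6) (hσ0 : 0 ≤ σ) (hσ : σ ≤ π / 6)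
    (hm' : m ≤ π - 2 * σ) (hx : π / 3 < m - π / 2 + b + σ) (hs : π / 2 - σ ≤ s)
    (hs2 : s ≤ 2 * π / 3 - σ) (hsm : s < m) :
    Spl b 0 s m (pt 1 (π / 2 - σ)) (vF b m σ) := by
  have hpi := Real.pi_pos
  set σ' := 2 * π / 3 - σ - s with hσ'
  have hs' : s = 2 * π / 3 - σ - σ' := by rw [hσ']; ring
  have hc := cb_gt_one hb0 hb1
  have hc' := cb_le hb0 hb1
  have hK : 0 ≤ Kf σ σ' (π / 6 - σ + cb b) := by
    rcases le_total σ' σ with h | h
    · exact I.Kl σ σ' _ (by linarith) h hσ (by linarith)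
    · exact I.Kr σ σ' _ hσ0 h (by linarith) (by linarith)
  have hL : C b 0 s (pt 1 (π / 6 - σ)) (vF b s σ') := by
    have := C.mirr (b := b) (x := 0) (y := s) (g := 0) (d := s) (σ := σ') le_rfl le_rfl
      (by linarith) (by linarith) (by linarith) (by linarith)
    rw [sub_zero] at this
    convert this using 2
    rw [hσ']; ring
  rcases le_or_gt 0 (m - 5 * π / 6 + σ) with hk | hk
  · set k := m - 5 * π / 6 + σ with hkd
    refine ⟨_, _, pt 1 (5 * π / 6 - σ), _, hL,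
      C.two (s₁ := s) (s₂ := m) (p := π / 6 + σ') (q := k) le_rfl le_rfl (by rw [hσ']; ring)
      (by rw [hσ', hkd]; ring) (by linarith) hk (by linarith) (by linarith) (by linarith)
      (by linarith) zero_le_one le_rfl, big_sum σ, ?_⟩
    have h9 := I.I9 σ σ' k hσ0 hσ (by linarith) (by linarith) hk (by linarith)
    rw [one_mul]
    unfold Kf at hK
    unfold vF
    have hmk : m = k + 5 * π / 6 - σ := by rw [hkd]; ring
    rw [hmk, hs']
    nlinarith [hK, h9]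
  · have h9 := I.I9 σ σ' 0 hσ0 hσ (by linarith) (by linarith) le_rfl (by linarith)
    have hone : Real.cos ((π / 6 + σ' - 0) / 2) / Real.cos ((π / 6 + σ' + 0) / 2) = 1 := by
      rw [sub_zero, add_zero]
      exact div_self (Real.cos_pos_of_mem_Ioo ⟨by linarith, by linarith⟩).ne'
    rw [hone] at h9
    refine ⟨_, _, _, _, hL, right_neg I hb0 hb1 hσ0 hσ hx hk hsm, big_sum σ, ?_⟩
    unfold Kf at hK
    unfold vF
    rw [hs']
    nlinarith [hK, h9]

theorem R5c (I : Ineqs) (hb0 : 0 < b) (hb1 : b ≤ π / 6) (hσ0 : 0 ≤ σ) (hσ : σ ≤ π / 6)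
    (hx : π / 3 < m - π / 2 + b + σ) (hs : 2 * π / 3 - σ < s)
    (hk : m - 5 * π / 6 + σ < 0) (hsm : s < m) :
    Spl b 0 s m (pt 1 (π / 2 - σ)) (vF b m σ) := by
  have hpi := Real.pi_pos
  have hL : C b 0 s (pt 1 (π / 6 - σ)) (vF b (2 * π / 3 - σ) 0) := by
    have := C.mirr (b := b) (x := 0) (y := s) (g := 0) (d := 2 * π / 3 - σ) (σ := 0) le_rfl hs.le
      le_rfl (by linarith) (by linarith) (by linarith)
    rw [sub_zero] at this
    convert this using 2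
    ring
  refine ⟨_, _, _, _, hL, right_neg I hb0 hb1 hσ0 hσ hx hk hsm, big_sum σ, ?_⟩
  have h4 := I.I4 σ (cb b) hσ0 hσ (cb_gt_one hb0 hb1).le
  unfold vF
  rw [Real.sin_zero, Real.cos_zero]
  nlinarith [h4]

theorem R5d (I : Ineqs) (hb0 : 0 < b) (hb1 : b ≤ π / 6) (hσ0 : 0 ≤ σ) (hσ : σ ≤ π / 6)
    (hm' : m ≤ π - 2 * σ) (hs : 2 * π / 3 - σ < s)
    (hk : 0 ≤ m - 5 * π / 6 + σ) (hsm : s < m) :
    Spl b 0 s m (pt 1 (π / 2 - σ)) (vF b m σ) := by
  have hpi := Real.pi_pos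
  set e := π - m - σ with he
  set y := m - s with hy
  have hme : m = π - σ - e := by rw [he]; ring
  have hc := cb_gt_one hb0 hb1
  rcases le_or_gt e y with hey | hey
  · have hcy : Real.cos (y / 2) ≠ 0 :=
      (Real.cos_pos_of_mem_Ioo ⟨by linarith, by linarith⟩).ne'
    have hq := sin_nonneg' (x := (y + e) / 2) (by linarith) (by linarith)
    have hq1 := two_sin_le_one (x := (y + e) / 2) (by linarith) (by linarith)
    have hL : C b 0 s (pt 1 (π / 2 - σ - (e + y))) (vF b (π - σ - (e + y)) 0) := by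
      have := C.mirr (b := b) (x := 0) (y := s) (g := 0) (d := π - σ - (e + y)) (σ := 0) le_rfl
        (by linarith) le_rfl (by linarith) (by linarith) (by linarith)
      rw [sub_zero] at this
      convert this using 2
      ring
    refine ⟨_, _, pt (2 * Real.sin ((y + e) / 2)) (m - (y - e) / 2), _, hL,
      C.two (s₁ := s) (s₂ := m) (p := (y + e) / 2) (q := (y - e) / 2) le_rfl le_rfl
        (by rw [hy]; ring) (by rw [hy]; ring) (by linarith) (by linarith) (by linarith)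
        (by linarith) (by linarith) (by linarith) (by linarith) hq1, ?_, ?_⟩
    · exact chord' (by congr 2; ring) (by rw [he, hy]; ring)
    · have hv : 2 * Real.sin ((y + e) / 2) * (Real.cos (((y + e) / 2 - (y - e) / 2) / 2) /
          Real.cos (((y + e) / 2 + (y - e) / 2) / 2)) =
          Real.sin e + Real.tan (y / 2) * (1 + Real.cos e) := by
        rw [← chord_value hcy]
        have f1 : ((y + e) / 2 - (y - e) / 2) / 2 = -(((y - e) / 2 - (y + e) / 2) / 2) := by ring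
        have f2 : ((y + e) / 2 + (y - e) / 2) / 2 = ((y - e) / 2 + (y + e) / 2) / 2 := by ring
        rw [f1, f2, Real.cos_neg]
      rw [hv]
      have h5 := I.I5a σ e (cb b) hσ0 (by linarith) (by linarith) hc.le
      have h1 := half_le_tan (x := y) (by linarith) (by linarith)
      have h2 := Real.cos_le_one e
      have h3 := cos_pos_small (x := e) (by linarith) (by linarith)
      unfold vF
      rw [hme, Real.sin_zero, Real.cos_zero]
      nlinarith [mul_nonneg (sub_nonneg.2 h2) (by linarith : (0 : ℝ) ≤ π / 6 - y / 2),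
        mul_nonneg (sub_nonneg.2 h1) (by linarith : (0 : ℝ) ≤ 1 + Real.cos e)]
  · have hL : C b 0 s (pt 1 (π / 2 - σ - 2 * e)) (vF b (π - σ - 2 * e) 0) := by
      have := C.mirr (b := b) (x := 0) (y := s) (g := 0) (d := π - σ - 2 * e) (σ := 0) le_rfl
        (by linarith) le_rfl (by linarith) (by linarith) (by linarith)
      rw [sub_zero] at this
      convert this using 2
      ring
    refine ⟨_, _, pt (2 * Real.sin e) m, _, hL, C.soft hsm.le le_rfl
      (by linarith [sin_nonneg' (x := e) (by linarith) (by linarith)])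
      (two_sin_le_one (by linarith) (by linarith)), ?_, ?_⟩
    · exact chord' (by congr 2; ring) (by rw [he]; ring)
    · have h5 := I.I5b σ e (cb b) hσ0 (by linarith) (by linarith) hc.le
      unfold vF
      rw [hme, Real.sin_zero, Real.cos_zero]
      nlinarith [h5]

theorem split_F0 (I : Ineqs) (hb0 : 0 < b) (hb1 : b ≤ π / 6) (hσ0 : 0 ≤ σ) (hσ : σ ≤ π / 6)
    (hm : π / 2 - b - σ ≤ m) (hm' : m ≤ π - 2 * σ) (hs0 : 0 < s) (hsm : s < m) :
    Spl b 0 s m (pt 1 (π / 2 - σ)) (vF b m σ) := by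
  rcases le_or_gt (m - π / 2 + b) σ with hz | hz
  · have h := slant (g := 0) (d := m) hb0 hb1 hσ0 hσ (by linarith) (by linarith)
    rw [zero_add, sub_zero] at h
    exact split_T h
  rcases le_or_gt s σ with h1 | h1
  · exact R2 hb0 hb1 hσ0 hσ hm' hz hs0 h1
  rcases le_or_gt (m - π / 2 + b + σ) (π / 3) with hx | hx
  · rcases le_or_gt s (m - π / 2 + b) with h2 | h2
    · exact R3 hb0 hb1 hσ0 hσ hm' h1 h2 (by linarith)
    · exact R4 hb0 hb1 hσ0 hσ hz hx h2 hsm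
  rcases le_or_gt s (π / 3 - σ) with h2 | h2
  · exact R3 hb0 hb1 hσ0 hσ hm' h1 (by linarith) h2
  rcases le_or_gt s (π / 2 - σ) with h3 | h3
  · exact R5a I hb0 hb1 hσ0 hσ hm' hx h2 h3
  rcases le_or_gt s (2 * π / 3 - σ) with h4 | h4
  · exact R5b I hb0 hb1 hσ0 hσ hm' hx h3.le h4 hsm
  rcases le_or_gt 0 (m - 5 * π / 6 + σ) with hk | hk
  · exact R5d I hb0 hb1 hσ0 hσ hm' h4 hk hsm
  · exact R5c I hb0 hb1 hσ0 hσ hx h4 hk hsm

/-! ### general intervals -/

theorem Spl.mono {b x c y x' y' v v₁ : ℝ} {w : ℂ} (hx : x' ≤ x) (hy : y ≤ y') (hv : v₁ ≤ v)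
    (h : Spl b x c y w v) : Spl b x' c y' w v₁ := by
  obtain ⟨w', v', w'', v'', h1, h2, h3, h4⟩ := h
  exact ⟨w', v', w'', v'', h1.mono hx le_rfl, h2.mono le_rfl hy, h3, hv.trans h4⟩

theorem Spl.rot {b x c y v : ℝ} {w : ℂ} (θ : ℝ) (h : Spl b x c y w v) :
    Spl b (x + θ) (c + θ) (y + θ) (pt 1 θ * w) v := by
  obtain ⟨w', v', w'', v'', h1, h2, h3, h4⟩ := h
  exact ⟨_, _, _, _, h1.rot θ, h2.rot θ, by rw [← mul_add, h3], h4⟩

theorem Spl.conj {b x c y v : ℝ} {w : ℂ} (h : Spl b x c y w v) :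
    Spl b (-y) (-c) (-x) ((starRingEnd ℂ) w) v := by
  obtain ⟨w', v', w'', v'', h1, h2, h3, h4⟩ := h
  exact ⟨_, _, _, _, h2.conj, h1.conj, by rw [← map_add, add_comm, h3], by linarith⟩

theorem split_F (I : Ineqs) {g d c : ℝ} (hb0 : 0 < b) (hb1 : b ≤ π / 6) (hσ0 : 0 ≤ σ)
    (hσ : σ ≤ π / 6) (hm : π / 2 - b - σ ≤ d - g) (hm' : d - g ≤ π - 2 * σ) (hs0 : g < c)
    (hsm : c < d) : Spl b g c d (pt 1 (g + π / 2 - σ)) (vF b (d - g) σ) := by
  have h := (split_F0 I (m := d - g) (s := c - g) hb0 hb1 hσ0 hσ hm hm' (by linarith)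
    (by linarith)).rot g
  rw [zero_add, sub_add_cancel, sub_add_cancel, pt_one_mul_pt] at h
  have e : π / 2 - σ + g = g + π / 2 - σ := by ring
  rwa [e] at h

theorem C_split (I : Ineqs) {x y c v : ℝ} {w : ℂ} (hb0 : 0 < b) (hb1 : b ≤ π / 6)
    (hxc : x < c) (hcy : c < y) (h : C b x y w v) : Spl b x c y w v := by
  rcases h with ⟨h1, h2⟩ | h | ⟨g, d, σ, h1, h2, h3, h4, h5, h6, h7, h8⟩ |
    ⟨g, d, σ, h1, h2, h3, h4, h5, h6, h7, h8⟩
  · exact ⟨0, 0, 0, 0, C.zero _ _ _, C.zero _ _ _, by rw [h1, add_zero], by linarith⟩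
  · exact split_T h
  · rcases le_or_gt d c with hd | hd
    · exact ⟨w, v, 0, 0, Or.inr (Or.inr (Or.inl ⟨g, d, σ, h1, hd, h3, h4, h5, h6, h7, h8⟩)),
        C.zero _ _ _, add_zero _, (add_zero v).ge⟩
    rcases le_or_gt c g with hg | hg
    · exact ⟨0, 0, w, v, C.zero _ _ _,
        Or.inr (Or.inr (Or.inl ⟨g, d, σ, hg, h2, h3, h4, h5, h6, h7, h8⟩)), zero_add _,
        (zero_add v).ge⟩
    rw [h7]
    exact (split_F I hb0 hb1 h3 h4 h5 h6 hg hd).mono h1 h2 h8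
  · rcases le_or_gt d c with hd | hd
    · exact ⟨w, v, 0, 0, Or.inr (Or.inr (Or.inr ⟨g, d, σ, h1, hd, h3, h4, h5, h6, h7, h8⟩)),
        C.zero _ _ _, add_zero _, (add_zero v).ge⟩
    rcases le_or_gt c g with hg | hg
    · exact ⟨0, 0, w, v, C.zero _ _ _,
        Or.inr (Or.inr (Or.inr ⟨g, d, σ, hg, h2, h3, h4, h5, h6, h7, h8⟩)), zero_add _,
        (zero_add v).ge⟩
    rw [h7]
    have h9 := (split_F I (g := -d) (d := -g) (c := -c) hb0 hb1 h3 h4 (by linarith)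
      (by linarith) (by linarith) (by linarith)).conj
    rw [neg_neg, neg_neg, neg_neg, conj_pt, neg_sub_neg] at h9
    have e : -(-d + π / 2 - σ) = d - π / 2 + σ := by ring
    rw [e] at h9
    exact h9.mono h1 h2 h8

end Pool.Agent.W_8c5d11_h65
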