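import Pool.Agent.W_8c5d11_v22.Cert

/-!
MP_8c5d11_gt: the certificates of the horseshoe theorem for `R ≤ 2 r`. Normalisation `R - r = 1`,
`R = 1 / sin b`, `0 < b ≤ π / 6`.
-/

set_option autoImplicit false

open Set
open scoped Real

namespace Pool.Agent.W_8c5d11_h65

open Pool.Agent.W_8c5d11_v22

/-- value of one terminal: lower bound of `dt w` on the disc with centre `pt (1 / sin b) s` and
radius `1 / sin b - 1` -/
noncomputable def hb (b s : ℝ) (w : ℂ) : ℝ :=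
  dt w (pt (1 / Real.sin b) s) - (1 / Real.sin b - 1) * ‖w‖

/-- half of (the length of the horseshoe minus `π`) -/
noncomputable def cb (b : ℝ) : ℝ := b + 1 - Real.tan (b / 2)

/-- value of the main certificate on an interval of length `m` -/
noncomputable def vF (b m σ : ℝ) : ℝ := Real.sin σ + (m - π / 2 + cb b) * Real.cos σ

/-- two terminals (or one, with `w₂ = 0`) -/
def CT (b x y : ℝ) (w : ℂ) (v : ℝ) : Prop :=
  ∃ (s₁ s₂ : ℝ) (w₁ w₂ : ℂ), x ≤ s₁ ∧ s₁ ≤ s₂ ∧ s₂ ≤ y ∧ ‖w₁‖ ≤ 1 ∧ ‖w₂‖ ≤ 1 ∧ ‖w₁ + w₂‖ ≤ 1 ∧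
    w = w₁ + w₂ ∧ v ≤ hb b s₁ w₁ + hb b s₂ w₂

/-- main certificate -/
def CF (b x y : ℝ) (w : ℂ) (v : ℝ) : Prop :=
  ∃ g d σ : ℝ, x ≤ g ∧ d ≤ y ∧ 0 ≤ σ ∧ σ ≤ π / 6 ∧ π / 2 - b - σ ≤ d - g ∧ d - g ≤ π - 2 * σ ∧
    w = pt 1 (g + π / 2 - σ) ∧ v ≤ vF b (d - g) σ

/-- mirror image of the main certificate -/
def CG (b x y : ℝ) (w : ℂ) (v : ℝ) : Prop :=
  ∃ g d σ : ℝ, x ≤ g ∧ d ≤ y ∧ 0 ≤ σ ∧ σ ≤ π / 6 ∧ π / 2 - b - σ ≤ d - g ∧ d - g ≤ π - 2 * σ ∧
    w = pt 1 (d - π / 2 + σ) ∧ v ≤ vF b (d - g) σ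

/-- the certificates -/
def C (b x y : ℝ) (w : ℂ) (v : ℝ) : Prop :=
  (w = 0 ∧ v ≤ 0) ∨ CT b x y w v ∨ CF b x y w v ∨ CG b x y w v

/-! ### points -/

theorem pt_add (κ s θ : ℝ) : pt κ (s + θ) = pt 1 θ * pt κ s := by
  simp only [pt]
  push_cast
  rw [add_mul, Complex.exp_add]
  ring

theorem pt_one_mul_pt (κ s θ : ℝ) : pt 1 θ * pt κ s = pt κ (s + θ) := (pt_add κ s θ).symm

theorem norm_pt_one (s : ℝ) : ‖pt 1 s‖ = 1 := norm_pt zero_le_one s

theorem dt_pt (κ ρ s t : ℝ) : dt (pt κ s) (pt ρ t) = κ * ρ * Real.cos (s - t) := by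
  simp only [dt, pt_re, pt_im]
  rw [Real.cos_sub]
  ring

theorem dt_rot (θ : ℝ) (w y : ℂ) : dt (pt 1 θ * w) (pt 1 θ * y) = dt w y := by
  simp only [dt, Complex.mul_re, Complex.mul_im, pt_re, pt_im, one_mul]
  have h := Real.sin_sq_add_cos_sq θ
  have : (Real.cos θ * w.re - Real.sin θ * w.im) * (Real.cos θ * y.re - Real.sin θ * y.im) +
      (Real.cos θ * w.im + Real.sin θ * w.re) * (Real.cos θ * y.im + Real.sin θ * y.re) =
      (Real.sin θ ^ 2 + Real.cos θ ^ 2) * (w.re * y.re + w.im * y.im) := by ring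
  rw [this, h, one_mul]

theorem norm_rot (θ : ℝ) (w : ℂ) : ‖pt 1 θ * w‖ = ‖w‖ := by
  rw [norm_mul, norm_pt_one, one_mul]

theorem conj_pt (κ s : ℝ) : (starRingEnd ℂ) (pt κ s) = pt κ (-s) := by
  apply Complex.ext
  · rw [Complex.conj_re, pt_re, pt_re, Real.cos_neg]
  · rw [Complex.conj_im, pt_im, pt_im, Real.sin_neg]; ring

theorem dt_conj (w y : ℂ) : dt ((starRingEnd ℂ) w) ((starRingEnd ℂ) y) = dt w y := by
  simp only [dt, Complex.conj_re, Complex.conj_im]; ring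

theorem dt_le (w y : ℂ) : dt w y ≤ ‖w‖ * ‖y‖ := (le_abs_self _).trans (abs_dt_le w y)

theorem dt_add_right (w y y' : ℂ) : dt w (y + y') = dt w y + dt w y' := by
  simp only [dt, Complex.add_re, Complex.add_im]; ring

/-! ### constants -/

theorem sin_b_pos {b : ℝ} (h0 : 0 < b) (h1 : b ≤ π / 6) : 0 < Real.sin b :=
  Real.sin_pos_of_pos_of_lt_pi h0 (by linarith [Real.pi_pos])

theorem sin_b_le {b : ℝ} (h0 : 0 < b) (h1 : b ≤ π / 6) : Real.sin b ≤ 1 / 2 := by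
  rw [← Real.sin_pi_div_six]
  exact Real.sin_le_sin_of_le_of_le_pi_div_two (by linarith [Real.pi_pos])
    (by linarith [Real.pi_pos]) h1

theorem one_le_inv_sin {b : ℝ} (h0 : 0 < b) (h1 : b ≤ π / 6) : 1 ≤ 1 / Real.sin b := by
  rw [le_div_iff₀ (sin_b_pos h0 h1)]
  linarith [sin_b_le h0 h1]

theorem cos_half_pos {b : ℝ} (h0 : 0 < b) (h1 : b ≤ π / 6) : 0 < Real.cos (b / 2) :=
  Real.cos_pos_of_mem_Ioo ⟨by linarith [Real.pi_pos], by linarith [Real.pi_pos]⟩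

/-- `tan (b / 2) sin b = 1 - cos b` -/
theorem tan_half_mul {b : ℝ} (h0 : 0 < b) (h1 : b ≤ π / 6) :
    Real.tan (b / 2) * Real.sin b = 1 - Real.cos b := by
  have hc := (cos_half_pos h0 h1).ne'
  have e1 := Real.cos_two_mul (b / 2)
  have e2 := Real.sin_two_mul (b / 2)
  have e3 := Real.sin_sq_add_cos_sq (b / 2)
  rw [mul_div_cancel₀ b (two_ne_zero' ℝ)] at e1 e2
  rw [Real.tan_eq_sin_div_cos, e1, e2]
  field_simp
  linear_combination 2 * e3

theorem sqrt3_bounds : 1.732 < Real.sqrt 3 ∧ Real.sqrt 3 < 1.7321 := by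
  constructor
  · rw [Real.lt_sqrt (by norm_num)]; norm_num
  · rw [Real.sqrt_lt' (by norm_num)]; norm_num

theorem tan_pi_div_twelve : Real.tan (π / 12) = 2 - Real.sqrt 3 := by
  have h0 : (0 : ℝ) < π / 6 := by positivity
  have h := tan_half_mul h0 le_rfl
  rw [Real.sin_pi_div_six, Real.cos_pi_div_six] at h
  have : π / 6 / 2 = π / 12 := by ring
  rw [this] at h
  linarith

theorem tan_half_le {b : ℝ} (h0 : 0 < b) (h1 : b ≤ π / 6) :
    Real.tan (b / 2) ≤ 2 - Real.sqrt 3 := by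
  rw [← tan_pi_div_twelve]
  have hpi := Real.pi_pos
  rcases eq_or_lt_of_le h1 with h | h
  · rw [h]; apply le_of_eq; congr 1; ring
  · exact (Real.tan_lt_tan_of_lt_of_lt_pi_div_two (by linarith) (by linarith) (by linarith)).le

theorem tan_half_pos {b : ℝ} (h0 : 0 < b) (h1 : b ≤ π / 6) : 0 < Real.tan (b / 2) :=
  Real.tan_pos_of_pos_of_lt_pi_div_two (by linarith) (by linarith [Real.pi_pos])

/-- `2 tan (b / 2) ≤ ...`: `tan (b / 2) < b` -/
theorem tan_half_lt {b : ℝ} (h0 : 0 < b) (h1 : b ≤ π / 6) : Real.tan (b / 2) < b := by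
  have hs := sin_b_pos h0 h1
  have h2 := tan_half_mul h0 h1
  have h3 := Real.one_sub_sq_div_two_le_cos (x := b)
  have h4 : b / 2 < Real.sin b := by
    have := Real.mul_lt_sin h0 (by linarith [Real.pi_pos])
    have h5 : b / 2 < 2 / π * b := by
      rw [div_mul_eq_mul_div, div_lt_div_iff₀ (by norm_num) Real.pi_pos]
      nlinarith [Real.pi_lt_four]
    linarith
  by_contra hcon
  push Not at hcon
  nlinarith

theorem cb_gt_one {b : ℝ} (h0 : 0 < b) (h1 : b ≤ π / 6) : 1 < cb b := by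
  unfold cb; linarith [tan_half_lt h0 h1]

/-- upper bound for `cb`: the function `b - tan (b / 2)` is at most its value at `π / 6` -/
theorem cb_le {b : ℝ} (h0 : 0 < b) (h1 : b ≤ π / 6) : cb b ≤ π / 6 + Real.sqrt 3 - 1 := by
  unfold cb
  have hpi := Real.pi_pos
  -- tan (π/12) - tan (b/2) ≤ 2 * (π/12 - b/2)
  have hc1 := cos_half_pos h0 h1
  have hc2 : 0 < Real.cos (π / 12) :=
    Real.cos_pos_of_mem_Ioo ⟨by linarith, by linarith⟩
  have e1 : Real.tan (π / 12) - Real.tan (b / 2) =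
      Real.sin (π / 12 - b / 2) / (Real.cos (π / 12) * Real.cos (b / 2)) := by
    rw [Real.tan_eq_sin_div_cos, Real.tan_eq_sin_div_cos, Real.sin_sub]
    field_simp
  have h2 : Real.sin (π / 12 - b / 2) ≤ π / 12 - b / 2 := by
    rcases eq_or_lt_of_le h1 with h | h
    · rw [h]
      have : π / 12 - π / 6 / 2 = 0 := by ring
      rw [this, Real.sin_zero]
    · exact (Real.sin_lt (by linarith)).le
  have h3 : (1 : ℝ) / 2 ≤ Real.cos (π / 12) * Real.cos (b / 2) := by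
    have a1 : Real.cos (π / 6) ≤ Real.cos (π / 12) :=
      Real.cos_le_cos_of_nonneg_of_le_pi (by linarith) (by linarith) (by linarith)
    have a2 : Real.cos (π / 6) ≤ Real.cos (b / 2) :=
      Real.cos_le_cos_of_nonneg_of_le_pi (by linarith) (by linarith) (by linarith)
    rw [Real.cos_pi_div_six] at a1 a2
    have a3 := sqrt3_bounds.1
    nlinarith
  have h4 : Real.tan (π / 12) - Real.tan (b / 2) ≤ 2 * (π / 12 - b / 2) := by
    rw [e1, div_le_iff₀ (mul_pos hc2 hc1)]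
    have h5 : 0 ≤ π / 12 - b / 2 := by linarith
    nlinarith
  rw [tan_pi_div_twelve] at h4
  linarith

/-! ### terminals -/

theorem hb_zero (b s : ℝ) : hb b s 0 = 0 := by
  simp [hb, dt]

theorem hb_pt (b s κ θ : ℝ) (hκ : 0 ≤ κ) :
    hb b s (pt κ θ) = κ * (1 - (1 - Real.cos (θ - s)) / Real.sin b) := by
  rw [hb, dt_pt, norm_pt hκ]
  ring

theorem hb_soft (b s κ : ℝ) (hκ : 0 ≤ κ) : hb b s (pt κ s) = κ := by
  rw [hb_pt b s κ s hκ, sub_self, Real.cos_zero, sub_self, zero_div, sub_zero, mul_one]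

theorem hb_hard {b : ℝ} (h0 : 0 < b) (h1 : b ≤ π / 6) (s κ : ℝ) (hκ : 0 ≤ κ) :
    hb b s (pt κ (s + b)) = κ * (1 - Real.tan (b / 2)) := by
  rw [hb_pt b s κ (s + b) hκ, add_sub_cancel_left, ← tan_half_mul h0 h1,
    mul_div_cancel_right₀ _ (sin_b_pos h0 h1).ne']

theorem hb_rot (b s θ : ℝ) (w : ℂ) : hb b (s + θ) (pt 1 θ * w) = hb b s w := by
  rw [hb, hb, pt_add, dt_rot, norm_rot]

theorem hb_conj (b s : ℝ) (w : ℂ) : hb b (-s) ((starRingEnd ℂ) w) = hb b s w := by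
  rw [hb, hb, ← conj_pt, dt_conj, Complex.norm_conj]

theorem hb_le {b : ℝ} (h0 : 0 < b) (h1 : b ≤ π / 6) (s : ℝ) (w : ℂ) : hb b s w ≤ ‖w‖ := by
  have h2 := one_le_inv_sin h0 h1
  have h3 := dt_le w (pt (1 / Real.sin b) s)
  rw [norm_pt (by linarith)] at h3
  rw [hb]
  nlinarith

/-- A point of the disc. -/
theorem hb_le_dt {b s : ℝ} {w y : ℂ}
    (hy : dist (pt (1 / Real.sin b) s) y ≤ 1 / Real.sin b - 1) : hb b s w ≤ dt w y := by
  have h1 : dt w y = dt w (pt (1 / Real.sin b) s) - dt w (pt (1 / Real.sin b) s - y) := by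
    rw [← dt_sub_right]; ring
  have h2 := dt_le w (pt (1 / Real.sin b) s - y)
  rw [dist_eq_norm] at hy
  have h3 : ‖w‖ * ‖pt (1 / Real.sin b) s - y‖ ≤ ‖w‖ * (1 / Real.sin b - 1) :=
    mul_le_mul_of_nonneg_left hy (norm_nonneg _)
  rw [h1, hb]
  linarith

/-! ### closure properties -/

theorem CT.mono {b x y x' y' : ℝ} {w : ℂ} {v : ℝ} (hx : x' ≤ x) (hy : y ≤ y')
    (h : CT b x y w v) : CT b x' y' w v := by
  obtain ⟨s₁, s₂, w₁, w₂, h1, h2, h3, h4⟩ := h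
  exact ⟨s₁, s₂, w₁, w₂, hx.trans h1, h2, h3.trans hy, h4⟩

theorem CF.mono {b x y x' y' : ℝ} {w : ℂ} {v : ℝ} (hx : x' ≤ x) (hy : y ≤ y')
    (h : CF b x y w v) : CF b x' y' w v := by
  obtain ⟨g, d, σ, h1, h2, h3⟩ := h
  exact ⟨g, d, σ, hx.trans h1, h2.trans hy, h3⟩

theorem CG.mono {b x y x' y' : ℝ} {w : ℂ} {v : ℝ} (hx : x' ≤ x) (hy : y ≤ y')
    (h : CG b x y w v) : CG b x' y' w v := by
  obtain ⟨g, d, σ, h1, h2, h3⟩ := h
  exact ⟨g, d, σ, hx.trans h1, h2.trans hy, h3⟩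

theorem C.mono {b x y x' y' : ℝ} {w : ℂ} {v : ℝ} (hx : x' ≤ x) (hy : y ≤ y')
    (h : C b x y w v) : C b x' y' w v := by
  rcases h with h | h | h | h
  · exact Or.inl h
  · exact Or.inr (Or.inl (h.mono hx hy))
  · exact Or.inr (Or.inr (Or.inl (h.mono hx hy)))
  · exact Or.inr (Or.inr (Or.inr (h.mono hx hy)))

theorem C.zero (b x y : ℝ) : C b x y 0 0 := Or.inl ⟨rfl, le_rfl⟩

theorem C.rot {b x y : ℝ} {w : ℂ} {v : ℝ} (θ : ℝ) (h : C b x y w v) :
    C b (x + θ) (y + θ) (pt 1 θ * w) v := by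
  rcases h with ⟨h1, h2⟩ | ⟨s₁, s₂, w₁, w₂, h1, h2, h3, h4, h5, h6, h7, h8⟩ |
    ⟨g, d, σ, h1, h2, h3, h4, h5, h6, h7, h8⟩ | ⟨g, d, σ, h1, h2, h3, h4, h5, h6, h7, h8⟩
  · exact Or.inl ⟨by rw [h1, mul_zero], h2⟩
  · refine Or.inr (Or.inl ⟨s₁ + θ, s₂ + θ, pt 1 θ * w₁, pt 1 θ * w₂, by linarith, by linarith,
      by linarith, ?_, ?_, ?_, ?_, ?_⟩)
    · rwa [norm_rot]
    · rwa [norm_rot]
    · rwa [← mul_add, norm_rot]
    · rw [h7, mul_add]
    · rwa [hb_rot, hb_rot]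
  · refine Or.inr (Or.inr (Or.inl ⟨g + θ, d + θ, σ, by linarith, by linarith, h3, h4, by linarith,
      by linarith, ?_, ?_⟩))
    · rw [h7, pt_one_mul_pt]; congr 1; ring
    · rwa [add_sub_add_right_eq_sub]
  · refine Or.inr (Or.inr (Or.inr ⟨g + θ, d + θ, σ, by linarith, by linarith, h3, h4, by linarith,
      by linarith, ?_, ?_⟩))
    · rw [h7, pt_one_mul_pt]; congr 1; ring
    · rwa [add_sub_add_right_eq_sub]

theorem C.conj {b x y : ℝ} {w : ℂ} {v : ℝ} (h : C b x y w v) :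
    C b (-y) (-x) ((starRingEnd ℂ) w) v := by
  rcases h with ⟨h1, h2⟩ | ⟨s₁, s₂, w₁, w₂, h1, h2, h3, h4, h5, h6, h7, h8⟩ |
    ⟨g, d, σ, h1, h2, h3, h4, h5, h6, h7, h8⟩ | ⟨g, d, σ, h1, h2, h3, h4, h5, h6, h7, h8⟩
  · exact Or.inl ⟨by rw [h1, map_zero], h2⟩
  · refine Or.inr (Or.inl ⟨-s₂, -s₁, (starRingEnd ℂ) w₂, (starRingEnd ℂ) w₁, by linarith,
      by linarith, by linarith, ?_, ?_, ?_, ?_, ?_⟩)
    · rwa [Complex.norm_conj]
    · rwa [Complex.norm_conj]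
    · rwa [← map_add, Complex.norm_conj, add_comm]
    · rw [h7, map_add, add_comm]
    · rw [hb_conj, hb_conj]; linarith
  · refine Or.inr (Or.inr (Or.inr ⟨-d, -g, σ, by linarith, by linarith, h3, h4, by linarith,
      by linarith, ?_, ?_⟩))
    · rw [h7, conj_pt]; congr 1; ring
    · rwa [neg_sub_neg]
  · refine Or.inr (Or.inr (Or.inl ⟨-d, -g, σ, by linarith, by linarith, h3, h4, by linarith,
      by linarith, ?_, ?_⟩))
    · rw [h7, conj_pt]; congr 1; ring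
    · rwa [neg_sub_neg]

/-! ### constructors -/

/-- one terminal -/
theorem C.one {b x y s : ℝ} {w : ℂ} (hx : x ≤ s) (hy : s ≤ y) (hw : ‖w‖ ≤ 1) :
    C b x y w (hb b s w) := by
  refine Or.inr (Or.inl ⟨s, s, w, 0, hx, le_rfl, hy, hw, by simp, by simpa using hw, by simp, ?_⟩)
  rw [hb_zero, add_zero]

/-- one terminal, in its own direction -/
theorem C.soft {b x y s κ : ℝ} (hx : x ≤ s) (hy : s ≤ y) (h0 : 0 ≤ κ) (h1 : κ ≤ 1) :
    C b x y (pt κ s) κ := by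
  have := C.one (b := b) hx hy (w := pt κ s) (by rwa [norm_pt h0])
  rwa [hb_soft b s κ h0] at this

/-- one terminal, extreme direction -/
theorem C.hard {b x y s κ : ℝ} (hb0 : 0 < b) (hb1 : b ≤ π / 6) (hx : x ≤ s) (hy : s ≤ y)
    (h0 : 0 ≤ κ) (h1 : κ ≤ 1) : C b x y (pt κ (s + b)) (κ * (1 - Real.tan (b / 2))) := by
  have := C.one (b := b) hx hy (w := pt κ (s + b)) (by rwa [norm_pt h0])
  rwa [hb_hard hb0 hb1 s κ h0] at this

theorem C.main {b x y g d σ : ℝ} (h1 : x ≤ g) (h2 : d ≤ y) (h3 : 0 ≤ σ) (h4 : σ ≤ π / 6)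
    (h5 : π / 2 - b - σ ≤ d - g) (h6 : d - g ≤ π - 2 * σ) :
    C b x y (pt 1 (g + π / 2 - σ)) (vF b (d - g) σ) :=
  Or.inr (Or.inr (Or.inl ⟨g, d, σ, h1, h2, h3, h4, h5, h6, rfl, le_rfl⟩))

theorem C.mirr {b x y g d σ : ℝ} (h1 : x ≤ g) (h2 : d ≤ y) (h3 : 0 ≤ σ) (h4 : σ ≤ π / 6)
    (h5 : π / 2 - b - σ ≤ d - g) (h6 : d - g ≤ π - 2 * σ) :
    C b x y (pt 1 (d - π / 2 + σ)) (vF b (d - g) σ) :=
  Or.inr (Or.inr (Or.inr ⟨g, d, σ, h1, h2, h3, h4, h5, h6, rfl, le_rfl⟩))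

theorem pt_combo {A B θ s₁ s₂ κ p q : ℝ} (h1 : θ = s₁ + p) (h2 : s₂ = s₁ + p + q)
    (hs : Real.sin (p + q) ≠ 0) (hA : A = κ * Real.sin q / Real.sin (p + q))
    (hB : B = κ * Real.sin p / Real.sin (p + q)) : pt A s₁ + pt B s₂ = pt κ θ := by
  have key : pt A 0 + pt B (p + q) = pt κ p := by
    apply Complex.ext
    · rw [Complex.add_re, pt_re, pt_re, pt_re, Real.cos_zero, hA, hB]
      field_simp
      have e1 := Real.sin_sub (p + q) p
      rw [add_sub_cancel_left] at e1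
      rw [e1]; ring
    · rw [Complex.add_im, pt_im, pt_im, pt_im, Real.sin_zero, hB]
      field_simp
      ring
  have e1 : pt A s₁ = pt 1 s₁ * pt A 0 := by rw [pt_one_mul_pt, zero_add]
  have e2 : pt B s₂ = pt 1 s₁ * pt B (p + q) := by rw [pt_one_mul_pt, h2]; congr 1; ring
  have e3 : pt κ θ = pt 1 s₁ * pt κ p := by rw [pt_one_mul_pt, h1]; congr 1; ring
  rw [e1, e2, e3, ← mul_add, key]

/-- two terminals, in their own directions -/
theorem C.two {b x y s₁ s₂ θ κ p q : ℝ} (hx : x ≤ s₁) (hy : s₂ ≤ y) (h1 : θ = s₁ + p)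
    (h2 : s₂ = s₁ + p + q) (hp : 0 ≤ p) (hq : 0 ≤ q) (hpq : 0 < p + q) (hpq' : p + q < π)
    (hp' : 2 * p + q ≤ π) (hq' : p + 2 * q ≤ π) (h0 : 0 ≤ κ) (hκ : κ ≤ 1) :
    C b x y (pt κ θ) (κ * (Real.cos ((p - q) / 2) / Real.cos ((p + q) / 2))) := by
  have hs : 0 < Real.sin (p + q) := Real.sin_pos_of_pos_of_lt_pi hpq hpq'
  have key : ∀ u v : ℝ, 0 ≤ u → 0 ≤ v → 0 < u + v → u + v < π → u + 2 * v ≤ π →
      Real.sin v ≤ Real.sin (u + v) := by
    intro u v hu hv huv huv' h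
    have e1 : Real.sin (u + v) - Real.sin v = 2 * Real.sin (u / 2) * Real.cos ((u + 2 * v) / 2) := by
      rw [Real.sin_sub_sin]; congr 2 <;> [skip; congr 1] <;> ring_nf
    have h3 : 0 ≤ Real.sin (u / 2) := Real.sin_nonneg_of_nonneg_of_le_pi (by linarith) (by linarith)
    have h4 : 0 ≤ Real.cos ((u + 2 * v) / 2) :=
      Real.cos_nonneg_of_mem_Icc ⟨by linarith, by linarith⟩
    nlinarith [mul_nonneg h3 h4]
  have hsq := key p q hp hq hpq hpq' hq'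
  have hsp := key q p hq hp (by linarith) (by linarith) (by linarith)
  rw [add_comm q p] at hsp
  have hq0 : 0 ≤ Real.sin q := Real.sin_nonneg_of_nonneg_of_le_pi hq (by linarith)
  have hp0 : 0 ≤ Real.sin p := Real.sin_nonneg_of_nonneg_of_le_pi hp (by linarith)
  set A := κ * Real.sin q / Real.sin (p + q) with hA
  set B := κ * Real.sin p / Real.sin (p + q) with hB
  have hA0 : 0 ≤ A := by positivity
  have hB0 : 0 ≤ B := by positivity
  have hA1 : A ≤ 1 := by rw [hA, div_le_one hs]; nlinarith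
  have hB1 : B ≤ 1 := by rw [hB, div_le_one hs]; nlinarith
  have hc := pt_combo h1 h2 hs.ne' hA hB
  refine Or.inr (Or.inl ⟨s₁, s₂, pt A s₁, pt B s₂, hx, by linarith, hy, ?_, ?_, ?_, hc.symm, ?_⟩)
  · rwa [norm_pt hA0]
  · rwa [norm_pt hB0]
  · rwa [hc, norm_pt h0]
  · rw [hb_soft b s₁ A hA0, hb_soft b s₂ B hB0, hA, hB]
    have hc2 : 0 < Real.cos ((p + q) / 2) :=
      Real.cos_pos_of_mem_Ioo ⟨by linarith [Real.pi_pos], by linarith⟩
    have e1 : Real.sin q + Real.sin p =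
        2 * Real.sin ((p + q) / 2) * Real.cos ((p - q) / 2) := by
      have e := Real.sin_add (((p + q) / 2)) ((p - q) / 2)
      have e' := Real.sin_sub (((p + q) / 2)) ((p - q) / 2)
      have f : (p + q) / 2 + (p - q) / 2 = p := by ring
      have f' : (p + q) / 2 - (p - q) / 2 = q := by ring
      rw [f] at e; rw [f'] at e'
      linarith
    have e2 : Real.sin (p + q) = 2 * Real.sin ((p + q) / 2) * Real.cos ((p + q) / 2) := by
      rw [← Real.sin_two_mul]; congr 1; ring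
    have hs2 : 0 < Real.sin ((p + q) / 2) :=
      Real.sin_pos_of_pos_of_lt_pi (by linarith) (by linarith)
    apply le_of_eq
    have e3 : κ * Real.sin q / Real.sin (p + q) + κ * Real.sin p / Real.sin (p + q) =
        κ * (Real.sin q + Real.sin p) / Real.sin (p + q) := by ring
    rw [e3, e1, e2]
    field_simp

end Pool.Agent.W_8c5d11_h65
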