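import Pool.Agent.W_8c5d11_h65.Leaf

/-!
MP_8c5d11_gt: elementary inequalities (I4), (I5a), (I5b), (I9).
-/

set_option autoImplicit false

open Set
open scoped Real

namespace Pool.Agent.W_8c5d11_h65

theorem one_sub_cos_lower {s : ℝ} (h0 : 0 ≤ s) (h1 : s ≤ π / 6) :
    0.47 * s ^ 2 ≤ 1 - Real.cos s := by
  have hs1 : s ≤ 1 := by linarith [Real.pi_lt_d2]
  have h3 := abs_le.1 (Real.cos_bound (x := s) (by rw [abs_of_nonneg h0]; exact hs1))
  rw [abs_of_nonneg h0] at h3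
  have h4 : Real.cos s ≤ 1 - s ^ 2 / 2 + s ^ 4 * (5 / 96) := by linarith [h3.2]
  have : s ^ 4 * (5 / 96) ≤ 0.03 * s ^ 2 := by
    have : s ^ 2 ≤ 0.53 ^ 2 := pow_le_pow_left₀ h0 (by linarith [Real.pi_lt_d2]) 2
    nlinarith [sq_nonneg s]
  linarith

theorem sin_lower {s : ℝ} (h0 : 0 ≤ s) : s - s ^ 3 / 6 ≤ Real.sin s := by
  rcases eq_or_lt_of_le h0 with h | h
  · rw [← h]; simp
  · exact (Real.sin_gt_sub_cube h).le

theorem sin_sub_lower {s e : ℝ} (h0 : 0 ≤ s) (h1 : s ≤ e) (h2 : e ≤ π / 6) :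
    0.85 * (e - s) ≤ Real.sin e - Real.sin s := by
  rw [Real.sin_sub_sin]
  have h3 := sin_lower (s := (e - s) / 2) (by linarith)
  have h4 := cos_lower (x := (e + s) / 2) (by linarith [Real.pi_pos]) (by linarith)
  have h5 : 0.985 * ((e - s) / 2) ≤ Real.sin ((e - s) / 2) := by
    have h6 : (e - s) / 2 ≤ 0.27 := by linarith [Real.pi_lt_d2]
    have h7 : 0 ≤ (e - s) / 2 := by linarith
    have h8 : ((e - s) / 2) ^ 2 ≤ 0.27 ^ 2 := pow_le_pow_left₀ h7 h6 2
    have h9 : ((e - s) / 2) ^ 3 = ((e - s) / 2) ^ 2 * ((e - s) / 2) := by ring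
    have h10 : ((e - s) / 2) ^ 2 * ((e - s) / 2) ≤ 0.27 ^ 2 * ((e - s) / 2) :=
      mul_le_mul_of_nonneg_right h8 h7
    have h11 : (e - s) / 2 - 0.0125 * ((e - s) / 2) ≤ (e - s) / 2 - ((e - s) / 2) ^ 3 / 6 := by
      rw [h9]; linarith
    linarith
  have h6 : 0 ≤ e - s := by linarith
  nlinarith [mul_le_mul h5 h4.le (by norm_num) (by linarith : (0 : ℝ) ≤ Real.sin ((e - s) / 2))]

theorem cos_sub_upper {s e : ℝ} (h0 : 0 ≤ s) (h1 : s ≤ e) (h2 : e ≤ π / 6) :
    Real.cos s - Real.cos e ≤ (e - s) / 2 := by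
  have hpi := Real.pi_pos
  have e1 := Real.cos_sub_cos s e
  have f1 : (s - e) / 2 = -((e - s) / 2) := by ring
  rw [f1, Real.sin_neg] at e1
  have h3 : Real.sin ((s + e) / 2) ≤ 1 / 2 := by
    rw [← Real.sin_pi_div_six]
    exact Real.sin_le_sin_of_le_of_le_pi_div_two (by linarith) (by linarith) (by linarith)
  have h4 : Real.sin ((e - s) / 2) ≤ (e - s) / 2 := Real.sin_le (by linarith)
  have h5 : 0 ≤ Real.sin ((e - s) / 2) :=
    Real.sin_nonneg_of_nonneg_of_le_pi (by linarith) (by linarith)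
  have h6 : 0 ≤ Real.sin ((s + e) / 2) :=
    Real.sin_nonneg_of_nonneg_of_le_pi (by linarith) (by linarith)
  have h7 : Real.sin ((s + e) / 2) * Real.sin ((e - s) / 2) ≤ 1 / 2 * ((e - s) / 2) :=
    mul_le_mul h3 h4 h5 (by norm_num)
  linarith

theorem I4 (s c : ℝ) (h0 : 0 ≤ s) (h1 : s ≤ π / 6) (hc : 1 ≤ c) :
    0 ≤ 1 + π / 6 - s + c - Real.sin s - (π / 3 - s + c) * Real.cos s := by
  have h2 := one_sub_cos_lower h0 h1
  have h3 := Real.sin_le h0
  have h4 := Real.cos_le_one s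
  have h5 := Real.pi_lt_d2
  have h6 := Real.pi_gt_d2
  have h7 : 0.47 * s ^ 2 * (π / 3 - s + c) ≤ (1 - Real.cos s) * (π / 3 - s + c) :=
    mul_le_mul_of_nonneg_right h2 (by linarith)
  have h8 : 0.47 * s ^ 2 * 1.52 ≤ 0.47 * s ^ 2 * (π / 3 - s + c) :=
    mul_le_mul_of_nonneg_left (by linarith) (by positivity)
  nlinarith [sq_nonneg (s - 0.7)]

theorem I5a (s e c : ℝ) (h0 : 0 ≤ s) (h1 : s ≤ e) (h2 : e ≤ π / 6) (hc : 1 ≤ c) :
    0 ≤ Real.sin e - Real.sin s - (1 - Real.cos e) * (π / 6) +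
      (π / 2 - e - s + c) * (1 - Real.cos s) := by
  have hpi := Real.pi_gt_d2
  have hpi' := Real.pi_lt_d2
  have a1 := sin_sub_lower h0 h1 h2
  have a2 := cos_sub_upper h0 h1 h2
  have a3 := cos_lower (x := s) (by linarith) (by linarith)
  have a4 := Real.cos_le_one s
  have a5 : (Real.cos s - Real.cos e) * (π / 6) ≤ (e - s) / 2 * (π / 6) :=
    mul_le_mul_of_nonneg_right a2 (by linarith)
  have a6 : (e - s) / 2 * (π / 6) ≤ (e - s) * 0.27 := by nlinarith
  have a7 : (e - s) * (1 - Real.cos s) ≤ (e - s) * 0.134 :=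
    mul_le_mul_of_nonneg_left (by linarith) (by linarith)
  have a8 : 0 ≤ (1 - Real.cos s) * (π / 3 - 2 * s + c) :=
    mul_nonneg (by linarith) (by linarith)
  nlinarith

theorem I5b (s e c : ℝ) (h0 : 0 ≤ s) (h1 : s ≤ e) (h2 : e ≤ π / 6) (hc : 1 ≤ c) :
    0 ≤ 2 * Real.sin e - e - Real.sin s + (π / 2 - e - s + c) * (1 - Real.cos s) := by
  have hpi := Real.pi_gt_d2
  have hpi' := Real.pi_lt_d2
  have a1 := sin_sub_lower h0 h1 h2
  have a3 := cos_lower (x := s) (by linarith) (by linarith)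
  have a4 := Real.cos_le_one s
  have a7 : (e - s) * (1 - Real.cos s) ≤ (e - s) * 0.134 :=
    mul_le_mul_of_nonneg_left (by linarith) (by linarith)
  have a8 : 1.5 * (0.47 * s ^ 2) ≤ (π / 2 - 2 * s + c) * (1 - Real.cos s) :=
    mul_le_mul (by linarith) (one_sub_cos_lower h0 (by linarith)) (by positivity) (by linarith)
  have a9 := sin_lower h0
  have a10 : s ^ 3 / 6 ≤ 1.5 * (0.47 * s ^ 2) := by
    have : s ≤ 0.53 := by linarith
    nlinarith [sq_nonneg s]
  nlinarith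

theorem I9 (s y k : ℝ) (h0 : 0 ≤ s) (h1 : s ≤ π / 6) (h2 : 0 ≤ y) (h3 : y ≤ π / 6) (h4 : 0 ≤ k)
    (h5 : k ≤ π / 6 - s) :
    Real.cos ((y + s) / 2) / Real.cos (π / 6 + (y - s) / 2) - (π / 6 - s) * Real.cos s ≤
      Real.cos ((π / 6 + y - k) / 2) / Real.cos ((π / 6 + y + k) / 2) - k * Real.cos s := by
  have hpi := Real.pi_pos
  set d := π / 6 - s - k with hd
  have hd0 : 0 ≤ d := by linarith
  have e1 : (y + s) / 2 = (π / 6 + y - k) / 2 - d / 2 := by rw [hd]; ring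
  have e2 : π / 6 + (y - s) / 2 = (π / 6 + y + k) / 2 + d / 2 := by rw [hd]; ring
  set P := (π / 6 + y - k) / 2 with hP
  set Q := (π / 6 + y + k) / 2 with hQ
  have hc1 : 0 < Real.cos Q := Real.cos_pos_of_mem_Ioo ⟨by linarith, by linarith⟩
  have hc2 : 0 < Real.cos (Q + d / 2) := Real.cos_pos_of_mem_Ioo ⟨by linarith, by linarith⟩
  have hle : Real.cos (Q + d / 2) ≤ Real.cos Q :=
    Real.cos_le_cos_of_nonneg_of_le_pi (by linarith) (by linarith) (by linarith)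
  have key : Real.cos (P - d / 2) * Real.cos Q - Real.cos P * Real.cos (Q + d / 2) =
      Real.sin (π / 6 + y) * Real.sin (d / 2) := by
    have f : π / 6 + y = P + Q := by rw [hP, hQ]; ring
    rw [f, Real.cos_sub, Real.cos_add, Real.sin_add]
    ring
  have hden : 1 / 2 ≤ Real.cos (Q + d / 2) * Real.cos Q := by
    have g1 := Real.cos_sq (Q + d / 2)
    have g2 : 0 ≤ Real.cos (2 * (Q + d / 2)) :=
      Real.cos_nonneg_of_mem_Icc ⟨by linarith, by linarith⟩
    nlinarith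
  have hsin : Real.sin (π / 6 + y) ≤ Real.cos s := by
    rw [← Real.cos_pi_div_two_sub]
    exact Real.cos_le_cos_of_nonneg_of_le_pi h0 (by linarith) (by linarith)
  have hsd : Real.sin (d / 2) ≤ d / 2 := Real.sin_le (by linarith)
  have hs0 : 0 ≤ Real.sin (π / 6 + y) :=
    Real.sin_nonneg_of_nonneg_of_le_pi (by linarith) (by linarith)
  have hsd0 : 0 ≤ Real.sin (d / 2) :=
    Real.sin_nonneg_of_nonneg_of_le_pi (by linarith) (by linarith)
  have hcs : 0 ≤ Real.cos s := hs0.trans hsin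
  have hmain : Real.sin (π / 6 + y) * Real.sin (d / 2) ≤
      d * Real.cos s * (Real.cos (Q + d / 2) * Real.cos Q) := by
    have g1 : Real.sin (π / 6 + y) * Real.sin (d / 2) ≤ Real.cos s * (d / 2) :=
      mul_le_mul hsin hsd hsd0 hcs
    have g2 : d * Real.cos s * (1 / 2) ≤ d * Real.cos s * (Real.cos (Q + d / 2) * Real.cos Q) :=
      mul_le_mul_of_nonneg_left hden (mul_nonneg hd0 hcs)
    linarith
  have hfin : Real.cos (P - d / 2) / Real.cos (Q + d / 2) - Real.cos P / Real.cos Q ≤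
      d * Real.cos s := by
    rw [div_sub_div _ _ hc2.ne' hc1.ne', div_le_iff₀ (mul_pos hc2 hc1)]
    have : Real.cos (P - d / 2) * Real.cos Q - Real.cos (Q + d / 2) * Real.cos P =
      Real.cos (P - d / 2) * Real.cos Q - Real.cos P * Real.cos (Q + d / 2) := by ring
    rw [this, key]
    exact hmain
  rw [e1, e2]
  have : d * Real.cos s = (π / 6 - s) * Real.cos s - k * Real.cos s := by rw [hd]; ring
  linarith

end Pool.Agent.W_8c5d11_h65
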