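import Pool.Agent.W_8c5d11_h65.Def

/-!
MP_8c5d11_gt: certificates at leaves; boundedness, norm and periodicity of certificates.
-/

set_option autoImplicit false

open Set
open scoped Real

namespace Pool.Agent.W_8c5d11_h65

open Pool.Agent.W_8c5d11_v22

theorem vF_eq (b m σ : ℝ) : vF b m σ =
    Real.sin σ + (m - π / 2 + b + (1 - Real.tan (b / 2))) * Real.cos σ := by
  unfold vF cb; ring

theorem t_lower {b : ℝ} (h0 : 0 < b) (h1 : b ≤ π / 6) : 0.73 < 1 - Real.tan (b / 2) := by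
  linarith [tan_half_le h0 h1, sqrt3_bounds.1]

theorem t_upper {b : ℝ} (h0 : 0 < b) (h1 : b ≤ π / 6) : 1 - Real.tan (b / 2) < 1 := by
  linarith [tan_half_pos h0 h1]

theorem cos_pos_small {x : ℝ} (h0 : -(π / 6) ≤ x) (h1 : x ≤ π / 6) : 0 < Real.cos x :=
  Real.cos_pos_of_mem_Ioo ⟨by linarith [Real.pi_pos], by linarith [Real.pi_pos]⟩

theorem cos_lower {x : ℝ} (h0 : -(π / 6) ≤ x) (h1 : x ≤ π / 6) : 0.866 < Real.cos x := by
  have hpi := Real.pi_pos
  have h2 : Real.cos (π / 6) ≤ Real.cos |x| :=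
    Real.cos_le_cos_of_nonneg_of_le_pi (abs_nonneg x) (by linarith) (abs_le.2 ⟨by linarith, h1⟩)
  rw [Real.cos_abs, Real.cos_pi_div_six] at h2
  linarith [sqrt3_bounds.1]

/-- `sin z - z cos z + t (1 - cos z) ≥ 0` -/
theorem I6' {z t : ℝ} (h0 : -(π / 6) ≤ z) (h1 : z ≤ π / 6) (ht : 0.73 < t) :
    0 ≤ Real.sin z - z * Real.cos z + t * (1 - Real.cos z) := by
  have hc := Real.cos_le_one z
  rcases le_or_gt 0 z with h | h
  · have h2 := Real.le_tan h (by linarith [Real.pi_pos])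
    have h3 := cos_pos_small h0 h1
    rw [Real.tan_eq_sin_div_cos, le_div_iff₀ h3] at h2
    nlinarith
  · have h2 : Real.sin (-z) ≤ -z := Real.sin_le (by linarith)
    rw [Real.sin_neg] at h2
    have h3 : -z ≤ t := by linarith [Real.pi_lt_d2]
    nlinarith

theorem slant_ineq {z σ t : ℝ} (hσ0 : 0 ≤ σ) (hσ : σ ≤ π / 6) (h1 : -σ ≤ z) (h2 : z ≤ σ)
    (ht : 0.73 < t) : Real.sin σ + (z + t) * Real.cos σ ≤
      Real.sin (z + σ) / Real.cos z + Real.cos σ / Real.cos z * t := by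
  have hcz : 0 < Real.cos z := cos_pos_small (by linarith) (by linarith)
  have hcs : 0 < Real.cos σ := cos_pos_small (by linarith [Real.pi_pos]) hσ
  have h3 := I6' (z := z) (t := t) (by linarith) (by linarith) ht
  have e : Real.sin (z + σ) / Real.cos z + Real.cos σ / Real.cos z * t =
      (Real.sin z * Real.cos σ + Real.cos z * Real.sin σ + Real.cos σ * t) / Real.cos z := by
    rw [Real.sin_add]; ring
  rw [e, le_div_iff₀ hcz]
  nlinarith [mul_nonneg hcs.le h3]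

/-- Short intervals: the main certificate is weaker than a certificate with two terminals. -/
theorem slant {b g d σ : ℝ} (hb0 : 0 < b) (hb1 : b ≤ π / 6) (hσ0 : 0 ≤ σ) (hσ : σ ≤ π / 6)
    (h1 : -σ ≤ d - g - π / 2 + b) (h2 : d - g - π / 2 + b ≤ σ) :
    CT b g d (pt 1 (g + π / 2 - σ)) (vF b (d - g) σ) := by
  have hpi := Real.pi_pos
  set z := d - g - π / 2 + b with hz
  have hcz : 0 < Real.cos z := cos_pos_small (by linarith) (by linarith)
  have hcs : 0 < Real.cos σ := cos_pos_small (by linarith) hσ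
  have hgd : g ≤ d := by linarith
  have hspq : Real.sin (π / 2 - σ + (z + σ)) = Real.cos z := by
    rw [← Real.cos_pi_div_two_sub, ← Real.cos_neg]; congr 1; ring
  have hsp : Real.sin (π / 2 - σ) = Real.cos σ := Real.sin_pi_div_two_sub σ
  set A := Real.sin (z + σ) / Real.cos z with hA
  set B := Real.cos σ / Real.cos z with hB
  have hs0 : 0 ≤ Real.sin (z + σ) := Real.sin_nonneg_of_nonneg_of_le_pi (by linarith) (by linarith)
  have hA0 : 0 ≤ A := by positivity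
  have hB0 : 0 ≤ B := by positivity
  have hB1 : B ≤ 1 := by
    rw [hB, div_le_one hcz, ← Real.cos_abs z]
    exact Real.cos_le_cos_of_nonneg_of_le_pi (abs_nonneg z) (by linarith) (abs_le.2 ⟨h1, h2⟩)
  have hA1 : A ≤ 1 := by
    rw [hA, div_le_one hcz]
    have e : Real.sin (z + σ) ≤ Real.sin (2 * σ) :=
      Real.sin_le_sin_of_le_of_le_pi_div_two (by linarith) (by linarith) (by linarith)
    have e2 : Real.sin σ ≤ 1 / 2 := by
      rw [← Real.sin_pi_div_six]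
      exact Real.sin_le_sin_of_le_of_le_pi_div_two (by linarith) (by linarith) hσ
    rw [Real.sin_two_mul] at e
    have e3 : Real.cos σ ≤ Real.cos z := by
      rw [← Real.cos_abs z]
      exact Real.cos_le_cos_of_nonneg_of_le_pi (abs_nonneg z) (by linarith) (abs_le.2 ⟨h1, h2⟩)
    nlinarith
  have hc := pt_combo (A := A) (B := B) (θ := g + π / 2 - σ) (s₁ := g) (s₂ := d + b) (κ := 1)
    (p := π / 2 - σ) (q := z + σ) (by ring) (by rw [hz]; ring) (by rw [hspq]; exact hcz.ne')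
    (by rw [hspq, one_mul]) (by rw [hspq, one_mul, hsp])
  refine ⟨g, d, pt A g, pt B (d + b), le_rfl, hgd, le_rfl, ?_, ?_, ?_, hc.symm, ?_⟩
  · rwa [norm_pt hA0]
  · rwa [norm_pt hB0]
  · rw [hc, norm_pt_one]
  · rw [hb_soft b g A hA0, hb_hard hb0 hb1 d B hB0, vF_eq]
    exact slant_ineq hσ0 hσ h1 h2 (t_lower hb0 hb1)

/-- `2 sin σ + z - σ + t ≥ sin σ + (z + t) cos σ` -/
theorem I7' {z σ t : ℝ} (hσ0 : 0 ≤ σ) (hσ : σ ≤ π / 6) (h1 : σ ≤ z) (ht : 0.73 < t) :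
    Real.sin σ + (z + t) * Real.cos σ ≤ 2 * Real.sin σ + (z - σ + t) := by
  rcases eq_or_lt_of_le hσ0 with h | h
  · rw [← h]; simp
  have hs1 : σ ≤ 1 := by linarith [Real.pi_lt_d2]
  have h2 := Real.sin_gt_sub_cube h
  have h3 := abs_le.1 (Real.cos_bound (x := σ) (by rw [abs_of_pos h]; exact hs1))
  rw [abs_of_pos h] at h3
  have h4 : Real.cos σ ≤ 1 - σ ^ 2 / 2 + σ ^ 4 * (5 / 96) := by linarith [h3.2]
  have h5 : 0.47 * σ ^ 2 ≤ 1 - Real.cos σ := by
    have : σ ^ 4 * (5 / 96) ≤ 0.03 * σ ^ 2 := by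
      have : σ ^ 2 ≤ 0.53 ^ 2 := pow_le_pow_left₀ hσ0 (by linarith [Real.pi_lt_d2]) 2
      nlinarith [sq_nonneg σ]
    linarith
  have h6 : 0.73 * (0.47 * σ ^ 2) ≤ (z + t) * (1 - Real.cos σ) :=
    mul_le_mul (by linarith) h5 (by positivity) (by linarith)
  have h7 : σ ^ 3 / 6 ≤ 0.73 * (0.47 * σ ^ 2) := by
    have : σ ≤ 0.53 := by linarith [Real.pi_lt_d2]
    nlinarith [sq_nonneg σ]
  linarith

theorem split_chord (g σ : ℝ) :
    pt (2 * Real.sin σ) g + pt 1 (g + π / 2 + σ) = pt 1 (g + π / 2 - σ) := by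
  have e1 : Real.cos (g + π / 2 + σ) = -Real.sin (g + σ) := by
    rw [← Real.cos_add_pi_div_two]; congr 1; ring
  have e2 : Real.cos (g + π / 2 - σ) = -Real.sin (g - σ) := by
    rw [← Real.cos_add_pi_div_two]; congr 1; ring
  have e3 : Real.sin (g + π / 2 + σ) = Real.cos (g + σ) := by
    rw [← Real.sin_add_pi_div_two]; congr 1; ring
  have e4 : Real.sin (g + π / 2 - σ) = Real.cos (g - σ) := by
    rw [← Real.sin_add_pi_div_two]; congr 1; ring
  apply Complex.ext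
  · rw [Complex.add_re, pt_re, pt_re, pt_re, e1, e2, Real.sin_add, Real.sin_sub]; ring
  · rw [Complex.add_im, pt_im, pt_im, pt_im, e3, e4, Real.cos_add, Real.cos_sub]; ring

/-- A point which covers `[g, d]`. -/
theorem leaf_U {b g d : ℝ} {y : ℂ} (hb0 : 0 < b) (hb1 : b ≤ π / 6)
    (hcov : ∀ t ∈ Icc g d, dist (pt (1 / Real.sin b) t) y ≤ 1 / Real.sin b - 1)
    (hm : 0 ≤ d - g - π / 2 + b) :
    d - g - π / 2 + b + (1 - Real.tan (b / 2)) ≤ dt (pt 1 (g + π / 2)) y := by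
  have hpi := Real.pi_pos
  set z := d - g - π / 2 + b with hz
  have hsoft : ∀ t ∈ Icc g d, 1 ≤ dt (pt 1 t) y := fun t ht => by
    have := hb_le_dt (w := pt 1 t) (hcov t ht)
    rwa [hb_soft b t 1 zero_le_one] at this
  have hhard : 1 - Real.tan (b / 2) ≤ dt (pt 1 (d + b)) y := by
    have := hb_le_dt (w := pt 1 (d + b)) (hcov d ⟨by linarith, le_rfl⟩)
    rwa [hb_hard hb0 hb1 d 1 zero_le_one, one_mul] at this
  have hder : ∀ v : ℝ, HasDerivAt (fun v : ℝ => dt (pt 1 (g + π / 2 + v)) y + v)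
      (-(dt (pt 1 (g + v)) y) + 1) v := by
    intro v
    have h1 : HasDerivAt (fun v : ℝ => g + π / 2 + v) 1 v := (hasDerivAt_id v).const_add _
    have h2 := (h1.cos.mul_const y.re).add (h1.sin.mul_const y.im)
    have h3 := h2.add (hasDerivAt_id v)
    have e1 : Real.sin (g + π / 2 + v) = Real.cos (g + v) := by
      rw [← Real.sin_add_pi_div_two]; congr 1; ring
    have e2 : Real.cos (g + π / 2 + v) = -Real.sin (g + v) := by
      rw [← Real.cos_add_pi_div_two]; congr 1; ring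
    refine (h3.congr_deriv ?_).congr_of_eventuallyEq (Filter.Eventually.of_forall fun x => ?_)
    · simp only [dt, pt_re, pt_im, e1, e2]; ring
    · simp [dt, pt_re, pt_im]
  have hanti : AntitoneOn (fun v : ℝ => dt (pt 1 (g + π / 2 + v)) y + v) (Icc 0 z) := by
    refine antitoneOn_of_deriv_nonpos (convex_Icc 0 z)
      (fun v _ => (hder v).continuousAt.continuousWithinAt)
      (fun v _ => (hder v).differentiableAt.differentiableWithinAt) fun v hv => ?_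
    rw [interior_Icc] at hv
    rw [(hder v).deriv]
    have := hsoft (g + v) ⟨by linarith [hv.1], by linarith [hv.2]⟩
    linarith
  have h1 := hanti (left_mem_Icc.2 hm) (right_mem_Icc.2 hm) hm
  simp only [add_zero] at h1
  have e : g + π / 2 + z = d + b := by rw [hz]; ring
  rw [e] at h1
  linarith

theorem leaf_F {b g d σ : ℝ} {y : ℂ} (hb0 : 0 < b) (hb1 : b ≤ π / 6) (hσ0 : 0 ≤ σ)
    (hσ : σ ≤ π / 6) (hm : π / 2 - b - σ ≤ d - g)
    (hcov : ∀ t ∈ Icc g d, dist (pt (1 / Real.sin b) t) y ≤ 1 / Real.sin b - 1) :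
    vF b (d - g) σ ≤ dt (pt 1 (g + π / 2 - σ)) y := by
  have hpi := Real.pi_pos
  rcases le_or_gt (d - g - π / 2 + b) σ with h | h
  · obtain ⟨s₁, s₂, w₁, w₂, h1, h2, h3, -, -, -, h7, h8⟩ :=
      slant hb0 hb1 hσ0 hσ (by linarith) h
    have a1 := hb_le_dt (w := w₁) (hcov s₁ ⟨h1, h2.trans h3⟩)
    have a2 := hb_le_dt (w := w₂) (hcov s₂ ⟨h1.trans h2, h3⟩)
    rw [h7, dt_add_left]
    linarith
  · have h1 := leaf_U (g := g + σ) hb0 hb1 (fun t ht => hcov t ⟨by linarith [ht.1], ht.2⟩)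
      (by linarith)
    have h2 : 2 * Real.sin σ ≤ dt (pt (2 * Real.sin σ) g) y := by
      have h3 := hb_le_dt (w := pt (2 * Real.sin σ) g) (hcov g ⟨le_rfl, by linarith⟩)
      rwa [hb_soft b g _ (by
        have := Real.sin_nonneg_of_nonneg_of_le_pi hσ0 (by linarith)
        positivity)] at h3
    rw [← split_chord, dt_add_left, vF_eq]
    have h4 := I7' hσ0 hσ h.le (t_lower hb0 hb1)
    have e : g + σ + π / 2 = g + π / 2 + σ := by ring
    rw [e] at h1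
    linarith

theorem C_leaf {b x y v : ℝ} {w z : ℂ} (hb0 : 0 < b) (hb1 : b ≤ π / 6)
    (hcov : ∀ t ∈ Icc x y, dist (pt (1 / Real.sin b) t) z ≤ 1 / Real.sin b - 1)
    (h : C b x y w v) : v ≤ dt w z := by
  have hpi := Real.pi_pos
  rcases h with ⟨h1, h2⟩ | ⟨s₁, s₂, w₁, w₂, h1, h2, h3, -, -, -, h7, h8⟩ |
    ⟨g, d, σ, h1, h2, h3, h4, h5, h6, h7, h8⟩ | ⟨g, d, σ, h1, h2, h3, h4, h5, h6, h7, h8⟩
  · rw [h1]; simpa [dt] using h2
  · have a1 := hb_le_dt (w := w₁) (hcov s₁ ⟨h1, h2.trans h3⟩)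
    have a2 := hb_le_dt (w := w₂) (hcov s₂ ⟨h1.trans h2, h3⟩)
    rw [h7, dt_add_left]
    linarith
  · rw [h7]
    exact h8.trans (leaf_F hb0 hb1 h3 h4 h5 fun t ht => hcov t ⟨h1.trans ht.1, ht.2.trans h2⟩)
  · have h9 := leaf_F (g := -d) (d := -g) (y := (starRingEnd ℂ) z) hb0 hb1 h3 h4 (by linarith)
      (fun t ht => by
        have := hcov (-t) ⟨by linarith [ht.2], by linarith [ht.1]⟩
        rw [← neg_neg t, ← conj_pt, dist_eq_norm, ← map_sub, Complex.norm_conj, ← dist_eq_norm]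
        exact this)
    have e1 : pt 1 (-d + π / 2 - σ) = (starRingEnd ℂ) (pt 1 (d - π / 2 + σ)) := by
      rw [conj_pt]; congr 1; ring
    rw [e1, dt_conj, neg_sub_neg] at h9
    rw [h7]
    exact h8.trans h9

theorem vF_le {b m σ : ℝ} (hb0 : 0 < b) (hb1 : b ≤ π / 6) (hσ0 : 0 ≤ σ) (hσ : σ ≤ π / 6)
    (hm : π / 2 - b - σ ≤ m) (hm' : m ≤ π - 2 * σ) : vF b m σ ≤ 7 := by
  have hpi := Real.pi_pos
  have hpi' := Real.pi_lt_d2
  have h1 := cb_le hb0 hb1
  have h2 := sqrt3_bounds.2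
  have h3 := Real.sin_le_one σ
  have h4 := Real.cos_le_one σ
  have h6 := t_lower hb0 hb1
  have h5 : 0 ≤ m - π / 2 + cb b := by
    unfold cb; linarith
  unfold vF
  nlinarith

theorem C_bdd {b x y v : ℝ} {w : ℂ} (hb0 : 0 < b) (hb1 : b ≤ π / 6) (h : C b x y w v) :
    v ≤ 7 := by
  rcases h with ⟨h1, h2⟩ | ⟨s₁, s₂, w₁, w₂, h1, h2, h3, h4, h5, -, h7, h8⟩ |
    ⟨g, d, σ, h1, h2, h3, h4, h5, h6, h7, h8⟩ | ⟨g, d, σ, h1, h2, h3, h4, h5, h6, h7, h8⟩
  · linarith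
  · linarith [hb_le hb0 hb1 s₁ w₁, hb_le hb0 hb1 s₂ w₂]
  · exact h8.trans (vF_le hb0 hb1 h3 h4 h5 h6)
  · exact h8.trans (vF_le hb0 hb1 h3 h4 h5 h6)

theorem C_norm {b x y v : ℝ} {w : ℂ} (h : C b x y w v) : ‖w‖ ≤ 1 := by
  rcases h with ⟨h1, h2⟩ | ⟨s₁, s₂, w₁, w₂, h1, h2, h3, h4, h5, h6, h7, h8⟩ |
    ⟨g, d, σ, h1, h2, h3, h4, h5, h6, h7, h8⟩ | ⟨g, d, σ, h1, h2, h3, h4, h5, h6, h7, h8⟩
  · rw [h1, norm_zero]; exact zero_le_one
  · rwa [h7]
  · rw [h7, norm_pt_one]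
  · rw [h7, norm_pt_one]

theorem pt_one_two_pi : pt 1 (2 * π) = 1 := by
  apply Complex.ext
  · rw [pt_re, Real.cos_two_pi]; simp
  · rw [pt_im, Real.sin_two_pi]; simp

theorem C_per (b x y v : ℝ) (w : ℂ) : C b (x + 2 * π) (y + 2 * π) w v ↔ C b x y w v := by
  constructor
  · intro h
    have h1 := h.rot (-(2 * π))
    rwa [add_neg_cancel_right, add_neg_cancel_right, ← conj_pt, pt_one_two_pi, map_one,
      one_mul] at h1
  · intro h
    have h1 := h.rot (2 * π)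
    rwa [pt_one_two_pi, one_mul] at h1

end Pool.Agent.W_8c5d11_h65
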