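import Pool.Agent.W_8c5d11_v22.TopC

/-!
MP_8c5d11_gt: three parts with gaps between `γ` and `π`, with a margin `δ`.
-/

open Set Metric
open scoped Real

namespace Pool.Agent.W_8c5d11_v22

variable {c : ℝ} {C : ℝ → ℝ → ℂ → ℝ → Prop}

/-- the small gap -/
theorem Feats.smallMg (h : Feats c C) {a b e δ : ℝ} (h1 : b - a < π) (h2 : e - b < π)
    (h3 : e < a + 2 * π) (h4 : a + 2 * π - e ≤ π / 3)
    (hδ : δ ≤ 2 * (Real.tan ((a + 2 * π - e) / 2) - (a + 2 * π - e) / 2)) :
    TopP C (π + 2 * c + δ) a b e := by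
  have hpi := Real.pi_pos
  set k := (a + 2 * π - e) / 2 with hk
  have hk0 : 0 < k := by linarith
  have hk1 : k ≤ π / 6 := by linarith
  have hck : 0 < Real.cos k := Real.cos_pos_of_mem_Ioo ⟨by linarith, by linarith⟩
  have htan : k ≤ Real.tan k := Real.le_tan hk0.le (by linarith)
  have hsin : Real.sin k ≤ 1 / 2 := by
    rw [← Real.sin_pi_div_six]
    exact Real.sin_le_sin_of_le_of_le_pi_div_two (by linarith) (by linarith) hk1
  have hsin0 : 0 < Real.sin k := Real.sin_pos_of_pos_of_lt_pi hk0 (by linarith)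
  have htan1 : Real.tan k ≤ 1 := by
    rw [Real.tan_eq_sin_div_cos, div_le_one hck]
    have := Real.sin_sq_add_cos_sq k
    nlinarith
  have hw : pt 1 (a + π / 2 - 0) + pt 1 (e - π / 2 + 0) +
      ((Real.tan k : ℂ) * pt 1 e + (Real.tan k : ℂ) * pt 1 (a + 2 * π)) = 0 := by
    have e1 : e = (e + k) - k := by ring
    have e2 : a + 2 * π = (e + k) + k := by rw [hk]; ring
    have e3 : a + π / 2 - 0 = ((e + k) + k + π / 2) - 2 * π := by rw [hk]; ring
    have ht : Real.tan k * Real.cos k = Real.sin k := Real.tan_mul_cos hck.ne'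
    apply Complex.ext
    · simp only [Complex.add_re, Complex.re_ofReal_mul, pt_re, one_mul, Complex.zero_re]
      rw [e3, e2, Real.cos_sub_two_pi, Real.cos_add_pi_div_two, add_zero, Real.cos_sub_pi_div_two]
      conv_lhs => rw [show Real.sin e = Real.sin (e + k - k) by ring_nf,
        show Real.cos e = Real.cos (e + k - k) by ring_nf]
      rw [Real.sin_add (e + k) k, Real.sin_sub (e + k) k, Real.cos_sub (e + k) k,
        Real.cos_add (e + k) k]
      linear_combination (2 * Real.cos (e + k)) * ht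
    · simp only [Complex.add_im, Complex.im_ofReal_mul, pt_im, one_mul, Complex.zero_im]
      rw [e3, e2, Real.sin_sub_two_pi, Real.sin_add_pi_div_two, add_zero, Real.sin_sub_pi_div_two]
      conv_lhs => rw [show Real.sin e = Real.sin (e + k - k) by ring_nf,
        show Real.cos e = Real.cos (e + k - k) by ring_nf]
      rw [Real.sin_add (e + k) k, Real.sin_sub (e + k) k, Real.cos_sub (e + k) k,
        Real.cos_add (e + k) k]
      linear_combination (2 * Real.sin (e + k)) * ht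
  have hn : ‖(Real.tan k : ℂ) * pt 1 e + (Real.tan k : ℂ) * pt 1 (a + 2 * π)‖ ≤ 1 := by
    have e1 : (Real.tan k : ℂ) * pt 1 e + (Real.tan k : ℂ) * pt 1 (a + 2 * π) =
        ((2 * Real.sin k : ℝ) : ℂ) * pt 1 (e + k) := by
      have e2 := pt_comb e k k
      have e3 : e + (k + k) = a + 2 * π := by rw [hk]; ring
      rw [e3] at e2
      have e4 : Real.sin (k + k) = 2 * Real.sin k * Real.cos k := by rw [← two_mul, Real.sin_two_mul]
      rw [e4] at e2
      have hc' : (Real.cos k : ℂ) ≠ 0 := Complex.ofReal_ne_zero.2 hck.ne'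
      rw [Real.tan_eq_sin_div_cos]
      push_cast at e2 ⊢
      have hc'' : Complex.cos (k : ℂ) ≠ 0 := by
        rw [← Complex.ofReal_cos]; exact hc'
      field_simp
      linear_combination e2
    rw [e1, norm_mul, norm_pt zero_le_one, mul_one, Complex.norm_of_nonneg (by linarith)]
    linarith
  refine ⟨_, _, _, _, _, _, h.F a b 0 le_rfl (by linarith) (by linarith) (by linarith)
    (by linarith), h.F' b e 0 le_rfl (by linarith) (by linarith) (by linarith) (by linarith),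
    h.T e (a + 2 * π) (Real.tan k) (Real.tan k) h3 (by linarith) (by linarith) htan1
    (by linarith) htan1 hn, hw, ?_⟩
  rw [Real.sin_zero, Real.cos_zero]
  linarith

/-- three unit certificates at angles of `2π/3` -/
theorem Feats.unitMg (h : Feats c C) {H a b e x y p q : ℝ} (hx0 : 0 ≤ x) (hx : x ≤ π / 6) (hy0 : 0 ≤ y)
    (hy : y ≤ π / 6) (h1 : π / 2 - x ≤ b - a) (h2 : b - a ≤ π - 2 * x) (h3 : b - a < π)
    (h4 : π / 2 - y ≤ e - b) (h5 : e - b ≤ π - 2 * y) (h6 : e - b < π)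
    (hp : e + p = a + π / 2 - x + 4 * π / 3) (hq : a + 2 * π = e + (p + q))
    (hw2 : e - π / 2 + y = a + π / 2 - x + 2 * π / 3) (hp0 : 0 < p) (hp1 : p ≤ π / 3)
    (hq0 : 0 < q) (hq1 : q ≤ π / 3)
    (hv : H ≤ Real.sin x + (b - a - π / 2 + c) * Real.cos x +
      (Real.sin y + (e - b - π / 2 + c) * Real.cos y) +
      Real.cos ((p - q) / 2) / Real.cos ((p + q) / 2)) : TopP C H a b e := by
  have hpi := Real.pi_pos
  refine ⟨_, _, _, _, _, _, h.F a b x hx0 hx h1 h2 (by linarith),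
    h.F' b e y hy0 hy h4 h5 (by linarith), h.two hq hp0.le hq0.le (by linarith) (by linarith)
    (sin_le_sin_add hp0.le hq0.le hq1 (by linarith))
    (by rw [add_comm p q]; exact sin_le_sin_add hq0.le hp0.le hp1 (by linarith)) rfl, ?_, hv⟩
  rw [hp, hw2]
  exact pt_three _

/-- **Three gaps, the first largest, the last smallest.** -/
theorem Feats.sortedMg (h : Feats c C) {δ : ℝ}
    (hT : ∀ x y, 0 ≤ x → x ≤ π / 6 → 0 ≤ y → y ≤ π / 6 → δ ≤ fT c x y) {a b e : ℝ}
    (h1 : b - a < π) (h3 : e < a + 2 * π) (h12 : e - b ≤ b - a)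
    (h23 : a + 2 * π - e ≤ e - b)
    (hδ : a + 2 * π - e ≤ π / 3 →
      δ ≤ 2 * (Real.tan ((a + 2 * π - e) / 2) - (a + 2 * π - e) / 2)) :
    TopP C (π + 2 * c + δ) a b e := by
  have hpi := Real.pi_pos
  rcases le_total (a + 2 * π - e) (π / 3) with hs | hs
  · exact h.smallMg h1 (by linarith) h3 hs (hδ hs)
  rcases le_total (e - b) (2 * π / 3) with hm | hm
  · -- M
    set μ := π / 2 - (b - a) / 2 with hμ
    set ν := 7 * π / 6 - (b - a) / 2 - (e - b) with hν
    have a1 : 0 ≤ μ := by linarith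
    have a2 : μ ≤ π / 6 := by linarith
    have a3 : μ ≤ ν := by linarith
    have a4 : ν ≤ π / 6 := by linarith
    refine h.unitMg (x := μ) (y := ν) (p := π / 6 + ν) (q := π / 6 + μ) a1 a2 (by linarith) a4
      (by linarith) (by linarith) h1 (by linarith) (by linarith) (by linarith) (by linarith)
      (by linarith) (by linarith) (by linarith) (by linarith) (by linarith) (by linarith) ?_
    have e1 := hT μ ν a1 a2 (by linarith) a4
    have e2 : Real.cos ν ≤ Real.cos μ :=
      Real.cos_le_cos_of_nonneg_of_le_pi a1 (by linarith) a3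
    have e3 : 0 ≤ (π / 6 - μ) * (Real.cos μ - Real.cos ν) :=
      mul_nonneg (by linarith) (by linarith)
    have e4 : (π / 6 + ν - (π / 6 + μ)) / 2 = -((μ - ν) / 2) := by ring
    have e5 : (π / 6 + ν + (π / 6 + μ)) / 2 = π / 6 + (μ + ν) / 2 := by ring
    have e6 : b - a = π - 2 * μ := by rw [hμ]; ring
    have e7 : e - b = 2 * π / 3 + μ - ν := by rw [hν, hμ]; ring
    rw [e4, e5, Real.cos_neg, e6, e7]
    unfold fT at e1
    linarith
  rcases le_total (b - a) (5 * π / 6) with hb | hb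
  · -- T
    set x := 5 * π / 6 - (b - a) with hx
    set y := 5 * π / 6 - (e - b) with hy
    have a1 : 0 ≤ x := by linarith
    have a2 : x ≤ π / 6 := by linarith
    have a3 : 0 ≤ y := by linarith
    have a4 : y ≤ π / 6 := by linarith
    refine h.unitMg (x := x) (y := y) (p := π / 6 + y) (q := π / 6 + x) a1 a2 a3 a4
      (by linarith) (by linarith) h1 (by linarith) (by linarith) (by linarith) (by linarith)
      (by linarith) (by linarith) (by linarith) (by linarith) (by linarith) (by linarith) ?_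
    have e1 := hT x y a1 a2 a3 a4
    have e4 : (π / 6 + y - (π / 6 + x)) / 2 = -((x - y) / 2) := by ring
    have e5 : (π / 6 + y + (π / 6 + x)) / 2 = π / 6 + (x + y) / 2 := by ring
    have e6 : b - a = 5 * π / 6 - x := by rw [hx]; ring
    have e7 : e - b = 5 * π / 6 - y := by rw [hy]; ring
    rw [e4, e5, Real.cos_neg, e6, e7]
    unfold fT at e1
    linarith
  · -- S
    set φ := a + 2 * π - e - π / 3 with hφ
    have a1 : 0 ≤ φ := by linarith
    have a2 : φ ≤ π / 6 := by linarith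
    refine h.unitMg (x := 0) (y := φ) (p := π / 6 + φ) (q := π / 6) le_rfl (by linarith) a1 a2
      (by linarith) (by linarith) h1 (by linarith) (by linarith) (by linarith) (by linarith)
      (by linarith) (by linarith) (by linarith) (by linarith) (by linarith) (by linarith) ?_
    have e1 := hT 0 φ le_rfl (by linarith) a1 a2
    have e2 : Real.cos φ ≤ 1 := Real.cos_le_one φ
    have e4 : (π / 6 + φ - π / 6) / 2 = -((0 - φ) / 2) := by ring
    have e5 : (π / 6 + φ + π / 6) / 2 = π / 6 + (0 + φ) / 2 := by ring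
    have e3 : 0 ≤ (b - a - 5 * π / 6) * (1 - Real.cos φ) :=
      mul_nonneg (by linarith) (by linarith)
    have e7 : e - b = 5 * π / 3 - φ - (b - a) := by rw [hφ]; ring
    rw [e4, e5, Real.cos_neg, e7, Real.sin_zero, Real.cos_zero]
    unfold fT at e1
    rw [Real.sin_zero, Real.cos_zero] at e1
    linarith

/-- **Three gaps smaller than `π`.** -/
theorem Feats.topMg (h : Feats c C) {δ γ : ℝ}
    (hδ : ∀ k, γ / 2 ≤ k → k ≤ π / 6 → δ ≤ 2 * (Real.tan k - k))
    (hper : ∀ a b w v, C (a + 2 * π) (b + 2 * π) w v ↔ C a b w v)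
    (hT : ∀ x y, 0 ≤ x → x ≤ π / 6 → 0 ≤ y → y ≤ π / 6 → δ ≤ fT c x y) :
    ∀ a b e, a < b → b < e → e < a + 2 * π → b < a + π → e < b + π → a + π < e →
      γ ≤ b - a → γ ≤ e - b → γ ≤ a + 2 * π - e → TopP C (π + 2 * c + δ) a b e := by
  have key : ∀ a b e, a < b → b < e → e < a + 2 * π → b < a + π → e < b + π → a + π < e →
      γ ≤ b - a → γ ≤ e - b → γ ≤ a + 2 * π - e →
      e - b ≤ b - a → a + 2 * π - e ≤ b - a → TopP C (π + 2 * c + δ) a b e := by
    intro a b e h1 h2 h3 h4 h5 h6 g1 g2 g3 h7 h8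
    rcases le_total (a + 2 * π - e) (e - b) with h9 | h9
    · exact h.sortedMg hT (by linarith) h3 h7 h9
        fun h10 => hδ _ (by linarith) (by linarith)
    · refine TopP.rot hper (TopP.mir (h.mir.sortedMg hT ?_ ?_ ?_ ?_
        fun h10 => hδ _ (by linarith) (by linarith))) <;> linarith
  intro a b e h1 h2 h3 h4 h5 h6 g1 g2 g3
  by_cases c1 : e - b ≤ b - a ∧ a + 2 * π - e ≤ b - a
  · exact key a b e h1 h2 h3 h4 h5 h6 g1 g2 g3 c1.1 c1.2
  by_cases c2 : a + 2 * π - e ≤ e - b ∧ b - a ≤ e - b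
  · refine TopP.rot hper (key b e (a + 2 * π) ?_ ?_ ?_ ?_ ?_ ?_ ?_ ?_ ?_ ?_ ?_) <;>
      linarith [c2.1, c2.2]
  · have c3 : b - a ≤ a + 2 * π - e ∧ e - b ≤ a + 2 * π - e := by
      rcases le_total (e - b) (b - a) with h7 | h7
      · have : ¬ a + 2 * π - e ≤ b - a := fun h8 => c1 ⟨h7, h8⟩
        constructor <;> linarith
      · have : ¬ a + 2 * π - e ≤ e - b := fun h8 => c2 ⟨h8, h7⟩
        constructor <;> linarith
    refine TopP.rot hper (TopP.rot hper (key e (a + 2 * π) (b + 2 * π) ?_ ?_ ?_ ?_ ?_ ?_ ?_ ?_ ?_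
      ?_ ?_)) <;>
      linarith [c3.1, c3.2]

/-- `2 tan k - 2 k ≥ 1 / 250` for `1 / 4 ≤ k ≤ π / 6` -/
theorem tan_margin {k : ℝ} (h1 : 1 / 2 / 2 ≤ k) (h2 : k ≤ π / 6) :
    1 / 250 ≤ 2 * (Real.tan k - k) := by
  have hpi := Real.pi_lt_d2
  have hk : k ≤ 0.525 := by linarith
  have hk1 : 0.25 ≤ k := by linarith
  have hc : 0 < Real.cos k := Real.cos_pos_of_mem_Ioo ⟨by linarith, by linarith⟩
  have ht : Real.tan k * Real.cos k = Real.sin k := Real.tan_mul_cos hc.ne'
  have e1 := abs_le.1 (Real.sin_bound (x := k) (by rw [abs_of_nonneg (by linarith)]; linarith))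
  have e2 := abs_le.1 (Real.cos_bound (x := k) (by rw [abs_of_nonneg (by linarith)]; linarith))
  rw [abs_of_nonneg (by linarith : (0 : ℝ) ≤ k)] at e1 e2
  have e3 := e1.1
  have e4 := e2.2
  have key : (k + 1 / 500) * Real.cos k ≤ Real.sin k := by
    have a1 : (k + 1 / 500) * Real.cos k ≤ (k + 1 / 500) * (1 - k ^ 2 / 2 + k ^ 4 * (5 / 96)) :=
      mul_le_mul_of_nonneg_left (by linarith) (by linarith)
    have a2 : (k + 1 / 500) * (1 - k ^ 2 / 2 + k ^ 4 * (5 / 96)) ≤
        k - k ^ 3 / 6 - k ^ 5 / 100 := by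
      have b2 : 0.0625 ≤ k ^ 2 := by nlinarith
      have b3 : 0.015625 ≤ k ^ 3 := by nlinarith
      have b4 : k ^ 4 ≤ 0.525 * k ^ 3 := by
        have : 0 ≤ k ^ 3 := by positivity
        nlinarith
      have b5 : k ^ 5 ≤ 0.28 * k ^ 3 := by
        have h0 : 0 ≤ k ^ 3 := by positivity
        have h1 : k ^ 2 ≤ 0.28 := by nlinarith
        nlinarith
      nlinarith
    linarith
  have : k + 1 / 500 ≤ Real.tan k := by
    rw [← ht] at key
    exact le_of_mul_le_mul_right key hc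
  linarith

end Pool.Agent.W_8c5d11_v22

namespace Pool.Agent.W_8c5d11_h65

open Pool.Agent.W_8c5d11_v22

/-- the three part field with margin `1 / 250`, for gaps at least `1 / 2` -/
theorem top_C_mg {b : ℝ} (hb0 : 0 < b)
    (hT : ∀ x y, 0 ≤ x → x ≤ π / 6 → 0 ≤ y → y ≤ π / 6 → 1 / 250 ≤ fT (cb b) x y) :
    ∀ x y z, x < y → y < z → z < x + 2 * π → y < x + π → z < y + π → x + π < z →
      1 / 2 ≤ y - x → 1 / 2 ≤ z - y → 1 / 2 ≤ x + 2 * π - z →
      ∃ w₁ v₁ w₂ v₂ w₃ v₃, C b x y w₁ v₁ ∧ C b y z w₂ v₂ ∧ C b z (x + 2 * π) w₃ v₃ ∧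
        w₁ + w₂ + w₃ = 0 ∧ π + 2 * cb b + 1 / 250 ≤ v₁ + v₂ + v₃ :=
  fun x y z h1 h2 h3 h4 h5 h6 g1 g2 g3 =>
    (feats_C hb0).topMg (γ := 1 / 2) (fun _ h h' => tan_margin h h')
      (fun a b' w v => per_C b a b' w v) hT x y z h1 h2 h3 h4 h5 h6 g1 g2 g3

end Pool.Agent.W_8c5d11_h65
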