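import Pool.Agent.W_8c5d11_h65.Split

/-!
MP_8c5d11_gt, uniqueness: the splits with a definite margin.
-/

set_option autoImplicit false

open Set
open scoped Real

namespace Pool.Agent.W_8c5d11_h65

open Pool.Agent.W_8c5d11_v22

/-- The elementary inequalities, with margins. -/
structure IneqsM : Prop where
  Kl : ∀ s y W : ℝ, 0 ≤ y → y ≤ s → s ≤ π / 6 → 0 ≤ W → 1 / 250 ≤ Kf s y W
  Kr : ∀ s y W : ℝ, 0 ≤ s → s ≤ y → y ≤ π / 6 → W ≤ π / 6 - s + (π / 6 + Real.sqrt 3 - 1) →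
    1 / 250 ≤ Kf s y W
  I4 : ∀ s c : ℝ, 0 ≤ s → s ≤ π / 6 → 1 ≤ c →
    1 / 250 ≤ 1 + π / 6 - s + c - Real.sin s - (π / 3 - s + c) * Real.cos s
  I5a : ∀ s e c : ℝ, 0 ≤ s → s ≤ e → e ≤ π / 6 → 1 ≤ c →
    0 ≤ Real.sin e - Real.sin s - (1 - Real.cos e) * (π / 6) +
      (π / 2 - e - s + c) * (1 - Real.cos s)
  I5bm : ∀ s e c : ℝ, 0 ≤ s → s ≤ e → e ≤ π / 6 → 1 ≤ c →
    e ^ 2 / 10 ≤ 2 * Real.sin e - e - Real.sin s + (π / 2 - e - s + c) * (1 - Real.cos s)
  I8 : ∀ b v s : ℝ, 0 < b → b ≤ π / 6 → 0 ≤ v → v ≤ b → 0 ≤ s → s ≤ π / 6 →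
    (1 - Real.cos v) / Real.sin b ≤ v * Real.cos s
  I9 : ∀ s y k : ℝ, 0 ≤ s → s ≤ π / 6 → 0 ≤ y → y ≤ π / 6 → 0 ≤ k → k ≤ π / 6 - s →
    Real.cos ((y + s) / 2) / Real.cos (π / 6 + (y - s) / 2) - (π / 6 - s) * Real.cos s ≤
      Real.cos ((π / 6 + y - k) / 2) / Real.cos ((π / 6 + y + k) / 2) - k * Real.cos s
  I7m : ∀ z σ t : ℝ, 0 ≤ σ → σ ≤ π / 6 → σ ≤ z → 0.73 < t →
    Real.sin σ + (z + t) * Real.cos σ + σ ^ 2 / 10 ≤ 2 * Real.sin σ + (z - σ + t)
  slantM : ∀ z σ t : ℝ, 0 ≤ σ → σ ≤ π / 6 → -σ ≤ z → z ≤ σ → 0.73 < t →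
    Real.sin σ + (z + t) * Real.cos σ + z ^ 2 / 10 ≤
      Real.sin (z + σ) / Real.cos z + Real.cos σ / Real.cos z * t
  tan_m : ∀ x : ℝ, 1 / 5 ≤ x → x ≤ π / 6 → 11 / 5000 ≤ Real.tan x - x

theorem IneqsM.toIneqs (I : IneqsM) : Ineqs where
  Kl s y W h1 h2 h3 h4 := by linarith [I.Kl s y W h1 h2 h3 h4]
  Kr s y W h1 h2 h3 h4 := by linarith [I.Kr s y W h1 h2 h3 h4]
  I4 s c h1 h2 h3 := by linarith [I.I4 s c h1 h2 h3]
  I5a := I.I5a
  I5b s e c h1 h2 h3 h4 := by linarith [I.I5bm s e c h1 h2 h3 h4, sq_nonneg e]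
  I8 := I.I8
  I9 := I.I9

variable {b m σ s : ℝ}

theorem R1m (I : IneqsM) (hb0 : 0 < b) (hb1 : b ≤ π / 6) (hσ0 : 0 ≤ σ) (hσ : σ ≤ π / 6)
    (hz : m - π / 2 + b ≤ σ) (hz' : 1 / 4 < m - π / 2 + b) :
    Spl b 0 s m (pt 1 (π / 2 - σ)) (vF b m σ + 1 / 250) := by
  have hpi := Real.pi_pos
  apply split_T
  obtain ⟨z, hzd⟩ : ∃ z, z = m - π / 2 + b := ⟨_, rfl⟩
  rw [← hzd] at hz hz'
  have hcz : 0 < Real.cos z := cos_pos_small (by linarith) (by linarith)
  have hcs : 0 < Real.cos σ := cos_pos_small (by linarith) hσ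
  have hspq : Real.sin (π / 2 - σ + (z + σ)) = Real.cos z := by
    rw [← Real.cos_pi_div_two_sub, ← Real.cos_neg]; congr 1; ring
  have hsp : Real.sin (π / 2 - σ) = Real.cos σ := Real.sin_pi_div_two_sub σ
  set A := Real.sin (z + σ) / Real.cos z with hA
  set B := Real.cos σ / Real.cos z with hB
  have hs0 : 0 ≤ Real.sin (z + σ) := Real.sin_nonneg_of_nonneg_of_le_pi (by linarith) (by linarith)
  have hA0 : 0 ≤ A := by positivity
  have hB0 : 0 ≤ B := by positivity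
  have h3 : Real.cos σ ≤ Real.cos z :=
    Real.cos_le_cos_of_nonneg_of_le_pi (by linarith) (by linarith) hz
  have hB1 : B ≤ 1 := by rw [hB, div_le_one hcz]; exact h3
  have hA1 : A ≤ 1 := by
    rw [hA, div_le_one hcz]
    have e : Real.sin (z + σ) ≤ Real.sin (2 * σ) :=
      Real.sin_le_sin_of_le_of_le_pi_div_two (by linarith) (by linarith) (by linarith)
    have e2 : Real.sin σ ≤ 1 / 2 := by
      rw [← Real.sin_pi_div_six]
      exact Real.sin_le_sin_of_le_of_le_pi_div_two (by linarith) (by linarith) hσ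
    rw [Real.sin_two_mul] at e
    nlinarith
  have hc := pt_combo (A := A) (B := B) (θ := π / 2 - σ) (s₁ := 0) (s₂ := m + b) (κ := 1)
    (p := π / 2 - σ) (q := z + σ) (by ring) (by rw [hzd]; ring) (by rw [hspq]; exact hcz.ne')
    (by rw [hspq, one_mul]) (by rw [hspq, one_mul, hsp])
  refine ⟨0, m, pt A 0, pt B (m + b), le_rfl, by linarith, le_rfl, ?_, ?_, ?_, hc.symm, ?_⟩
  · rwa [norm_pt hA0]
  · rwa [norm_pt hB0]
  · rw [hc, norm_pt_one]
  · rw [hb_soft b 0 A hA0, hb_hard hb0 hb1 m B hB0, vF_eq, ← hzd]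
    have h4 := I.slantM z σ (1 - Real.tan (b / 2)) hσ0 hσ (by linarith) hz (t_lower hb0 hb1)
    nlinarith

theorem R2m (I : IneqsM) (hb0 : 0 < b) (hb1 : b ≤ π / 6) (hσ : σ ≤ π / 6)
    (hm' : m ≤ π - 2 * σ) (hz : σ < m - π / 2 + b) (hs0 : 0 < s) (hs : s ≤ σ) (hσ2 : 2 / 5 ≤ σ) :
    Spl b 0 s m (pt 1 (π / 2 - σ)) (vF b m σ + 1 / 250) := by
  have hpi := Real.pi_pos
  refine ⟨pt (2 * Real.sin σ) 0, 2 * Real.sin σ, pt 1 (0 + π / 2 + σ), vF b (m - σ) 0,
    C.soft le_rfl hs0.le (by linarith [sin_nonneg' (x := σ) (by linarith) hσ])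
      (two_sin_le_one hσ (by linarith)), ?_, ?_, ?_⟩
  · have := C.main (b := b) (x := s) (y := m) (g := σ) (d := m) (σ := 0) hs le_rfl le_rfl
      (by linarith) (by linarith) (by linarith)
    convert this using 2
    ring
  · rw [split_chord, zero_add]
  · have h := I.I7m _ _ _ (by linarith) hσ hz.le (t_lower hb0 hb1)
    rw [vF_eq, vF_eq, Real.sin_zero, Real.cos_zero]
    nlinarith

theorem R3m (I : IneqsM) (hb0 : 0 < b) (hb1 : b ≤ π / 6) (hσ0 : 0 ≤ σ) (hσ : σ ≤ π / 6)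
    (hm' : m ≤ π - 2 * σ) (hs : σ < s) (hsz : s ≤ m - π / 2 + b) (hs3 : s ≤ π / 3 - σ)
    (hs2 : 2 / 5 ≤ s) :
    Spl b 0 s m (pt 1 (π / 2 - σ)) (vF b m σ + 1 / 250) := by
  have hpi := Real.pi_pos
  have hcs : Real.cos (s / 2) ≠ 0 :=
    (Real.cos_pos_of_mem_Ioo ⟨by linarith, by linarith⟩).ne'
  have hq := sin_nonneg' (x := (s + σ) / 2) (by linarith) (by linarith)
  have hq1 := two_sin_le_one (x := (s + σ) / 2) (by linarith) (by linarith)
  refine ⟨pt (2 * Real.sin ((s + σ) / 2)) ((s - σ) / 2), _, pt 1 (s + π / 2), vF b (m - s) 0,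
    C.two (s₁ := 0) (s₂ := s) (p := (s - σ) / 2) (q := (s + σ) / 2) le_rfl le_rfl (by ring)
      (by ring) (by linarith) (by linarith) (by linarith) (by linarith) (by linarith)
      (by linarith) (by linarith) hq1, ?_, ?_, ?_⟩
  · have := C.main (b := b) (x := s) (y := m) (g := s) (d := m) (σ := 0) le_rfl le_rfl le_rfl
      (by linarith) (by linarith) (by linarith)
    convert this using 2
    ring
  · exact chord (by congr 2; ring) (by ring)
  · rw [chord_value hcs, vF_eq, vF_eq, Real.sin_zero, Real.cos_zero]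
    have h1 := I.tan_m (s / 2) (by linarith) (by linarith)
    have h2 := Real.cos_le_one σ
    have h3 := cos_lower (x := σ) (by linarith) hσ
    have h4 := t_lower hb0 hb1
    nlinarith [mul_nonneg (sub_nonneg.2 h2) (by linarith : (0 : ℝ) ≤ m - π / 2 + b +
      (1 - Real.tan (b / 2)) - s / 2), mul_nonneg (sub_nonneg.2 h1) (by linarith :
      (0 : ℝ) ≤ 1 + Real.cos σ)]

theorem R4m (I : IneqsM) (hb0 : 0 < b) (hb1 : b ≤ π / 6) (hσ0 : 0 ≤ σ) (hσ : σ ≤ π / 6)
    (hz : σ < m - π / 2 + b) (hx : m - π / 2 + b + σ ≤ π / 3)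
    (hs : m - π / 2 + b < s) (hsm : s < m) (hz2 : 2 / 5 ≤ m - π / 2 + b) :
    Spl b 0 s m (pt 1 (π / 2 - σ)) (vF b m σ + 1 / 250) := by
  have hpi := Real.pi_pos
  set z := m - π / 2 + b with hzd
  have hcs : Real.cos (z / 2) ≠ 0 :=
    (Real.cos_pos_of_mem_Ioo ⟨by linarith, by linarith⟩).ne'
  have hq := sin_nonneg' (x := (z + σ) / 2) (by linarith) (by linarith)
  have hq1 := two_sin_le_one (x := (z + σ) / 2) (by linarith) (by linarith)
  refine ⟨pt (2 * Real.sin ((z + σ) / 2)) ((z - σ) / 2), _, pt 1 (m + b), _,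
    C.two (s₁ := 0) (s₂ := z) (p := (z - σ) / 2) (q := (z + σ) / 2) le_rfl hs.le (by ring)
      (by ring) (by linarith) (by linarith) (by linarith) (by linarith) (by linarith)
      (by linarith) (by linarith) hq1, C.hard hb0 hb1 hsm.le le_rfl zero_le_one le_rfl, ?_, ?_⟩
  · exact chord (by congr 2; rw [hzd]; ring) (by rw [hzd]; ring)
  · rw [chord_value hcs, vF_eq, ← hzd]
    have h1 := I.tan_m (z / 2) (by linarith) (by linarith)
    have h2 := Real.cos_le_one σ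
    have h3 := cos_lower (x := σ) (by linarith) hσ
    have h4 := t_lower hb0 hb1
    nlinarith [mul_nonneg (sub_nonneg.2 h2) (by linarith : (0 : ℝ) ≤ z / 2 +
      (1 - Real.tan (b / 2))), mul_nonneg (sub_nonneg.2 h1) (by linarith :
      (0 : ℝ) ≤ 1 + Real.cos σ)]

theorem R5am (I : IneqsM) (hb0 : 0 < b) (hb1 : b ≤ π / 6) (hσ0 : 0 ≤ σ) (hσ : σ ≤ π / 6)
    (hm' : m ≤ π - 2 * σ) (hx : π / 3 < m - π / 2 + b + σ) (hs : π / 3 - σ < s)
    (hs2 : s ≤ π / 2 - σ) :
    Spl b 0 s m (pt 1 (π / 2 - σ)) (vF b m σ + 1 / 250) := by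
  have hpi := Real.pi_pos
  set τ := s - π / 3 + σ with hτ
  have hs' : s = π / 3 - σ + τ := by rw [hτ]; ring
  refine ⟨pt 1 (π / 6 - σ), _, pt 1 (5 * π / 6 - σ), vF b (m - s) τ,
    C.two (s₁ := 0) (s₂ := s) (p := π / 6 - σ) (q := π / 6 + τ) le_rfl le_rfl (by ring)
      (by linarith) (by linarith) (by linarith) (by linarith) (by linarith) (by linarith)
      (by linarith) zero_le_one le_rfl, ?_, big_sum σ, ?_⟩
  · have := C.main (b := b) (x := s) (y := m) (g := s) (d := m) (σ := τ) le_rfl le_rfl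
      (by linarith) (by linarith) (by linarith) (by linarith)
    convert this using 2
    rw [hτ]; ring
  · have hc := cb_gt_one hb0 hb1
    have hc' := cb_le hb0 hb1
    have ht := t_lower hb0 hb1
    have hK : 1 / 250 ≤ Kf σ τ (m + σ - 5 * π / 6 + cb b) := by
      rcases le_total τ σ with h | h
      · exact I.Kl σ τ _ (by linarith) h hσ (by unfold cb; linarith)
      · exact I.Kr σ τ _ hσ0 h (by linarith) (by linarith)
    have f1 : (π / 6 - σ - (π / 6 + τ)) / 2 = -((τ + σ) / 2) := by ring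
    have f2 : (π / 6 - σ + (π / 6 + τ)) / 2 = π / 6 + (τ - σ) / 2 := by ring
    rw [one_mul, f1, f2, Real.cos_neg]
    unfold Kf at hK
    unfold vF
    rw [hs']
    nlinarith [hK]

theorem R5bm (I : IneqsM) (hb0 : 0 < b) (hb1 : b ≤ π / 6) (hσ0 : 0 ≤ σ) (hσ : σ ≤ π / 6)
    (hm' : m ≤ π - 2 * σ) (hx : π / 3 < m - π / 2 + b + σ) (hs : π / 2 - σ ≤ s)
    (hs2 : s ≤ 2 * π / 3 - σ) (hsm : s < m) :
    Spl b 0 s m (pt 1 (π / 2 - σ)) (vF b m σ + 1 / 250) := by
  have hpi := Real.pi_pos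
  set σ' := 2 * π / 3 - σ - s with hσ'
  have hs' : s = 2 * π / 3 - σ - σ' := by rw [hσ']; ring
  have hc := cb_gt_one hb0 hb1
  have hc' := cb_le hb0 hb1
  have hK : 1 / 250 ≤ Kf σ σ' (π / 6 - σ + cb b) := by
    rcases le_total σ' σ with h | h
    · exact I.Kl σ σ' _ (by linarith) h hσ (by linarith)
    · exact I.Kr σ σ' _ hσ0 h (by linarith) (by linarith)
  have hL : C b 0 s (pt 1 (π / 6 - σ)) (vF b s σ') := by
    have := C.mirr (b := b) (x := 0) (y := s) (g := 0) (d := s) (σ := σ') le_rfl le_rfl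
      (by linarith) (by linarith) (by linarith) (by linarith)
    rw [sub_zero] at this
    convert this using 2
    rw [hσ']; ring
  rcases le_or_gt 0 (m - 5 * π / 6 + σ) with hk | hk
  · set k := m - 5 * π / 6 + σ with hkd
    refine ⟨_, _, pt 1 (5 * π / 6 - σ), _, hL,
      C.two (s₁ := s) (s₂ := m) (p := π / 6 + σ') (q := k) le_rfl le_rfl (by rw [hσ']; ring)
      (by rw [hσ', hkd]; ring) (by linarith) hk (by linarith) (by linarith) (by linarith)
      (by linarith) zero_le_one le_rfl, big_sum σ, ?_⟩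
    have h9 := I.I9 σ σ' k hσ0 hσ (by linarith) (by linarith) hk (by linarith)
    rw [one_mul]
    unfold Kf at hK
    unfold vF
    have hmk : m = k + 5 * π / 6 - σ := by rw [hkd]; ring
    rw [hmk, hs']
    nlinarith [hK, h9]
  · have h9 := I.I9 σ σ' 0 hσ0 hσ (by linarith) (by linarith) le_rfl (by linarith)
    have hone : Real.cos ((π / 6 + σ' - 0) / 2) / Real.cos ((π / 6 + σ' + 0) / 2) = 1 := by
      rw [sub_zero, add_zero]
      exact div_self (Real.cos_pos_of_mem_Ioo ⟨by linarith, by linarith⟩).ne'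
    rw [hone] at h9
    refine ⟨_, _, _, _, hL, right_neg I.toIneqs hb0 hb1 hσ0 hσ hx hk hsm, big_sum σ, ?_⟩
    unfold Kf at hK
    unfold vF
    rw [hs']
    nlinarith [hK, h9]

theorem R5cm (I : IneqsM) (hb0 : 0 < b) (hb1 : b ≤ π / 6) (hσ0 : 0 ≤ σ) (hσ : σ ≤ π / 6)
    (hx : π / 3 < m - π / 2 + b + σ) (hs : 2 * π / 3 - σ < s)
    (hk : m - 5 * π / 6 + σ < 0) (hsm : s < m) :
    Spl b 0 s m (pt 1 (π / 2 - σ)) (vF b m σ + 1 / 250) := by
  have hpi := Real.pi_pos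
  have hL : C b 0 s (pt 1 (π / 6 - σ)) (vF b (2 * π / 3 - σ) 0) := by
    have := C.mirr (b := b) (x := 0) (y := s) (g := 0) (d := 2 * π / 3 - σ) (σ := 0) le_rfl hs.le
      le_rfl (by linarith) (by linarith) (by linarith)
    rw [sub_zero] at this
    convert this using 2
    ring
  refine ⟨_, _, _, _, hL, right_neg I.toIneqs hb0 hb1 hσ0 hσ hx hk hsm, big_sum σ, ?_⟩
  have h4 := I.I4 σ (cb b) hσ0 hσ (cb_gt_one hb0 hb1).le
  unfold vF
  rw [Real.sin_zero, Real.cos_zero]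
  nlinarith [h4]

theorem R5dm (I : IneqsM) (hb0 : 0 < b) (hb1 : b ≤ π / 6) (hσ0 : 0 ≤ σ) (hσ : σ ≤ π / 6)
    (hm' : m ≤ π - 2 * σ) (hs : 2 * π / 3 - σ < s)
    (hk : 0 ≤ m - 5 * π / 6 + σ) (hsm : s < m) (hye : 2 / 5 ≤ m - s ∨ 2 / 5 ≤ π - m - σ) :
    Spl b 0 s m (pt 1 (π / 2 - σ)) (vF b m σ + 1 / 250) := by
  have hpi := Real.pi_pos
  set e := π - m - σ with he
  set y := m - s with hy
  have hme : m = π - σ - e := by rw [he]; ring
  have hc := cb_gt_one hb0 hb1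
  rcases le_or_gt e y with hey | hey
  · have hy2 : 2 / 5 ≤ y := by
      rcases hye with h | h
      · exact h
      · linarith
    have hcy : Real.cos (y / 2) ≠ 0 :=
      (Real.cos_pos_of_mem_Ioo ⟨by linarith, by linarith⟩).ne'
    have hq := sin_nonneg' (x := (y + e) / 2) (by linarith) (by linarith)
    have hq1 := two_sin_le_one (x := (y + e) / 2) (by linarith) (by linarith)
    have hL : C b 0 s (pt 1 (π / 2 - σ - (e + y))) (vF b (π - σ - (e + y)) 0) := by
      have := C.mirr (b := b) (x := 0) (y := s) (g := 0) (d := π - σ - (e + y)) (σ := 0) le_rfl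
        (by linarith) le_rfl (by linarith) (by linarith) (by linarith)
      rw [sub_zero] at this
      convert this using 2
      ring
    refine ⟨_, _, pt (2 * Real.sin ((y + e) / 2)) (m - (y - e) / 2), _, hL,
      C.two (s₁ := s) (s₂ := m) (p := (y + e) / 2) (q := (y - e) / 2) le_rfl le_rfl
        (by rw [hy]; ring) (by rw [hy]; ring) (by linarith) (by linarith) (by linarith)
        (by linarith) (by linarith) (by linarith) (by linarith) hq1, ?_, ?_⟩
    · exact chord' (by congr 2; ring) (by rw [he, hy]; ring)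
    · have hv : 2 * Real.sin ((y + e) / 2) * (Real.cos (((y + e) / 2 - (y - e) / 2) / 2) /
          Real.cos (((y + e) / 2 + (y - e) / 2) / 2)) =
          Real.sin e + Real.tan (y / 2) * (1 + Real.cos e) := by
        rw [← chord_value hcy]
        have f1 : ((y + e) / 2 - (y - e) / 2) / 2 = -(((y - e) / 2 - (y + e) / 2) / 2) := by ring
        have f2 : ((y + e) / 2 + (y - e) / 2) / 2 = ((y - e) / 2 + (y + e) / 2) / 2 := by ring
        rw [f1, f2, Real.cos_neg]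
      rw [hv]
      have h5 := I.I5a σ e (cb b) hσ0 (by linarith) (by linarith) hc.le
      have h1 := I.tan_m (y / 2) (by linarith) (by linarith)
      have h2 := Real.cos_le_one e
      have h3 := cos_lower (x := e) (by linarith) (by linarith)
      unfold vF
      rw [hme, Real.sin_zero, Real.cos_zero]
      nlinarith [mul_nonneg (sub_nonneg.2 h2) (by linarith : (0 : ℝ) ≤ π / 6 - y / 2),
        mul_nonneg (sub_nonneg.2 h1) (by linarith : (0 : ℝ) ≤ 1 + Real.cos e)]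
  · have he2 : 2 / 5 ≤ e := by
      rcases hye with h | h
      · linarith
      · exact h
    have hL : C b 0 s (pt 1 (π / 2 - σ - 2 * e)) (vF b (π - σ - 2 * e) 0) := by
      have := C.mirr (b := b) (x := 0) (y := s) (g := 0) (d := π - σ - 2 * e) (σ := 0) le_rfl
        (by linarith) le_rfl (by linarith) (by linarith) (by linarith)
      rw [sub_zero] at this
      convert this using 2
      ring
    refine ⟨_, _, pt (2 * Real.sin e) m, _, hL, C.soft hsm.le le_rfl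
      (by linarith [sin_nonneg' (x := e) (by linarith) (by linarith)])
      (two_sin_le_one (by linarith) (by linarith)), ?_, ?_⟩
    · exact chord' (by congr 2; ring) (by rw [he]; ring)
    · have h5 := I.I5bm σ e (cb b) hσ0 (by linarith) (by linarith) hc.le
      unfold vF
      rw [hme, Real.sin_zero, Real.cos_zero]
      nlinarith [h5]

end Pool.Agent.W_8c5d11_h65
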