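import Pool.Agent.W_8c5d11_h65.UDef
import Pool.Agent.W_8c5d11_h65.UMar

/-!
MP_8c5d11_gt, uniqueness: basic properties of the certificates which are functions.
-/

set_option autoImplicit false

open Set
open scoped Real

namespace Pool.Agent.W_8c5d11_h65

open Pool.Agent.W_8c5d11_v22

/-! ### the small constant -/

theorem kap_pos {b : ℝ} (h0 : 0 < b) (h1 : b ≤ π / 6) : 0 < kap b := by
  have := sin_b_pos h0 h1
  unfold kap
  positivity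

theorem kap_mul {b : ℝ} (h0 : 0 < b) (h1 : b ≤ π / 6) :
    kap b * (1 / Real.sin b) ^ 3 = 1 / 1000 := by
  have := (sin_b_pos h0 h1).ne'
  unfold kap
  field_simp

theorem two_le_inv_sin {b : ℝ} (h0 : 0 < b) (h1 : b ≤ π / 6) : 2 ≤ 1 / Real.sin b := by
  rw [le_div_iff₀ (sin_b_pos h0 h1)]
  linarith [sin_b_le h0 h1]

theorem kap_le {b : ℝ} (h0 : 0 < b) (h1 : b ≤ π / 6) : kap b ≤ 1 / 8000 := by
  have h2 := kap_mul h0 h1
  have h3 := two_le_inv_sin h0 h1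
  have h4 := kap_pos h0 h1
  have h5 : (2 : ℝ) ^ 3 ≤ (1 / Real.sin b) ^ 3 := pow_le_pow_left₀ (by norm_num) h3 3
  nlinarith

theorem kap_mul_le {b : ℝ} (h0 : 0 < b) (h1 : b ≤ π / 6) :
    kap b * (6 + 1 / Real.sin b) ≤ 1 / 500 := by
  have h2 := kap_mul h0 h1
  have h3 := two_le_inv_sin h0 h1
  have h4 := kap_pos h0 h1
  have h5 := kap_le h0 h1
  set R := 1 / Real.sin b
  have h6 : kap b * R * 4 ≤ kap b * R ^ 3 := by
    have : 4 ≤ R ^ 2 := by nlinarith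
    nlinarith [mul_pos h4 (by linarith : 0 < R)]
  nlinarith

/-! ### the correction -/

theorem ee_nonneg (s : ℝ) (z : ℂ) : 0 ≤ ee s z := le_max_left _ _

theorem abs_dt_pt_le (s : ℝ) (z : ℂ) : |dt (pt 1 s) z| ≤ ‖z‖ := by
  have := abs_dt_le (pt 1 s) z
  rwa [norm_pt_one, one_mul] at this

theorem ee_le {b s : ℝ} {z : ℂ} (hz : ‖z‖ ≤ 1 / Real.sin b) : ee s z ≤ 1 + 1 / Real.sin b := by
  have := abs_le.1 (abs_dt_pt_le s z)
  exact max_le (by linarith [norm_nonneg z]) (by linarith [this.1])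

theorem ee_le_ee {b s s' : ℝ} {z : ℂ} (hz : ‖z‖ ≤ 1 / Real.sin b) :
    ee s z ≤ ee s' z + 1 / Real.sin b * |s - s'| := by
  have hR : 0 ≤ 1 / Real.sin b := (norm_nonneg z).trans hz
  have h1 : dt (pt 1 s') z - dt (pt 1 s) z ≤ 1 / Real.sin b * |s - s'| := by
    have e : dt (pt 1 s') z - dt (pt 1 s) z = dt (pt 1 s' - pt 1 s) z := by
      simp only [dt, Complex.sub_re, Complex.sub_im]; ring
    have h2 := (abs_le.1 (abs_dt_le (pt 1 s' - pt 1 s) z)).2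
    have h3 := dist_pt_le (zero_le_one (α := ℝ)) s' s
    rw [dist_eq_norm, one_mul, abs_sub_comm] at h3
    rw [e]
    refine h2.trans ?_
    rw [mul_comm]
    exact mul_le_mul hz h3 (norm_nonneg _) hR
  refine max_le ?_ ?_
  · have := ee_nonneg s' z
    positivity
  · have : 1 - dt (pt 1 s') z ≤ ee s' z := le_max_right _ _
    linarith

theorem corr_nonneg {b s ν : ℝ} {z : ℂ} (h0 : 0 < b) (h1 : b ≤ π / 6)
    (hz : ‖z‖ ≤ 1 / Real.sin b) :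
    0 ≤ kap b * ee ν z ^ 2 * (1 / Real.sin b + 1 - dt (pt 1 s) z) := by
  have h2 := kap_pos h0 h1
  have h3 := (abs_le.1 (abs_dt_pt_le s z)).2
  have h4 : 0 ≤ 1 / Real.sin b + 1 - dt (pt 1 s) z := by linarith
  positivity

theorem corr_le {b s ν ν' : ℝ} {z : ℂ} (h0 : 0 < b) (h1 : b ≤ π / 6)
    (hz : ‖z‖ ≤ 1 / Real.sin b) :
    kap b * ee ν z ^ 2 * (1 / Real.sin b + 1 - dt (pt 1 s) z) ≤
      1 / 10 * ee ν' z + (ν - ν') ^ 2 / 10 := by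
  have h2 := kap_pos h0 h1
  have h3 := (abs_le.1 (abs_dt_pt_le s z)).1
  have h4 := ee_le_ee (s := ν) (s' := ν') hz
  have h5 := ee_le (s := ν') hz
  have h6 := kap_mul h0 h1
  have h7 := two_le_inv_sin h0 h1
  have h8 := ee_nonneg ν z
  have h9 := ee_nonneg ν' z
  set R := 1 / Real.sin b
  set D := ee ν z
  set D' := ee ν' z
  have a1 : D ^ 2 ≤ 2 * D' ^ 2 + 2 * (R ^ 2 * (ν - ν') ^ 2) := by
    have : D ^ 2 ≤ (D' + R * |ν - ν'|) ^ 2 := pow_le_pow_left₀ h8 h4 2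
    have e : (R * |ν - ν'|) ^ 2 = R ^ 2 * (ν - ν') ^ 2 := by rw [mul_pow, sq_abs]
    nlinarith [sq_nonneg (D' - R * |ν - ν'|)]
  have a2 : D' ^ 2 ≤ 3 / 2 * R * D' := by nlinarith
  have a3 : D ^ 2 ≤ 3 * R * D' + 2 * (R ^ 2 * (ν - ν') ^ 2) := by linarith
  have a4 : 1 / Real.sin b + 1 - dt (pt 1 s) z ≤ 3 * R := by
    show R + 1 - dt (pt 1 s) z ≤ 3 * R
    linarith
  have a5 : kap b * D ^ 2 * (R + 1 - dt (pt 1 s) z) ≤ kap b * D ^ 2 * (3 * R) :=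
    mul_le_mul_of_nonneg_left a4 (by positivity)
  have a6 : kap b * (3 * R) * D ^ 2 ≤
      kap b * (3 * R) * (3 * R * D' + 2 * (R ^ 2 * (ν - ν') ^ 2)) :=
    mul_le_mul_of_nonneg_left a3 (by positivity)
  have a7 : kap b * (3 * R) * (3 * R * D' + 2 * (R ^ 2 * (ν - ν') ^ 2)) =
      9 * (kap b * R ^ 2) * D' + 6 * (kap b * R ^ 3) * (ν - ν') ^ 2 := by ring
  have a8 : kap b * R ^ 2 ≤ 1 / 2000 := by
    have : 0 < kap b * R ^ 2 := by positivity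
    nlinarith
  have a9 : kap b * R ^ 2 * D' ≤ 1 / 2000 * D' := mul_le_mul_of_nonneg_right a8 h9
  rw [a7, h6] at a6
  nlinarith [sq_nonneg (ν - ν')]

theorem psP_ge {b ν : ℝ} {z : ℂ} (h0 : 0 < b) (h1 : b ≤ π / 6) (hz : ‖z‖ ≤ 1 / Real.sin b) :
    dt (pt 1 (ν + π / 2)) z ≤ psP b ν z := by
  unfold psP
  linarith [corr_nonneg (s := ν + π / 2) (ν := ν) h0 h1 hz]

theorem psP_le {b ν ν' : ℝ} {z : ℂ} (h0 : 0 < b) (h1 : b ≤ π / 6) (hz : ‖z‖ ≤ 1 / Real.sin b) :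
    psP b ν z ≤ dt (pt 1 (ν + π / 2)) z + (1 / 10 * ee ν' z + (ν - ν') ^ 2 / 10) := by
  unfold psP
  linarith [corr_le (s := ν + π / 2) (ν := ν) (ν' := ν') h0 h1 hz]

theorem psM_le {b ν ν' : ℝ} {z : ℂ} (h0 : 0 < b) (h1 : b ≤ π / 6) (hz : ‖z‖ ≤ 1 / Real.sin b) :
    psM b ν z ≤ dt (pt 1 (ν - π / 2)) z + (1 / 10 * ee ν' z + (ν - ν') ^ 2 / 10) := by
  unfold psM
  linarith [corr_le (s := ν - π / 2) (ν := ν) (ν' := ν') h0 h1 hz]

/-! ### closure properties -/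

theorem dt_rot' (s θ : ℝ) (z : ℂ) : dt (pt 1 s) (pt 1 (-θ) * z) = dt (pt 1 (s + θ)) z := by
  have h := dt_rot θ (pt 1 s) (pt 1 (-θ) * z)
  rw [← h, pt_one_mul_pt, ← mul_assoc, pt_one_mul_pt, neg_add_cancel]
  congr 1
  have : pt 1 0 = 1 := by
    apply Complex.ext
    · rw [pt_re]; simp
    · rw [pt_im]; simp
  rw [this, one_mul]

theorem dt_rotw (w : ℂ) (θ : ℝ) (z : ℂ) : dt w (pt 1 (-θ) * z) = dt (pt 1 θ * w) z := by
  have h := dt_rot θ w (pt 1 (-θ) * z)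
  rw [← h, ← mul_assoc, pt_one_mul_pt, neg_add_cancel]
  have : pt 1 0 = 1 := by
    apply Complex.ext
    · rw [pt_re]; simp
    · rw [pt_im]; simp
  rw [this, one_mul]

theorem ee_rot (s θ : ℝ) (z : ℂ) : ee s (pt 1 (-θ) * z) = ee (s + θ) z := by
  unfold ee
  rw [dt_rot']

theorem psP_rot (b ν θ : ℝ) (z : ℂ) : psP b ν (pt 1 (-θ) * z) = psP b (ν + θ) z := by
  unfold psP
  rw [dt_rot', ee_rot]
  have e : ν + π / 2 + θ = ν + θ + π / 2 := by ring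
  rw [e]

theorem US.mono {b x y x' y' : ℝ} {f : ℂ → ℝ} (hx : x' ≤ x) (hy : y ≤ y') (h : US b x y f) :
    US b x' y' f := by
  obtain ⟨s₁, s₂, A₁, A₂, m₁, m₂, h1, h2, h3, h4⟩ := h
  exact ⟨s₁, s₂, A₁, A₂, m₁, m₂, hx.trans h1, h2, h3.trans hy, h4⟩

theorem UP.mono {b x y x' y' : ℝ} {f : ℂ → ℝ} (hx : x' ≤ x) (hy : y ≤ y') (h : UP b x y f) :
    UP b x' y' f := by
  obtain ⟨w, v, h1, h2⟩ := h
  exact ⟨w, v, h1.mono hx hy, h2⟩

theorem U1.mono {b x y x' y' : ℝ} {f : ℂ → ℝ} (hx : x' ≤ x) (hy : y ≤ y') (h : U1 b x y f) :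
    U1 b x' y' f := by
  rcases h with ⟨s, B, h1, h2, h3⟩ | ⟨g, d, σ, v, h1, h2, h3⟩
  · exact Or.inl ⟨s, B, hx.trans h1, h2.trans hy, h3⟩
  · exact Or.inr ⟨g, d, σ, v, hx.trans h1, h2.trans hy, h3⟩

theorem U.mono {b x y x' y' : ℝ} {f : ℂ → ℝ} (hx : x' ≤ x) (hy : y ≤ y') (h : U b x y f) :
    U b x' y' f := by
  rcases h with h | h | h | h | h
  · exact Or.inl h
  · exact Or.inr (Or.inl (h.mono hx hy))
  · exact Or.inr (Or.inr (Or.inl (h.mono hx hy)))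
  · exact Or.inr (Or.inr (Or.inr (Or.inl (h.mono hx hy))))
  · exact Or.inr (Or.inr (Or.inr (Or.inr (h.mono (by linarith) (by linarith)))))

theorem U.zero (b x y : ℝ) : U b x y (fun _ => 0) := Or.inl rfl

theorem U1.rot {b x y : ℝ} {f : ℂ → ℝ} (θ : ℝ) (h : U1 b x y f) :
    U1 b (x + θ) (y + θ) (fun z => f (pt 1 (-θ) * z)) := by
  rcases h with ⟨s, B, h1, h2, h3, h4, rfl⟩ | ⟨g, d, σ, v, h1, h2, h3, h4, h5, h6, h7, rfl⟩
  · refine Or.inl ⟨s + θ, B, by linarith, by linarith, h3, h4, ?_⟩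
    funext z
    have e : s + b - π / 2 + θ = s + θ + b - π / 2 := by ring
    simp only [psP_rot, e]
  · refine Or.inr ⟨g + θ, d + θ, σ, v, by linarith, by linarith, h3, h4, by linarith, by linarith,
      by rwa [add_sub_add_right_eq_sub], ?_⟩
    funext z
    have e : g - σ + θ = g + θ - σ := by ring
    simp only [psP_rot, e]

theorem fS_rot (s₁ s₂ A₁ A₂ m₁ m₂ θ : ℝ) (z : ℂ) : fS s₁ s₂ A₁ A₂ m₁ m₂ (pt 1 (-θ) * z) =
    fS (s₁ + θ) (s₂ + θ) A₁ A₂ m₁ m₂ z := by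
  unfold fS
  rw [dt_rot', dt_rot', ee_rot, ee_rot]

theorem U.rot {b x y : ℝ} {f : ℂ → ℝ} (θ : ℝ) (h : U b x y f) :
    U b (x + θ) (y + θ) (fun z => f (pt 1 (-θ) * z)) := by
  rcases h with rfl | ⟨s₁, s₂, A₁, A₂, m₁, m₂, h1, h2, h3, h4, h5, h6, h7, h8, rfl⟩ |
    ⟨w, v, h1, rfl⟩ | h | h
  · exact Or.inl rfl
  · refine Or.inr (Or.inl ⟨s₁ + θ, s₂ + θ, A₁, A₂, m₁, m₂, by linarith, by linarith, by linarith,
      h4, h5, h6, h7, h8, ?_⟩)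
    funext z
    exact fS_rot _ _ _ _ _ _ _ _
  · refine Or.inr (Or.inr (Or.inl ⟨_, v, h1.rot θ, ?_⟩))
    funext z
    simp only [dt_rotw]
  · exact Or.inr (Or.inr (Or.inr (Or.inl (h.rot θ))))
  · refine Or.inr (Or.inr (Or.inr (Or.inr ?_)))
    have h1 := h.rot (-θ)
    have e1 : -(y + θ) = -y + -θ := by ring
    have e2 : -(x + θ) = -x + -θ := by ring
    rw [e1, e2]
    have e3 : (fun z => f ((starRingEnd ℂ) (pt 1 (-(-θ)) * z))) =
        fun z => f (pt 1 (-θ) * (starRingEnd ℂ) z) := by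
      funext z
      rw [map_mul, conj_pt, neg_neg]
    rw [← e3]
    exact h1

theorem U.conj {b x y : ℝ} {f : ℂ → ℝ} (h : U b x y f) :
    U b (-y) (-x) (fun z => f ((starRingEnd ℂ) z)) := by
  rcases h with rfl | ⟨s₁, s₂, A₁, A₂, m₁, m₂, h1, h2, h3, h4, h5, h6, h7, h8, rfl⟩ |
    ⟨w, v, h1, rfl⟩ | h | h
  · exact Or.inl rfl
  · refine Or.inr (Or.inl ⟨-s₂, -s₁, A₂, A₁, m₂, m₁, by linarith, by linarith, by linarith,
      h5, h4, h7, h6, by linarith, ?_⟩)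
    funext z
    unfold fS
    have e1 : ∀ s, dt (pt 1 s) ((starRingEnd ℂ) z) = dt (pt 1 (-s)) z := fun s => by
      rw [← conj_pt, ← dt_conj (pt 1 s), Complex.conj_conj]
    have e2 : ∀ s, ee s ((starRingEnd ℂ) z) = ee (-s) z := fun s => by
      unfold ee; rw [e1]
    rw [e1, e1, e2, e2]
    ring
  · refine Or.inr (Or.inr (Or.inl ⟨_, v, h1.conj, ?_⟩))
    funext z
    have e := dt_conj w ((starRingEnd ℂ) z)
    rw [Complex.conj_conj] at e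
    simp only [e]
  · refine Or.inr (Or.inr (Or.inr (Or.inr ?_)))
    simp only [neg_neg, Complex.conj_conj]
    exact h
  · exact Or.inr (Or.inr (Or.inr (Or.inl h)))

/-- The conclusion of a split, at a point. -/
def SplU (b x c y : ℝ) (f : ℂ → ℝ) (z : ℂ) : Prop :=
  ∃ f' f'' : ℂ → ℝ, U b x c f' ∧ U b c y f'' ∧ f z ≤ f' z + f'' z

theorem SplU.mono {b x c y x' y' : ℝ} {f : ℂ → ℝ} {z : ℂ} (hx : x' ≤ x) (hy : y ≤ y')
    (h : SplU b x c y f z) : SplU b x' c y' f z := by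
  obtain ⟨f', f'', h1, h2, h3⟩ := h
  exact ⟨f', f'', h1.mono hx le_rfl, h2.mono le_rfl hy, h3⟩

/-- a plain split with margin -/
theorem SplU.of {b x c y v θ : ℝ} {f : ℂ → ℝ} {z : ℂ} (h0 : 0 < b) (h1 : b ≤ π / 6)
    (hz : ‖z‖ ≤ 1 / Real.sin b) (hv : v ≤ 5) (h : Spl b x c y (pt 1 θ) (v + 1 / 250))
    (hf : f z ≤ v - dt (pt 1 θ) z) : SplU b x c y f z := by
  obtain ⟨w', v', w'', v'', a1, a2, a3, a4⟩ := h
  refine ⟨_, _, Or.inr (Or.inr (Or.inl ⟨w', v', a1, rfl⟩)),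
    Or.inr (Or.inr (Or.inl ⟨w'', v'', a2, rfl⟩)), ?_⟩
  have h2 := kap_mul_le h0 h1
  have h3 := kap_pos h0 h1
  have h4 := (abs_le.1 (abs_dt_pt_le θ z)).1
  have h5 := dt_add_left w' w'' z
  rw [a3] at h5
  have h6 := kap_le h0 h1
  have h7 : kap b * (v + 1 / 250 - dt (pt 1 θ) z) ≤ kap b * (6 + 1 / Real.sin b) :=
    mul_le_mul_of_nonneg_left (by linarith) h3.le
  have h8 : (1 - kap b) * (v + 1 / 250) ≤ (1 - kap b) * (v' + v'') :=
    mul_le_mul_of_nonneg_left a4 (by linarith)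
  have h9 : (1 - kap b) * (v' - dt w' z) + (1 - kap b) * (v'' - dt w'' z) =
      (1 - kap b) * (v' + v'') - (1 - kap b) * dt (pt 1 θ) z := by rw [h5]; ring
  rw [h9]
  nlinarith

end Pool.Agent.W_8c5d11_h65
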