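import Pool.Agent.W_8c5d11_h65.Def

/-!
MP_8c5d11_gt, uniqueness: certificates which are functions, with a potential `GG` which is positive on
the open unit disc. Normalisation `R - r = 1`, `R = 1 / sin b`, `0 < b ≤ π / 6`.

Statements needed from the other files (all with `0 < b`, `b ≤ π / 6`):

* ULip.lean (helper49):
  `GG_lip   : |GG b z - GG b z'| ≤ kap b * dist z z'`
  `psP_lip  : 0 ≤ B → B ≤ 1 → ‖z‖ ≤ 1 / sin b → ‖z'‖ ≤ 1 / sin b →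
                |B * psP b ν z - B * psP b ν z'| ≤ dist z z' - |GG b z - GG b z'|`
  `psM_lip  :` the same for `psM` (from `psM_conj` below)
* UIneq.lean (helper83), for `0 ≤ σ ≤ e ≤ π / 6` and so on:
  `I7m    : 0 ≤ σ → σ ≤ π/6 → σ ≤ z → 0.73 < t →
             sin σ + (z + t) * cos σ + σ ^ 2 / 10 ≤ 2 * sin σ + (z - σ + t)`
  `slantM : 0 ≤ σ → σ ≤ π/6 → -σ ≤ z → z ≤ σ → 0.73 < t →
             sin σ + (z + t) * cos σ + z ^ 2 / 10 ≤ sin (z + σ) / cos z + cos σ / cos z * t`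
  `I5bm   : 0 ≤ s → s ≤ e → e ≤ π/6 → 1 ≤ c →
             e ^ 2 / 10 ≤ 2 * sin e - e - sin s + (π/2 - e - s + c) * (1 - cos s)`
  `tan_m  : 1/5 ≤ x → x ≤ π/6 → 11/5000 ≤ tan x - x`
* IneqMg.lean (helper26): the fields `Kl`, `Kr`, `I4` of `Ineqs` (Split.lean) and `fT_nonneg` (I3.lean)
  with `1 / 250 ≤` in place of `0 ≤`.
-/

set_option autoImplicit false

open Set
open scoped Real

namespace Pool.Agent.W_8c5d11_h65

open Pool.Agent.W_8c5d11_v22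

/-- the small constant -/
noncomputable def kap (b : ℝ) : ℝ := Real.sin b ^ 3 / 1000

/-- the potential -/
noncomputable def GG (b : ℝ) (z : ℂ) : ℝ := kap b / 48 * max 0 (1 - ‖z‖ ^ 2) ^ 3

/-- how far `z` is from the half plane of the points `y` with `y · u(s) ≥ 1` -/
noncomputable def ee (s : ℝ) (z : ℂ) : ℝ := max 0 (1 - dt (pt 1 s) z)

/-- the linear form `u(ν + π/2) · z` with a correction -/
noncomputable def psP (b ν : ℝ) (z : ℂ) : ℝ :=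
  dt (pt 1 (ν + π / 2)) z +
    kap b * ee ν z ^ 2 * (1 / Real.sin b + 1 - dt (pt 1 (ν + π / 2)) z)

/-- the linear form `u(ν - π/2) · z` with a correction -/
noncomputable def psM (b ν : ℝ) (z : ℂ) : ℝ :=
  dt (pt 1 (ν - π / 2)) z +
    kap b * ee ν z ^ 2 * (1 / Real.sin b + 1 - dt (pt 1 (ν - π / 2)) z)

theorem ee_conj (s : ℝ) (z : ℂ) : ee (-s) ((starRingEnd ℂ) z) = ee s z := by
  unfold ee
  rw [← conj_pt, dt_conj]

theorem psM_conj (b ν : ℝ) (z : ℂ) : psM b (-ν) ((starRingEnd ℂ) z) = psP b ν z := by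
  unfold psM psP
  have e : pt 1 (-ν - π / 2) = (starRingEnd ℂ) (pt 1 (ν + π / 2)) := by
    rw [conj_pt]; congr 1; ring
  rw [ee_conj, e, dt_conj]

theorem psP_conj (b ν : ℝ) (z : ℂ) : psP b (-ν) ((starRingEnd ℂ) z) = psM b ν z := by
  have h := psM_conj b (-ν) ((starRingEnd ℂ) z)
  rw [neg_neg, Complex.conj_conj] at h
  exact h.symm

theorem GG_conj (b : ℝ) (z : ℂ) : GG b ((starRingEnd ℂ) z) = GG b z := by
  unfold GG
  rw [RCLike.norm_conj]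

/-! ### the certificates -/

/-- soft terminals -/
noncomputable def fS (s₁ s₂ A₁ A₂ m₁ m₂ : ℝ) (z : ℂ) : ℝ :=
  A₁ * (1 - dt (pt 1 s₁) z) + A₂ * (1 - dt (pt 1 s₂) z) + m₁ * ee s₁ z + m₂ * ee s₂ z

def US (b x y : ℝ) (f : ℂ → ℝ) : Prop :=
  ∃ s₁ s₂ A₁ A₂ m₁ m₂ : ℝ, x ≤ s₁ ∧ s₁ ≤ s₂ ∧ s₂ ≤ y ∧ 0 ≤ A₁ ∧ 0 ≤ A₂ ∧ 0 ≤ m₁ ∧ 0 ≤ m₂ ∧
    A₁ + A₂ + m₁ + m₂ ≤ 1 - kap b ∧ f = fS s₁ s₂ A₁ A₂ m₁ m₂

/-- plain certificates -/
def UP (b x y : ℝ) (f : ℂ → ℝ) : Prop :=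
  ∃ w v, C b x y w v ∧ f = fun z => (1 - kap b) * (v - dt w z)

/-- hard terminals -/
def UH (b x y : ℝ) (f : ℂ → ℝ) : Prop :=
  ∃ s B : ℝ, x ≤ s ∧ s ≤ y ∧ 0 ≤ B ∧ B ≤ 1 ∧
    f = fun z => B * (1 - Real.tan (b / 2)) - B * psP b (s + b - π / 2) z

/-- main certificates -/
def UF (b x y : ℝ) (f : ℂ → ℝ) : Prop :=
  ∃ g d σ v : ℝ, x ≤ g ∧ d ≤ y ∧ 0 ≤ σ ∧ σ ≤ π / 6 ∧ π / 2 - b - σ ≤ d - g ∧ d - g ≤ π - 2 * σ ∧
    v ≤ vF b (d - g) σ ∧ f = fun z => v - psP b (g - σ) z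

/-- one orientation -/
def U1 (b x y : ℝ) (f : ℂ → ℝ) : Prop := UH b x y f ∨ UF b x y f

/-- all certificates -/
def U (b x y : ℝ) (f : ℂ → ℝ) : Prop :=
  f = (fun _ => 0) ∨ US b x y f ∨ UP b x y f ∨ U1 b x y f ∨
    U1 b (-y) (-x) (fun z => f ((starRingEnd ℂ) z))

end Pool.Agent.W_8c5d11_h65
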