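import Pool.Agent.W_8c5d11_g83.Ineq

/-!
MP_8c5d11_gt, uniqueness: inequalities with a quadratic margin.
-/

set_option autoImplicit false

open Set
open scoped Real

namespace Pool.Agent.W_8c5d11_h65

open Pool.Agent.W_8c5d11_g83 (sin_ge_cubic cos_le_quartic pi_bounds)

theorem cos_ge_num {s : ℝ} (h0 : 0 ≤ s) (h1 : s ≤ π / 6) : 0.866 ≤ Real.cos s := by
  have h := Pool.Agent.W_8c5d11_g83.cos_ge_of_le h0 h1
  obtain ⟨q1, q2⟩ := Pool.Agent.W_8c5d11_g83.sqrt3_bd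
  linarith

/-- `s ^ 2 (0.49) ≤ s ^ 2 / 2 - s ^ 4 / 24 ≤ 1 - cos s` -/
theorem one_sub_cos_num {s : ℝ} (h0 : 0 ≤ s) (h1 : s ≤ 0.5236) :
    0.488 * s ^ 2 ≤ 1 - Real.cos s := by
  have h := cos_le_quartic h0
  have h2 : s ^ 2 ≤ 0.28 := by nlinarith
  have h3 : s ^ 4 ≤ 0.28 * s ^ 2 := by nlinarith [sq_nonneg s]
  linarith [sq_nonneg s]

theorem I7m {σ z t : ℝ} (h0 : 0 ≤ σ) (h1 : σ ≤ π / 6) (hz : σ ≤ z) (ht : 0.73 < t) :
    Real.sin σ + (z + t) * Real.cos σ + σ ^ 2 / 10 ≤ 2 * Real.sin σ + (z - σ + t) := by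
  obtain ⟨p1, p2⟩ := pi_bounds
  have a1 := sin_ge_cubic h0
  have a2 := one_sub_cos_num h0 (by linarith)
  have a3 : (σ + 0.73) * (0.488 * σ ^ 2) ≤ (z + t) * (1 - Real.cos σ) :=
    mul_le_mul (by linarith) a2 (by positivity) (by linarith)
  have a4 : 0 ≤ σ ^ 3 := by positivity
  have a5 : 0 ≤ σ ^ 2 := sq_nonneg σ
  nlinarith

theorem slantM {σ z t : ℝ} (h0 : 0 ≤ σ) (h1 : σ ≤ π / 6) (hz : -σ ≤ z) (hz' : z ≤ σ)
    (ht : 0.73 < t) :
    Real.sin σ + (z + t) * Real.cos σ + z ^ 2 / 10 ≤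
      Real.sin (z + σ) / Real.cos z + Real.cos σ / Real.cos z * t := by
  obtain ⟨p1, p2⟩ := pi_bounds
  have hσ := cos_ge_num h0 h1
  have cz : 0 < Real.cos z := Real.cos_pos_of_mem_Ioo ⟨by linarith, by linarith⟩
  -- the bracket
  have hb : 0.17 * z ^ 2 ≤ Real.sin z - z * Real.cos z + t * (1 - Real.cos z) := by
    rcases le_or_gt 0 z with h | h
    · have a1 := sin_ge_cubic h
      have a2 := one_sub_cos_num h (by linarith)
      have a3 : 0.73 * (0.488 * z ^ 2) ≤ t * (1 - Real.cos z) :=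
        mul_le_mul ht.le a2 (by positivity) (by linarith)
      have a4 : 0 ≤ Real.sin z - z * Real.cos z := by
        have a5 := mul_le_mul_of_nonneg_left (cos_le_quartic h) h
        have a6 : 0 ≤ z ^ 3 * (0.5236 - z) := mul_nonneg (by positivity) (by linarith)
        have a7 : 0 ≤ z ^ 4 * (0.5236 - z) := mul_nonneg (by positivity) (by linarith)
        have a8 : 0 ≤ z ^ 3 := by positivity
        nlinarith
      nlinarith [sq_nonneg z]
    · set u := -z with hu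
      have hzu : z = -u := by rw [hu]; ring
      have hu0 : 0 < u := by rw [hu]; linarith
      have hu1 : u ≤ 0.5236 := by rw [hu]; linarith
      have a2 := one_sub_cos_num hu0.le hu1
      have a1 := Real.sin_le hu0.le
      have a0 := Real.one_sub_sq_div_two_le_cos (x := u)
      have hcu : Real.cos z = Real.cos u := by rw [hzu, Real.cos_neg]
      have hsu : Real.sin z = -Real.sin u := by rw [hzu, Real.sin_neg]
      rw [hcu, hsu, hzu]
      have a3 : 0.73 * (0.488 * u ^ 2) ≤ t * (1 - Real.cos u) :=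
        mul_le_mul ht.le a2 (by positivity) (by linarith)
      have a4 : Real.sin u ≤ u - u ^ 3 / 6 + u ^ 5 / 120 :=
        Pool.Agent.W_8c5d11_g83.sin_le_quintic hu0.le
      have a5 := mul_le_mul_of_nonneg_left a0 hu0.le
      have a6 : u ^ 3 ≤ 0.5236 * u ^ 2 := by nlinarith [sq_nonneg u]
      have a7 : u ^ 5 ≤ 0.28 * (0.5236 * u ^ 2) := by
        have : u ^ 2 ≤ 0.28 := by nlinarith
        have h5 : u ^ 5 = u ^ 2 * u ^ 3 := by ring
        rw [h5]
        exact mul_le_mul this a6 (by positivity) (by norm_num)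
      nlinarith [sq_nonneg u]
  have e1 : Real.sin (z + σ) / Real.cos z + Real.cos σ / Real.cos z * t =
      (Real.sin z * Real.cos σ + Real.cos z * Real.sin σ + Real.cos σ * t) / Real.cos z := by
    rw [Real.sin_add]; ring
  rw [e1, le_div_iff₀ cz]
  have h2 : 0.866 * (0.17 * z ^ 2) ≤
      Real.cos σ * (Real.sin z - z * Real.cos z + t * (1 - Real.cos z)) :=
    mul_le_mul hσ hb (by positivity) (by linarith)
  have h3 : z ^ 2 / 10 * Real.cos z ≤ z ^ 2 / 10 := by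
    have := Real.cos_le_one z
    nlinarith [sq_nonneg z]
  nlinarith [sq_nonneg z]

theorem I5bm {s e c : ℝ} (hs : 0 ≤ s) (hse : s ≤ e) (he : e ≤ π / 6) (hc : 1 ≤ c) :
    e ^ 2 / 10 ≤ 2 * Real.sin e - e - Real.sin s + (π / 2 - e - s + c) * (1 - Real.cos s) := by
  obtain ⟨p1, p2⟩ := pi_bounds
  have a1 := sin_ge_cubic hs
  have a2 := one_sub_cos_num hs (by linarith)
  -- `sin e - sin s ≥ (e - s) cos e`
  have a3 : (e - s) * Real.cos e ≤ Real.sin e - Real.sin s :=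
    Pool.Agent.W_8c5d11_g83.sin_sub_ge hs hse (by linarith)
  have a4 := cos_ge_num (hs.trans hse) he
  have a5 : (e - s) * 0.866 ≤ (e - s) * Real.cos e :=
    mul_le_mul_of_nonneg_left a4 (by linarith)
  have a6 : 1.5 * (0.488 * s ^ 2) ≤ (π / 2 - e - s + c) * (1 - Real.cos s) :=
    mul_le_mul (by linarith) a2 (by positivity) (by linarith)
  have a7 : s ^ 3 ≤ 0.5236 * s ^ 2 := by nlinarith [sq_nonneg s]
  have a8 : e ^ 2 ≤ s ^ 2 + 1.0472 * (e - s) := by nlinarith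
  nlinarith [sq_nonneg s]

theorem tan_m {x : ℝ} (h0 : 1 / 5 ≤ x) (h1 : x ≤ π / 6) : 11 / 5000 ≤ Real.tan x - x := by
  obtain ⟨p1, p2⟩ := pi_bounds
  have cx : 0 < Real.cos x := Real.cos_pos_of_mem_Ioo ⟨by linarith, by linarith⟩
  have hx0 : 0 ≤ x := by linarith
  have a1 := sin_ge_cubic hx0
  have a2 := cos_le_quartic hx0
  rw [Real.tan_eq_sin_div_cos, le_sub_iff_add_le, le_div_iff₀ cx]
  have a3 : (11 / 5000 + x) * Real.cos x ≤ (11 / 5000 + x) * (1 - x ^ 2 / 2 + x ^ 4 / 24) :=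
    mul_le_mul_of_nonneg_left a2 (by linarith)
  refine a3.trans (le_trans ?_ a1)
  have b1 : 0 ≤ (x - 1 / 5) * x ^ 2 := mul_nonneg (by linarith) (sq_nonneg x)
  have b2 : 0 ≤ x ^ 4 * (0.5236 - x) := mul_nonneg (by positivity) (by linarith)
  have b3 : x ^ 2 ≤ 0.28 := by nlinarith
  have b4 : x ^ 4 ≤ 0.28 * x ^ 2 := by nlinarith [sq_nonneg x]
  have b5 : x ^ 5 ≤ 0.28 * x ^ 3 := by
    have h5 : x ^ 5 = x ^ 2 * x ^ 3 := by ring
    rw [h5]
    exact mul_le_mul_of_nonneg_right b3 (by positivity)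
  have b6 : 1 / 5 * x ^ 2 ≤ x ^ 3 := by nlinarith
  nlinarith

end Pool.Agent.W_8c5d11_h65
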