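import Pool.Agent.W_8c5d11_h65.UTop
import Pool.Agent.W_8c5d11_h65.ULip
import Pool.Agent.W_8c5d11_h65.UIneq
import Pool.Agent.W_8c5d11_h65.IneqM
import Pool.Agent.W_8c5d11_h65.TopMg
import Pool.Agent.W_8c5d11_h26.IneqMg
import Pool.Agent.W_8c5d11_g83.Ineqs

/-!
MP_8c5d11_gt: a continua which meets the open disc of radius `R - r` is strictly longer than the
horseshoe, `R ≤ 2 r`.
-/

set_option autoImplicit false

open Set Metric MeasureTheory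
open scoped Real ENNReal

namespace Pool.Agent.W_8c5d11_h65

open Pool.Agent.W_8c5d11_v22
open Pool.Agent.W_8c5d11_h73 (hlen)

theorem ineqsM : IneqsM where
  Kl := W_8c5d11_h26.Klm
  Kr := W_8c5d11_h26.Krm
  I4 := W_8c5d11_h26.I4m
  I5a := W_8c5d11_g83.ineqs.I5a
  I5bm _ _ _ h1 h2 h3 h4 := I5bm h1 h2 h3 h4
  I8 := W_8c5d11_g83.ineqs.I8
  I9 := W_8c5d11_g83.ineqs.I9
  I7m _ _ _ h1 h2 h3 h4 := I7m h1 h2 h3 h4
  slantM _ _ _ h1 h2 h3 h4 h5 := slantM h1 h2 h3 h4 h5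
  tan_m _ h1 h2 := tan_m h1 h2

theorem lipU {b : ℝ} (hb0 : 0 < b) (hb1 : b ≤ π / 6) : LipU b where
  G _ _ := GG_lip hb0 hb1
  P _ _ _ _ h1 h2 h3 h4 := psP_lip hb0 hb1 h1 h2 h3 h4

theorem topMg {b : ℝ} (hb0 : 0 < b) (hb1 : b ≤ π / 6) : TopMg b :=
  top_C_mg hb0 (W_8c5d11_h26.fT_m (cb_gt_one hb0 hb1).le (cb_le hb0 hb1))

/-- **Continua which meet the open disc of radius `R - r` are longer than the horseshoe.** -/
theorem strict_dip {R r : ℝ} (hr : 0 < r) (hR : r < R) (h2 : R ≤ 2 * r) {S : Set ℂ}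
    (hc : IsCompact S) (hS : IsConnected S) (hcov : sphere 0 R ⊆ cthickening r S) {z₀ : ℂ}
    (hz₀ : z₀ ∈ S) (hz : ‖z₀‖ < R - r) : ENNReal.ofReal (hlen R r) < μH[1] S :=
  strict_of_fsys (fun _ h0 h1 => ⟨_, _, fsys ineqsM (fun _ g0 g1 => lipU g0 g1)
    (fun _ g0 g1 => topMg g0 g1) h0 h1⟩) hr hR h2 hc hS hcov hz₀ hz

end Pool.Agent.W_8c5d11_h65
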