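import Pool.Agent.W_8c5d11_h65.UBas

/-!
MP_8c5d11_gt, uniqueness: splitting of the certificates which are functions.
-/

set_option autoImplicit false

open Set
open scoped Real

namespace Pool.Agent.W_8c5d11_h65

open Pool.Agent.W_8c5d11_v22

theorem vF_le5 {b m σ : ℝ} (hb0 : 0 < b) (hb1 : b ≤ π / 6) (hσ0 : 0 ≤ σ) (hσ : σ ≤ π / 6)
    (hm : π / 2 - b - σ ≤ m) (hm' : m ≤ π - 2 * σ) : vF b m σ ≤ 5 := by
  have hpi := Real.pi_pos
  have hpi' := Real.pi_lt_d2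
  have h1 := cb_le hb0 hb1
  have h2 := sqrt3_bounds.2
  have h3 := Real.sin_le_one σ
  have h4 := Real.cos_le_one σ
  have h6 := t_lower hb0 hb1
  have h5 : 0 ≤ m - π / 2 + cb b := by
    unfold cb; linarith
  have h7 : (m - π / 2 + cb b) * Real.cos σ ≤ (m - π / 2 + cb b) * 1 :=
    mul_le_mul_of_nonneg_left h4 h5
  unfold vF
  linarith

/-! ### constructors -/

theorem U.main {b x y g d : ℝ} (h1 : x ≤ g) (h2 : d ≤ y) (h5 : π / 2 - b ≤ d - g)
    (h6 : d - g ≤ π) : U b x y (fun z => vF b (d - g) 0 - psP b g z) := by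
  refine Or.inr (Or.inr (Or.inr (Or.inl (Or.inr ⟨g, d, 0, vF b (d - g) 0, h1, h2, le_rfl,
    by linarith [Real.pi_pos], by linarith, by linarith, le_rfl, ?_⟩))))
  rw [sub_zero]

theorem U.mirr {b x y g d : ℝ} (h1 : x ≤ g) (h2 : d ≤ y) (h5 : π / 2 - b ≤ d - g)
    (h6 : d - g ≤ π) : U b x y (fun z => vF b (d - g) 0 - psM b d z) := by
  have h := (U.main (b := b) (x := -y) (y := -x) (g := -d) (d := -g) (by linarith) (by linarith)
    (by linarith) (by linarith)).conj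
  rw [neg_neg, neg_neg] at h
  have e : (fun z => vF b (d - g) 0 - psM b d z) =
      fun z => vF b (-g - -d) 0 - psP b (-d) ((starRingEnd ℂ) z) := by
    funext z
    have e1 : -g - -d = d - g := by ring
    rw [psP_conj, e1]
  rw [e]
  exact h

theorem U.hard {b x y s B : ℝ} (h1 : x ≤ s) (h2 : s ≤ y) (h3 : 0 ≤ B) (h4 : B ≤ 1) :
    U b x y (fun z => B * (1 - Real.tan (b / 2)) - B * psP b (s + b - π / 2) z) :=
  Or.inr (Or.inr (Or.inr (Or.inl (Or.inl ⟨s, B, h1, h2, h3, h4, rfl⟩))))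

theorem U.soft2 {b x y s₁ s₂ A₁ A₂ m₁ m₂ : ℝ} (h1 : x ≤ s₁) (h2 : s₁ ≤ s₂) (h3 : s₂ ≤ y)
    (h4 : 0 ≤ A₁) (h5 : 0 ≤ A₂) (h6 : 0 ≤ m₁) (h7 : 0 ≤ m₂)
    (h8 : A₁ + A₂ + m₁ + m₂ ≤ 1 - kap b) : U b x y (fS s₁ s₂ A₁ A₂ m₁ m₂) :=
  Or.inr (Or.inl ⟨s₁, s₂, A₁, A₂, m₁, m₂, h1, h2, h3, h4, h5, h6, h7, h8, rfl⟩)

theorem U.soft1 {b x y s A : ℝ} (hb0 : 0 < b) (hb1 : b ≤ π / 6) (h1 : x ≤ s) (h2 : s ≤ y)
    (h4 : 0 ≤ A) (h8 : A ≤ 4 / 5) : U b x y (fS s s A 0 (1 / 10) 0) :=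
  U.soft2 h1 le_rfl h2 h4 le_rfl (by norm_num) le_rfl (by linarith [kap_le hb0 hb1])

/-- coefficients of two terminals -/
theorem coef {κ p q : ℝ} (hp : 0 ≤ p) (hq : 0 ≤ q) (hpq : 0 < p + q) (hpq' : p + q < π)
    (h0 : 0 ≤ κ) : ∃ A B : ℝ, 0 ≤ A ∧ 0 ≤ B ∧
      A + B = κ * (Real.cos ((p - q) / 2) / Real.cos ((p + q) / 2)) ∧
      ∀ s₁ s₂ θ : ℝ, θ = s₁ + p → s₂ = s₁ + p + q → ∀ z,
        A * dt (pt 1 s₁) z + B * dt (pt 1 s₂) z = dt (pt κ θ) z := by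
  have hs : 0 < Real.sin (p + q) := Real.sin_pos_of_pos_of_lt_pi hpq hpq'
  have hq0 : 0 ≤ Real.sin q := Real.sin_nonneg_of_nonneg_of_le_pi hq (by linarith)
  have hp0 : 0 ≤ Real.sin p := Real.sin_nonneg_of_nonneg_of_le_pi hp (by linarith)
  refine ⟨κ * Real.sin q / Real.sin (p + q), κ * Real.sin p / Real.sin (p + q), by positivity,
    by positivity, ?_, ?_⟩
  · have hc2 : 0 < Real.cos ((p + q) / 2) :=
      Real.cos_pos_of_mem_Ioo ⟨by linarith [Real.pi_pos], by linarith⟩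
    have e1 : Real.sin q + Real.sin p =
        2 * Real.sin ((p + q) / 2) * Real.cos ((p - q) / 2) := by
      have e := Real.sin_add (((p + q) / 2)) ((p - q) / 2)
      have e' := Real.sin_sub (((p + q) / 2)) ((p - q) / 2)
      have f : (p + q) / 2 + (p - q) / 2 = p := by ring
      have f' : (p + q) / 2 - (p - q) / 2 = q := by ring
      rw [f] at e; rw [f'] at e'
      linarith
    have e2 : Real.sin (p + q) = 2 * Real.sin ((p + q) / 2) * Real.cos ((p + q) / 2) := by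
      rw [← Real.sin_two_mul]; congr 1; ring
    have hs2 : 0 < Real.sin ((p + q) / 2) :=
      Real.sin_pos_of_pos_of_lt_pi (by linarith) (by linarith)
    have e3 : κ * Real.sin q / Real.sin (p + q) + κ * Real.sin p / Real.sin (p + q) =
        κ * (Real.sin q + Real.sin p) / Real.sin (p + q) := by ring
    rw [e3, e1, e2]
    field_simp
  · intro s₁ s₂ θ h1 h2 z
    have h := pt_combo (κ := κ) h1 h2 hs.ne' rfl rfl
    rw [← h, dt_add_left]
    have e : ∀ κ s : ℝ, dt (pt κ s) z = κ * dt (pt 1 s) z := fun κ s => by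
      simp only [dt, pt_re, pt_im]; ring
    rw [e (κ * Real.sin q / Real.sin (p + q)), e (κ * Real.sin p / Real.sin (p + q))]

theorem dt_pt_mul (κ s : ℝ) (z : ℂ) : dt (pt κ s) z = κ * dt (pt 1 s) z := by
  simp only [dt, pt_re, pt_im]; ring

theorem tan_le_half {x : ℝ} (h0 : 0 ≤ x) (h1 : x ≤ 1 / 4) : Real.tan x ≤ 27 / 100 := by
  have hpi := Real.pi_gt_d2
  have hc : 0 < Real.cos x := Real.cos_pos_of_mem_Ioo ⟨by linarith, by linarith⟩
  rw [Real.tan_eq_sin_div_cos, div_le_iff₀ hc]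
  have h2 := Real.one_sub_sq_div_two_le_cos (x := x)
  have h3 := Real.sin_le h0
  nlinarith

theorem chord_sum_le {s σ : ℝ} (h0 : 0 ≤ σ) (h1 : σ ≤ s) (h2 : s ≤ 2 / 5) :
    Real.sin σ + Real.tan (s / 2) * (1 + Real.cos σ) ≤ 22 / 25 := by
  have hpi := Real.pi_gt_d2
  have h3 := Real.sin_le h0
  have h4 := Real.cos_le_one σ
  have hc : 0 < Real.cos (s / 2) := Real.cos_pos_of_mem_Ioo ⟨by linarith, by linarith⟩
  have h5 : Real.tan (s / 2) ≤ 21 / 100 := by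
    rw [Real.tan_eq_sin_div_cos, div_le_iff₀ hc]
    have h2 := Real.one_sub_sq_div_two_le_cos (x := s / 2)
    have h3 := Real.sin_le (x := s / 2) (by linarith)
    nlinarith
  have h6 : 0 ≤ Real.tan (s / 2) :=
    Real.tan_nonneg_of_nonneg_of_le_pi_div_two (by linarith) (by linarith)
  have h7 : -1 ≤ Real.cos σ := Real.neg_one_le_cos σ
  nlinarith

/-! ### nearly tight splits -/

variable {b m σ s : ℝ} {z : ℂ}

/-- the function to be estimated -/
noncomputable def F0 (b m σ : ℝ) (z : ℂ) : ℝ := vF b m σ - dt (pt 1 (π / 2 - σ)) z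

theorem R1t (I : IneqsM) (hb0 : 0 < b) (hb1 : b ≤ π / 6) (hz : ‖z‖ ≤ 1 / Real.sin b)
    (hσ0 : 0 ≤ σ) (hσ : σ ≤ π / 6) (hs0 : 0 < s) (hsm : s < m) (hm : π / 2 - b - σ ≤ m)
    (hz1 : m - π / 2 + b ≤ σ) (hz2 : m - π / 2 + b ≤ 1 / 4) : SplU b 0 s m (F0 b m σ) z := by
  have hpi := Real.pi_pos
  obtain ⟨ζ, hζ⟩ : ∃ ζ, ζ = m - π / 2 + b := ⟨_, rfl⟩
  rw [← hζ] at hz1 hz2
  have hζ0 : -σ ≤ ζ := by linarith
  have hcz : 0 < Real.cos ζ := cos_pos_small (by linarith) (by linarith)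
  have hcs : 0 < Real.cos σ := cos_pos_small (by linarith) hσ
  have hspq : Real.sin (π / 2 - σ + (ζ + σ)) = Real.cos ζ := by
    rw [← Real.cos_pi_div_two_sub, ← Real.cos_neg]; congr 1; ring
  have hsp : Real.sin (π / 2 - σ) = Real.cos σ := Real.sin_pi_div_two_sub σ
  have hs1 : 0 ≤ Real.sin (ζ + σ) := Real.sin_nonneg_of_nonneg_of_le_pi (by linarith) (by linarith)
  have h3 : Real.cos σ ≤ Real.cos ζ := by
    rw [← Real.cos_abs ζ]
    exact Real.cos_le_cos_of_nonneg_of_le_pi (abs_nonneg ζ) (by linarith) (abs_le.2 ⟨hζ0, hz1⟩)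
  obtain ⟨A, hA⟩ : ∃ A, A = Real.sin (ζ + σ) / Real.cos ζ := ⟨_, rfl⟩
  obtain ⟨B, hB⟩ : ∃ B, B = Real.cos σ / Real.cos ζ := ⟨_, rfl⟩
  have hA0 : 0 ≤ A := by rw [hA]; positivity
  have hB0 : 0 ≤ B := by rw [hB]; positivity
  have hB1 : B ≤ 1 := by rw [hB, div_le_one hcz]; exact h3
  have hA1 : A ≤ 4 / 5 := by
    have e2 : Real.sin σ ≤ 1 / 2 := by
      rw [← Real.sin_pi_div_six]
      exact Real.sin_le_sin_of_le_of_le_pi_div_two (by linarith) (by linarith) hσ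
    have e3 : A = Real.sin σ + Real.tan ζ * Real.cos σ := by
      rw [hA, Real.sin_add, Real.tan_eq_sin_div_cos]
      field_simp
      ring
    have e4 : Real.tan ζ ≤ 27 / 100 := by
      rcases le_total 0 ζ with h | h
      · exact tan_le_half h hz2
      · have : Real.tan ζ ≤ 0 := by
          have := Real.tan_nonneg_of_nonneg_of_le_pi_div_two (x := -ζ) (by linarith) (by linarith)
          rw [Real.tan_neg] at this
          linarith
        linarith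
    have e5 := Real.cos_le_one σ
    rw [e3]
    nlinarith
  have hc := pt_combo (A := A) (B := B) (θ := π / 2 - σ) (s₁ := 0) (s₂ := m + b) (κ := 1)
    (p := π / 2 - σ) (q := ζ + σ) (by ring) (by rw [hζ]; ring) (by rw [hspq]; exact hcz.ne')
    (by rw [hspq, one_mul, hA]) (by rw [hspq, one_mul, hsp, hB])
  refine ⟨_, _, U.soft1 hb0 hb1 (s := 0) (A := A) le_rfl hs0.le hA0 hA1,
    U.hard (s := m) (B := B) hsm.le le_rfl hB0 hB1, ?_⟩
  have h5 := psP_le (b := b) (ν := m + b - π / 2) (ν' := 0) hb0 hb1 hz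
  have e1 : m + b - π / 2 + π / 2 = m + b := by ring
  have e2 : m + b - π / 2 - 0 = ζ := by rw [hζ]; ring
  rw [e1, e2] at h5
  have h6 := I.slantM ζ σ (1 - Real.tan (b / 2)) hσ0 hσ hζ0 hz1 (t_lower hb0 hb1)
  rw [← hA, ← hB] at h6
  have h7 : dt (pt 1 (π / 2 - σ)) z = A * dt (pt 1 0) z + B * dt (pt 1 (m + b)) z := by
    rw [← hc, dt_add_left, dt_pt_mul A, dt_pt_mul B]
  have h8 : B * psP b (m + b - π / 2) z ≤
      B * dt (pt 1 (m + b)) z + (1 / 10 * ee 0 z + ζ ^ 2 / 10) := by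
    have h9 : B * psP b (m + b - π / 2) z ≤
        B * (dt (pt 1 (m + b)) z + (1 / 10 * ee 0 z + ζ ^ 2 / 10)) :=
      mul_le_mul_of_nonneg_left h5 hB0
    have h10 : 0 ≤ 1 / 10 * ee 0 z + ζ ^ 2 / 10 := by
      have := ee_nonneg 0 z
      positivity
    nlinarith
  have h9 : vF b m σ = Real.sin σ + (ζ + (1 - Real.tan (b / 2))) * Real.cos σ := by
    rw [vF_eq, hζ]
  unfold F0 fS
  rw [h7, h9]
  linarith

theorem R2t (I : IneqsM) (hb0 : 0 < b) (hb1 : b ≤ π / 6) (hz : ‖z‖ ≤ 1 / Real.sin b)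
    (hσ : σ ≤ π / 6) (hm' : m ≤ π - 2 * σ) (hz1 : σ < m - π / 2 + b) (hs0 : 0 < s)
    (hs : s ≤ σ) (hσ2 : σ ≤ 2 / 5) : SplU b 0 s m (F0 b m σ) z := by
  have hpi := Real.pi_pos
  have hsin := Real.sin_le (x := σ) (by linarith)
  have hsin0 := sin_nonneg' (x := σ) (by linarith) hσ
  refine ⟨_, _, U.soft1 hb0 hb1 (s := 0) (A := 2 * Real.sin σ) le_rfl hs0.le (by linarith)
    (by linarith), U.main (g := σ) (d := m) hs le_rfl (by linarith) (by linarith), ?_⟩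
  have h5 := psP_le (b := b) (ν := σ) (ν' := 0) hb0 hb1 hz
  rw [sub_zero] at h5
  have h6 := I.I7m _ _ _ (by linarith) hσ hz1.le (t_lower hb0 hb1)
  have h7 : dt (pt 1 (π / 2 - σ)) z = 2 * Real.sin σ * dt (pt 1 0) z + dt (pt 1 (σ + π / 2)) z := by
    have h := split_chord 0 σ
    have e1 : (0 : ℝ) + π / 2 + σ = σ + π / 2 := by ring
    have e2 : (0 : ℝ) + π / 2 - σ = π / 2 - σ := by ring
    rw [e1, e2] at h
    rw [← h, dt_add_left, dt_pt_mul (2 * Real.sin σ)]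
  unfold F0 fS
  rw [h7, vF_eq, vF_eq, Real.sin_zero, Real.cos_zero]
  linarith

theorem R3t (hb0 : 0 < b) (hb1 : b ≤ π / 6) (hz : ‖z‖ ≤ 1 / Real.sin b)
    (hσ0 : 0 ≤ σ) (hσ : σ ≤ π / 6)
    (hm' : m ≤ π - 2 * σ) (hs : σ < s) (hsz : s ≤ m - π / 2 + b) (hs3 : s ≤ π / 3 - σ)
    (hs2 : s ≤ 2 / 5) : SplU b 0 s m (F0 b m σ) z := by
  have hpi := Real.pi_pos
  have hcs : Real.cos (s / 2) ≠ 0 :=
    (Real.cos_pos_of_mem_Ioo ⟨by linarith, by linarith⟩).ne'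
  have hq := sin_nonneg' (x := (s + σ) / 2) (by linarith) (by linarith)
  obtain ⟨A, B, hA0, hB0, hAB, hAB'⟩ := coef (κ := 2 * Real.sin ((s + σ) / 2))
    (p := (s - σ) / 2) (q := (s + σ) / 2) (by linarith) (by linarith) (by linarith) (by linarith)
    (by linarith)
  rw [chord_value hcs] at hAB
  have h1 := hAB' 0 s ((s - σ) / 2) (by ring) (by ring) z
  have h2 := chord_sum_le hσ0 hs.le hs2
  refine ⟨_, _, U.soft2 (s₁ := 0) (s₂ := s) (A₁ := A) (A₂ := B) (m₁ := 0) (m₂ := 1 / 10) le_rfl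
    (by linarith) le_rfl hA0 hB0 le_rfl (by norm_num) (by linarith [kap_le hb0 hb1]),
    U.main (g := s) (d := m) le_rfl le_rfl (by linarith) (by linarith), ?_⟩
  have h5 := psP_le (b := b) (ν := s) (ν' := s) hb0 hb1 hz
  rw [sub_self] at h5
  have h7 : dt (pt 1 (π / 2 - σ)) z = dt (pt (2 * Real.sin ((s + σ) / 2)) ((s - σ) / 2)) z +
      dt (pt 1 (s + π / 2)) z := by
    rw [← dt_add_left]
    congr 1
    exact (chord (by congr 2; ring) (by ring)).symm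
  have h3 := half_le_tan (x := s) (by linarith) (by linarith)
  have h4 := Real.cos_le_one σ
  have h6 := cos_pos_small (x := σ) (by linarith) hσ
  have h8 := t_lower hb0 hb1
  unfold F0 fS
  rw [h7, ← h1, vF_eq, vF_eq, Real.sin_zero, Real.cos_zero]
  nlinarith [mul_nonneg (sub_nonneg.2 h4) (by linarith : (0 : ℝ) ≤ m - π / 2 + b +
    (1 - Real.tan (b / 2)) - s / 2), mul_nonneg (sub_nonneg.2 h3) (by linarith :
    (0 : ℝ) ≤ 1 + Real.cos σ)]

theorem R4t (hb0 : 0 < b) (hb1 : b ≤ π / 6) (hz : ‖z‖ ≤ 1 / Real.sin b)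
    (hσ0 : 0 ≤ σ) (hσ : σ ≤ π / 6)
    (hz1 : σ < m - π / 2 + b) (hx : m - π / 2 + b + σ ≤ π / 3)
    (hs : m - π / 2 + b < s) (hsm : s < m) (hz2 : m - π / 2 + b ≤ 2 / 5) :
    SplU b 0 s m (F0 b m σ) z := by
  have hpi := Real.pi_pos
  obtain ⟨ζ, hζ⟩ : ∃ ζ, ζ = m - π / 2 + b := ⟨_, rfl⟩
  have hvF : vF b m σ = Real.sin σ + (ζ + (1 - Real.tan (b / 2))) * Real.cos σ := by
    rw [vF_eq, hζ]
  rw [← hζ] at hz1 hx hs hz2
  have hcs : Real.cos (ζ / 2) ≠ 0 :=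
    (Real.cos_pos_of_mem_Ioo ⟨by linarith, by linarith⟩).ne'
  have hq := sin_nonneg' (x := (ζ + σ) / 2) (by linarith) (by linarith)
  obtain ⟨A, B, hA0, hB0, hAB, hAB'⟩ := coef (κ := 2 * Real.sin ((ζ + σ) / 2))
    (p := (ζ - σ) / 2) (q := (ζ + σ) / 2) (by linarith) (by linarith) (by linarith) (by linarith)
    (by linarith)
  rw [chord_value hcs] at hAB
  have h1 := hAB' 0 ζ ((ζ - σ) / 2) (by ring) (by ring) z
  have h2 := chord_sum_le hσ0 hz1.le hz2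
  refine ⟨_, _, U.soft2 (s₁ := 0) (s₂ := ζ) (A₁ := A) (A₂ := B) (m₁ := 0) (m₂ := 1 / 10) le_rfl
    (by linarith) hs.le hA0 hB0 le_rfl (by norm_num) (by linarith [kap_le hb0 hb1]),
    U.hard (s := m) (B := 1) hsm.le le_rfl zero_le_one le_rfl, ?_⟩
  have h5 := psP_le (b := b) (ν := m + b - π / 2) (ν' := ζ) hb0 hb1 hz
  have e1 : m + b - π / 2 + π / 2 = m + b := by ring
  have e2 : m + b - π / 2 - ζ = 0 := by rw [hζ]; ring
  rw [e1, e2] at h5
  have h7 : dt (pt 1 (π / 2 - σ)) z = dt (pt (2 * Real.sin ((ζ + σ) / 2)) ((ζ - σ) / 2)) z +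
      dt (pt 1 (m + b)) z := by
    rw [← dt_add_left]
    congr 1
    exact (chord (by congr 2; rw [hζ]; ring) (by rw [hζ]; ring)).symm
  have h3 := half_le_tan (x := ζ) (by linarith) (by linarith)
  have h4 := Real.cos_le_one σ
  have h6 := cos_pos_small (x := σ) (by linarith) hσ
  have h8 := t_lower hb0 hb1
  unfold F0 fS
  rw [h7, ← h1, hvF]
  nlinarith [mul_nonneg (sub_nonneg.2 h4) (by linarith : (0 : ℝ) ≤ ζ / 2 +
    (1 - Real.tan (b / 2))), mul_nonneg (sub_nonneg.2 h3) (by linarith :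
    (0 : ℝ) ≤ 1 + Real.cos σ)]

theorem R5dt (I : IneqsM) (hb0 : 0 < b) (hb1 : b ≤ π / 6) (hz : ‖z‖ ≤ 1 / Real.sin b)
    (hσ0 : 0 ≤ σ) (hσ : σ ≤ π / 6)
    (hm' : m ≤ π - 2 * σ) (hs : 2 * π / 3 - σ < s)
    (hk : 0 ≤ m - 5 * π / 6 + σ) (hsm : s < m) (hy2 : m - s ≤ 2 / 5) (he2 : π - m - σ ≤ 2 / 5) :
    SplU b 0 s m (F0 b m σ) z := by
  have hpi := Real.pi_pos
  obtain ⟨e, he⟩ : ∃ e, e = π - m - σ := ⟨_, rfl⟩
  obtain ⟨y, hy⟩ : ∃ y, y = m - s := ⟨_, rfl⟩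
  rw [← hy] at hy2
  rw [← he] at he2
  have hme : m = π - σ - e := by rw [he]; ring
  have hc := cb_gt_one hb0 hb1
  rcases le_or_gt e y with hey | hey
  · have hse : s = π - σ - (e + y) := by rw [he, hy]; ring
    have hcy : Real.cos (y / 2) ≠ 0 :=
      (Real.cos_pos_of_mem_Ioo ⟨by linarith, by linarith⟩).ne'
    have hq := sin_nonneg' (x := (y + e) / 2) (by linarith) (by linarith)
    obtain ⟨A, B, hA0, hB0, hAB, hAB'⟩ := coef (κ := 2 * Real.sin ((y + e) / 2))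
      (p := (y + e) / 2) (q := (y - e) / 2) (by linarith) (by linarith) (by linarith)
      (by linarith) (by linarith)
    have hv : 2 * Real.sin ((y + e) / 2) * (Real.cos (((y + e) / 2 - (y - e) / 2) / 2) /
        Real.cos (((y + e) / 2 + (y - e) / 2) / 2)) =
        Real.sin e + Real.tan (y / 2) * (1 + Real.cos e) := by
      rw [← chord_value hcy]
      have f1 : ((y + e) / 2 - (y - e) / 2) / 2 = -(((y - e) / 2 - (y + e) / 2) / 2) := by ring
      have f2 : ((y + e) / 2 + (y - e) / 2) / 2 = ((y - e) / 2 + (y + e) / 2) / 2 := by ring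
      rw [f1, f2, Real.cos_neg]
    rw [hv] at hAB
    have h1 := hAB' s m (m - (y - e) / 2) (by rw [hy]; ring) (by rw [hy]; ring) z
    have h2 := chord_sum_le (σ := e) (s := y) (by linarith) hey hy2
    refine ⟨_, _, U.mirr (g := 0) (d := s) le_rfl le_rfl (by linarith) (by linarith),
      U.soft2 (s₁ := s) (s₂ := m) (A₁ := A) (A₂ := B) (m₁ := 1 / 10) (m₂ := 0) le_rfl
      hsm.le le_rfl hA0 hB0 (by norm_num) le_rfl (by linarith [kap_le hb0 hb1]), ?_⟩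
    have h5 := psM_le (b := b) (ν := s) (ν' := s) hb0 hb1 hz
    rw [sub_self] at h5
    have h7 : dt (pt 1 (π / 2 - σ)) z = dt (pt 1 (s - π / 2)) z +
        dt (pt (2 * Real.sin ((y + e) / 2)) (m - (y - e) / 2)) z := by
      rw [← dt_add_left]
      congr 1
      have h := chord' (α := π / 2 - σ) (ξ := e + y) (κ := 2 * Real.sin ((y + e) / 2))
        (θ := m - (y - e) / 2) (by congr 2; ring) (by rw [he, hy]; ring)
      rw [← h]
      congr 2
      rw [hse]; ring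
    have h5a := I.I5a σ e (cb b) hσ0 (by linarith) (by linarith) hc.le
    have h3 := half_le_tan (x := y) (by linarith) (by linarith)
    have h4 := Real.cos_le_one e
    have h6 := cos_pos_small (x := e) (by linarith) (by linarith)
    have hv1 : vF b m σ = Real.sin σ + (π / 2 - σ - e + cb b) * Real.cos σ := by
      unfold vF; rw [he]; ring
    have hv2 : vF b s 0 = π / 2 - σ - (e + y) + cb b := by
      unfold vF; rw [Real.sin_zero, Real.cos_zero, hse]; ring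
    unfold F0 fS
    rw [h7, ← h1, sub_zero, hv1, hv2]
    nlinarith [mul_nonneg (sub_nonneg.2 h4) (by linarith : (0 : ℝ) ≤ π / 6 - y / 2),
      mul_nonneg (sub_nonneg.2 h3) (by linarith : (0 : ℝ) ≤ 1 + Real.cos e)]
  · have hsin := Real.sin_le (x := e) (by linarith)
    have hsin0 := sin_nonneg' (x := e) (by linarith) (by linarith)
    refine ⟨_, _, U.mirr (g := 0) (d := m - e) le_rfl (by linarith) (by linarith) (by linarith),
      U.soft1 hb0 hb1 (s := m) (A := 2 * Real.sin e) hsm.le le_rfl (by linarith) (by linarith), ?_⟩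
    have h5 := psM_le (b := b) (ν := m - e) (ν' := m) hb0 hb1 hz
    have e2 : m - e - m = -e := by ring
    rw [e2, neg_sq] at h5
    have h7 : dt (pt 1 (π / 2 - σ)) z = dt (pt 1 (m - e - π / 2)) z +
        2 * Real.sin e * dt (pt 1 m) z := by
      rw [← dt_pt_mul, ← dt_add_left]
      congr 1
      have h := chord' (α := π / 2 - σ) (ξ := 2 * e) (κ := 2 * Real.sin e)
        (θ := m) (by congr 2; ring) (by rw [he]; ring)
      rw [← h]
      congr 2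
      rw [he]; ring
    have h5b := I.I5bm σ e (cb b) hσ0 (by linarith) (by linarith) hc.le
    have hv1 : vF b m σ = Real.sin σ + (π / 2 - σ - e + cb b) * Real.cos σ := by
      unfold vF; rw [he]; ring
    have hv2 : vF b (m - e) 0 = π / 2 - σ - 2 * e + cb b := by
      unfold vF; rw [Real.sin_zero, Real.cos_zero, hme]; ring
    unfold F0 fS
    rw [h7, sub_zero, hv1, hv2]
    nlinarith

theorem split_U0 (I : IneqsM) (hb0 : 0 < b) (hb1 : b ≤ π / 6) (hz : ‖z‖ ≤ 1 / Real.sin b)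
    (hσ0 : 0 ≤ σ) (hσ : σ ≤ π / 6)
    (hm : π / 2 - b - σ ≤ m) (hm' : m ≤ π - 2 * σ) (hs0 : 0 < s) (hsm : s < m) :
    SplU b 0 s m (F0 b m σ) z := by
  have hof : Spl b 0 s m (pt 1 (π / 2 - σ)) (vF b m σ + 1 / 250) → SplU b 0 s m (F0 b m σ) z :=
    fun h => SplU.of hb0 hb1 hz (vF_le5 hb0 hb1 hσ0 hσ hm hm') h le_rfl
  rcases le_or_gt (m - π / 2 + b) σ with hz1 | hz1
  · rcases le_or_gt (m - π / 2 + b) (1 / 4) with hz2 | hz2
    · exact R1t I hb0 hb1 hz hσ0 hσ hs0 hsm hm hz1 hz2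
    · exact hof (R1m I hb0 hb1 hσ0 hσ hz1 hz2)
  rcases le_or_gt s σ with h1 | h1
  · rcases le_or_gt σ (2 / 5) with h2 | h2
    · exact R2t I hb0 hb1 hz hσ hm' hz1 hs0 h1 h2
    · exact hof (R2m I hb0 hb1 hσ hm' hz1 hs0 h1 h2.le)
  have hR3 : s ≤ m - π / 2 + b → s ≤ π / 3 - σ → SplU b 0 s m (F0 b m σ) z := by
    intro h2 h3
    rcases le_or_gt s (2 / 5) with h4 | h4
    · exact R3t hb0 hb1 hz hσ0 hσ hm' h1 h2 h3 h4
    · exact hof (R3m I hb0 hb1 hσ0 hσ hm' h1 h2 h3 h4.le)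
  rcases le_or_gt (m - π / 2 + b + σ) (π / 3) with hx | hx
  · rcases le_or_gt s (m - π / 2 + b) with h2 | h2
    · exact hR3 h2 (by linarith)
    · rcases le_or_gt (m - π / 2 + b) (2 / 5) with h4 | h4
      · exact R4t hb0 hb1 hz hσ0 hσ hz1 hx h2 hsm h4
      · exact hof (R4m I hb0 hb1 hσ0 hσ hz1 hx h2 hsm h4.le)
  rcases le_or_gt s (π / 3 - σ) with h2 | h2
  · exact hR3 (by linarith) h2
  rcases le_or_gt s (π / 2 - σ) with h3 | h3
  · exact hof (R5am I hb0 hb1 hσ0 hσ hm' hx h2 h3)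
  rcases le_or_gt s (2 * π / 3 - σ) with h4 | h4
  · exact hof (R5bm I hb0 hb1 hσ0 hσ hm' hx h3.le h4 hsm)
  rcases le_or_gt 0 (m - 5 * π / 6 + σ) with hk | hk
  · by_cases h5 : m - s ≤ 2 / 5 ∧ π - m - σ ≤ 2 / 5
    · exact R5dt I hb0 hb1 hz hσ0 hσ hm' h4 hk hsm h5.1 h5.2
    · refine hof (R5dm I hb0 hb1 hσ0 hσ hm' h4 hk hsm ?_)
      by_contra h6
      push Not at h6
      exact h5 ⟨h6.1.le, h6.2.le⟩
  · exact hof (R5cm I hb0 hb1 hσ0 hσ hx h4 hk hsm)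

end Pool.Agent.W_8c5d11_h65
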