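import Pool.Agent.W_8c5d11_h65.USplit

/-!
MP_8c5d11_gt, uniqueness: the properties of the system of certificates which are functions.
-/

set_option autoImplicit false

open Set
open scoped Real

namespace Pool.Agent.W_8c5d11_h65

open Pool.Agent.W_8c5d11_v22

/-! ### splits -/

theorem U1_split (I : IneqsM) {b x y c : ℝ} {f : ℂ → ℝ} {z : ℂ} (hb0 : 0 < b) (hb1 : b ≤ π / 6)
    (hz : ‖z‖ ≤ 1 / Real.sin b) (h : U1 b x y f) : SplU b x c y f z := by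
  rcases h with ⟨s, B, h1, h2, h3, h4, rfl⟩ | ⟨g, d, σ, v, h1, h2, h3, h4, h5, h6, h7, rfl⟩
  · rcases le_total s c with h | h
    · exact ⟨_, _, U.hard h1 h h3 h4, U.zero _ _ _, (add_zero _).ge⟩
    · exact ⟨_, _, U.zero _ _ _, U.hard h h2 h3 h4, (zero_add _).ge⟩
  · rcases le_or_gt d c with hd | hd
    · exact ⟨_, _, Or.inr (Or.inr (Or.inr (Or.inl (Or.inr
        ⟨g, d, σ, v, h1, hd, h3, h4, h5, h6, h7, rfl⟩)))), U.zero _ _ _, (add_zero _).ge⟩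
    rcases le_or_gt c g with hg | hg
    · exact ⟨_, _, U.zero _ _ _, Or.inr (Or.inr (Or.inr (Or.inl (Or.inr
        ⟨g, d, σ, v, hg, h2, h3, h4, h5, h6, h7, rfl⟩)))), (zero_add _).ge⟩
    have hz' : ‖pt 1 (-g) * z‖ ≤ 1 / Real.sin b := by rwa [norm_rot]
    obtain ⟨f', f'', a1, a2, a3⟩ := split_U0 I (m := d - g) (s := c - g) hb0 hb1 hz' h3 h4 h5 h6
      (by linarith) (by linarith)
    have b1 := a1.rot g
    have b2 := a2.rot g
    rw [zero_add, sub_add_cancel] at b1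
    rw [sub_add_cancel, sub_add_cancel] at b2
    refine ⟨_, _, b1.mono h1 le_rfl, b2.mono le_rfl h2, ?_⟩
    unfold F0 at a3
    rw [dt_rot'] at a3
    have e : π / 2 - σ + g = g - σ + π / 2 := by ring
    rw [e] at a3
    have h8 := psP_ge (ν := g - σ) hb0 hb1 hz
    simp only
    linarith

theorem U_split (I : IneqsM) {b x y c : ℝ} {f : ℂ → ℝ} {z : ℂ} (hb0 : 0 < b) (hb1 : b ≤ π / 6)
    (hxc : x < c) (hcy : c < y) (hz : ‖z‖ ≤ 1 / Real.sin b) (h : U b x y f) :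
    SplU b x c y f z := by
  rcases h with rfl | ⟨s₁, s₂, A₁, A₂, m₁, m₂, h1, h2, h3, h4, h5, h6, h7, h8, rfl⟩ |
    ⟨w, v, h1, rfl⟩ | h | h
  · exact ⟨_, _, U.zero _ _ _, U.zero _ _ _, by simp⟩
  · rcases le_total s₂ c with hc | hc
    · exact ⟨_, _, U.soft2 h1 h2 hc h4 h5 h6 h7 h8, U.zero _ _ _, (add_zero _).ge⟩
    rcases le_total c s₁ with hc' | hc'
    · exact ⟨_, _, U.zero _ _ _, U.soft2 hc' h2 h3 h4 h5 h6 h7 h8, (zero_add _).ge⟩
    refine ⟨_, _, U.soft2 (s₁ := s₁) (s₂ := s₁) (A₁ := A₁) (A₂ := 0) (m₁ := m₁) (m₂ := 0) h1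
      le_rfl hc' h4 le_rfl h6 le_rfl (by linarith), U.soft2 (s₁ := s₂) (s₂ := s₂) (A₁ := A₂)
      (A₂ := 0) (m₁ := m₂) (m₂ := 0) hc le_rfl h3 h5 le_rfl h7 le_rfl (by linarith), ?_⟩
    unfold fS
    linarith
  · obtain ⟨w', v', w'', v'', a1, a2, a3, a4⟩ := C_split I.toIneqs hb0 hb1 hxc hcy h1
    refine ⟨_, _, Or.inr (Or.inr (Or.inl ⟨w', v', a1, rfl⟩)),
      Or.inr (Or.inr (Or.inl ⟨w'', v'', a2, rfl⟩)), ?_⟩
    have h5 := dt_add_left w' w'' z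
    rw [a3] at h5
    have h6 := kap_le hb0 hb1
    have h8 : (1 - kap b) * v ≤ (1 - kap b) * (v' + v'') :=
      mul_le_mul_of_nonneg_left a4 (by linarith)
    simp only
    rw [h5]
    linarith
  · exact U1_split I hb0 hb1 hz h
  · have hz' : ‖(starRingEnd ℂ) z‖ ≤ 1 / Real.sin b := by rwa [RCLike.norm_conj]
    obtain ⟨f', f'', a1, a2, a3⟩ := U1_split I (c := -c) (z := (starRingEnd ℂ) z) hb0 hb1 hz' h
    have b1 := a1.conj
    have b2 := a2.conj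
    rw [neg_neg, neg_neg] at b1 b2
    refine ⟨_, _, b2, b1, ?_⟩
    simp only [Complex.conj_conj] at a3
    linarith

/-! ### leaves -/

theorem one_le_dt {b s : ℝ} {z : ℂ}
    (h : dist (pt (1 / Real.sin b) s) z ≤ 1 / Real.sin b - 1) : 1 ≤ dt (pt 1 s) z := by
  have := hb_le_dt (w := pt 1 s) h
  rwa [hb_soft b s 1 zero_le_one] at this

theorem ee_zero {b s : ℝ} {z : ℂ}
    (h : dist (pt (1 / Real.sin b) s) z ≤ 1 / Real.sin b - 1) : ee s z = 0 :=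
  max_eq_left (by linarith [one_le_dt h])

theorem U1_leaf {b x y : ℝ} {f : ℂ → ℝ} {z : ℂ} (hb0 : 0 < b) (hb1 : b ≤ π / 6)
    (hz : ‖z‖ ≤ 1 / Real.sin b)
    (hcov : ∀ t ∈ Icc x y, dist (pt (1 / Real.sin b) t) z ≤ 1 / Real.sin b - 1)
    (h : U1 b x y f) : f z ≤ 0 := by
  rcases h with ⟨s, B, h1, h2, h3, h4, rfl⟩ | ⟨g, d, σ, v, h1, h2, h3, h4, h5, h6, h7, rfl⟩
  · have a1 := hb_le_dt (w := pt 1 (s + b)) (hcov s ⟨h1, h2⟩)
    rw [hb_hard hb0 hb1 s 1 zero_le_one, one_mul] at a1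
    have a2 := psP_ge (ν := s + b - π / 2) hb0 hb1 hz
    rw [sub_add_cancel] at a2
    have a3 : B * (1 - Real.tan (b / 2)) ≤ B * psP b (s + b - π / 2) z :=
      mul_le_mul_of_nonneg_left (a1.trans a2) h3
    simp only
    linarith
  · have a1 := C_leaf hb0 hb1 hcov (C.main (b := b) (x := x) (y := y) h1 h2 h3 h4 h5 h6)
    have a2 := psP_ge (ν := g - σ) hb0 hb1 hz
    have e : g - σ + π / 2 = g + π / 2 - σ := by ring
    rw [e] at a2
    simp only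
    linarith

theorem U_leaf {b x y : ℝ} {f : ℂ → ℝ} {z : ℂ} (hb0 : 0 < b) (hb1 : b ≤ π / 6)
    (hz : ‖z‖ ≤ 1 / Real.sin b)
    (hcov : ∀ t ∈ Icc x y, dist (pt (1 / Real.sin b) t) z ≤ 1 / Real.sin b - 1)
    (h : U b x y f) : f z ≤ 0 := by
  rcases h with rfl | ⟨s₁, s₂, A₁, A₂, m₁, m₂, h1, h2, h3, h4, h5, h6, h7, h8, rfl⟩ |
    ⟨w, v, h1, rfl⟩ | h | h
  · exact le_rfl
  · have c1 := hcov s₁ ⟨h1, h2.trans h3⟩
    have c2 := hcov s₂ ⟨h1.trans h2, h3⟩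
    unfold fS
    rw [ee_zero c1, ee_zero c2]
    have a1 := mul_nonneg h4 (sub_nonneg.2 (one_le_dt c1))
    have a2 := mul_nonneg h5 (sub_nonneg.2 (one_le_dt c2))
    linarith
  · have a1 := C_leaf hb0 hb1 hcov h1
    have h6 := kap_le hb0 hb1
    have := mul_nonneg (by linarith : (0 : ℝ) ≤ 1 - kap b) (sub_nonneg.2 a1)
    simp only
    linarith
  · exact U1_leaf hb0 hb1 hz hcov h
  · have h9 := U1_leaf (z := (starRingEnd ℂ) z) hb0 hb1 (by rwa [RCLike.norm_conj]) ?_ h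
    · rwa [Complex.conj_conj] at h9
    · intro t ht
      have := hcov (-t) ⟨by linarith [ht.2], by linarith [ht.1]⟩
      rw [dist_eq_norm] at this ⊢
      rw [← Complex.norm_conj, map_sub, conj_pt, Complex.conj_conj]
      exact this

/-! ### bound, period -/

theorem psP_ge' {b ν : ℝ} {z : ℂ} (hb0 : 0 < b) (hb1 : b ≤ π / 6) (hz : ‖z‖ ≤ 1 / Real.sin b) :
    -(1 / Real.sin b) ≤ psP b ν z := by
  have h1 := psP_ge (ν := ν) hb0 hb1 hz
  have h2 := (abs_le.1 (abs_dt_pt_le (ν + π / 2) z)).1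
  linarith

theorem U1_bdd {b x y : ℝ} {f : ℂ → ℝ} {z : ℂ} (hb0 : 0 < b) (hb1 : b ≤ π / 6)
    (hz : ‖z‖ ≤ 1 / Real.sin b) (h : U1 b x y f) : f z ≤ 7 + 1 / Real.sin b := by
  have hR := two_le_inv_sin hb0 hb1
  rcases h with ⟨s, B, h1, h2, h3, h4, rfl⟩ | ⟨g, d, σ, v, h1, h2, h3, h4, h5, h6, h7, rfl⟩
  · have a1 := psP_ge' (ν := s + b - π / 2) hb0 hb1 hz
    have a2 := t_upper hb0 hb1
    have a3 : B * ((1 - Real.tan (b / 2)) - psP b (s + b - π / 2) z) ≤ B * (1 + 1 / Real.sin b) :=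
      mul_le_mul_of_nonneg_left (by linarith) h3
    have a4 : B * (1 + 1 / Real.sin b) ≤ 1 * (1 + 1 / Real.sin b) :=
      mul_le_mul_of_nonneg_right h4 (by linarith)
    simp only
    linarith
  · have a1 := psP_ge' (ν := g - σ) hb0 hb1 hz
    have a2 := vF_le5 hb0 hb1 h3 h4 h5 h6
    simp only
    linarith

theorem U_bdd {b x y : ℝ} {f : ℂ → ℝ} {z : ℂ} (hb0 : 0 < b) (hb1 : b ≤ π / 6)
    (hz : ‖z‖ ≤ 1 / Real.sin b) (h : U b x y f) : f z ≤ 7 + 1 / Real.sin b := by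
  have hR := two_le_inv_sin hb0 hb1
  have hk := kap_le hb0 hb1
  have hk0 := kap_pos hb0 hb1
  rcases h with rfl | ⟨s₁, s₂, A₁, A₂, m₁, m₂, h1, h2, h3, h4, h5, h6, h7, h8, rfl⟩ |
    ⟨w, v, h1, rfl⟩ | h | h
  · show (0 : ℝ) ≤ _
    linarith
  · have e1 := ee_le (s := s₁) hz
    have e2 := ee_le (s := s₂) hz
    have d1 := (abs_le.1 (abs_dt_pt_le s₁ z)).1
    have d2 := (abs_le.1 (abs_dt_pt_le s₂ z)).1
    have a1 : A₁ * (1 - dt (pt 1 s₁) z) ≤ A₁ * (1 + 1 / Real.sin b) :=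
      mul_le_mul_of_nonneg_left (by linarith) h4
    have a2 : A₂ * (1 - dt (pt 1 s₂) z) ≤ A₂ * (1 + 1 / Real.sin b) :=
      mul_le_mul_of_nonneg_left (by linarith) h5
    have a3 : m₁ * ee s₁ z ≤ m₁ * (1 + 1 / Real.sin b) := mul_le_mul_of_nonneg_left e1 h6
    have a4 : m₂ * ee s₂ z ≤ m₂ * (1 + 1 / Real.sin b) := mul_le_mul_of_nonneg_left e2 h7
    have a5 : (A₁ + A₂ + m₁ + m₂) * (1 + 1 / Real.sin b) ≤ 1 * (1 + 1 / Real.sin b) :=
      mul_le_mul_of_nonneg_right (by linarith) (by linarith)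
    unfold fS
    linarith
  · have a1 := C_bdd hb0 hb1 h1
    have a2 := C_norm h1
    have a3 := (abs_le.1 (abs_dt_le w z)).1
    have a4 : ‖w‖ * ‖z‖ ≤ 1 * (1 / Real.sin b) :=
      mul_le_mul a2 hz (norm_nonneg _) zero_le_one
    have a5 : (1 - kap b) * (v - dt w z) ≤ (1 - kap b) * (7 + 1 / Real.sin b) :=
      mul_le_mul_of_nonneg_left (by linarith) (by linarith)
    have a6 : 0 ≤ kap b * (7 + 1 / Real.sin b) := by positivity
    simp only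
    linarith
  · exact U1_bdd hb0 hb1 hz h
  · have h9 := U1_bdd (z := (starRingEnd ℂ) z) hb0 hb1 (by rwa [RCLike.norm_conj]) h
    rwa [Complex.conj_conj] at h9

theorem U_per (b x y : ℝ) (f : ℂ → ℝ) : U b (x + 2 * π) (y + 2 * π) f ↔ U b x y f := by
  have e1 : pt 1 (-(2 * π)) = 1 := by
    rw [← conj_pt, pt_one_two_pi, map_one]
  constructor
  · intro h
    have h1 := h.rot (-(2 * π))
    simp only [neg_neg, pt_one_two_pi, one_mul] at h1
    have e2 : x + 2 * π + -(2 * π) = x := by ring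
    have e3 : y + 2 * π + -(2 * π) = y := by ring
    rwa [e2, e3] at h1
  · intro h
    have h1 := h.rot (2 * π)
    simp only [e1, one_mul] at h1
    exact h1

/-! ### Lipschitz -/

/-- The Lipschitz properties which are needed. -/
structure LipU (b : ℝ) : Prop where
  G : ∀ z z' : ℂ, |GG b z - GG b z'| ≤ kap b * dist z z'
  P : ∀ B ν : ℝ, ∀ z z' : ℂ, 0 ≤ B → B ≤ 1 → ‖z‖ ≤ 1 / Real.sin b → ‖z'‖ ≤ 1 / Real.sin b →
    |B * psP b ν z - B * psP b ν z'| ≤ dist z z' - |GG b z - GG b z'|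

theorem abs_ee_sub (s : ℝ) (z z' : ℂ) : |ee s z - ee s z'| ≤ dist z z' := by
  have h1 : |ee s z - ee s z'| ≤ |(1 - dt (pt 1 s) z) - (1 - dt (pt 1 s) z')| := by
    unfold ee
    rw [max_comm 0, max_comm 0]
    exact abs_max_sub_max_le_abs _ _ _
  have h2 : (1 - dt (pt 1 s) z) - (1 - dt (pt 1 s) z') = -dt (pt 1 s) (z - z') := by
    rw [← dt_sub_right]; ring
  rw [h2, abs_neg] at h1
  rw [dist_eq_norm]
  exact h1.trans (abs_dt_pt_le s _)

theorem U1_lip {b x y : ℝ} {f : ℂ → ℝ} (L : LipU b) {z z' : ℂ} (hz : ‖z‖ ≤ 1 / Real.sin b)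
    (hz' : ‖z'‖ ≤ 1 / Real.sin b) (h : U1 b x y f) :
    f z ≤ f z' + dist z z' - |GG b z - GG b z'| := by
  rcases h with ⟨s, B, h1, h2, h3, h4, rfl⟩ | ⟨g, d, σ, v, h1, h2, h3, h4, h5, h6, h7, rfl⟩
  · have := (abs_le.1 (L.P B (s + b - π / 2) z z' h3 h4 hz hz')).1
    simp only
    linarith
  · have := (abs_le.1 (L.P 1 (g - σ) z z' zero_le_one le_rfl hz hz')).1
    simp only
    linarith

theorem U_lip {b x y : ℝ} {f : ℂ → ℝ} (hb0 : 0 < b) (hb1 : b ≤ π / 6) (L : LipU b) {z z' : ℂ}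
    (hz : ‖z‖ ≤ 1 / Real.sin b) (hz' : ‖z'‖ ≤ 1 / Real.sin b) (h : U b x y f) :
    f z ≤ f z' + dist z z' - |GG b z - GG b z'| := by
  have hk := kap_le hb0 hb1
  have hk0 := kap_pos hb0 hb1
  have hG := L.G z z'
  have hd := dist_nonneg (x := z) (y := z')
  rcases h with rfl | ⟨s₁, s₂, A₁, A₂, m₁, m₂, h1, h2, h3, h4, h5, h6, h7, h8, rfl⟩ |
    ⟨w, v, h1, rfl⟩ | h | h
  · simp only
    nlinarith
  · have d1 := (abs_le.1 (abs_dt_pt_le s₁ (z - z'))).1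
    have d2 := (abs_le.1 (abs_dt_pt_le s₂ (z - z'))).1
    rw [← dt_sub_right, ← dist_eq_norm] at d1 d2
    have e1 := (abs_le.1 (abs_ee_sub s₁ z z')).2
    have e2 := (abs_le.1 (abs_ee_sub s₂ z z')).2
    have a1 : A₁ * (dt (pt 1 s₁) z' - dt (pt 1 s₁) z) ≤ A₁ * dist z z' :=
      mul_le_mul_of_nonneg_left (by linarith) h4
    have a2 : A₂ * (dt (pt 1 s₂) z' - dt (pt 1 s₂) z) ≤ A₂ * dist z z' :=
      mul_le_mul_of_nonneg_left (by linarith) h5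
    have a3 : m₁ * (ee s₁ z - ee s₁ z') ≤ m₁ * dist z z' := mul_le_mul_of_nonneg_left e1 h6
    have a4 : m₂ * (ee s₂ z - ee s₂ z') ≤ m₂ * dist z z' := mul_le_mul_of_nonneg_left e2 h7
    have a5 : (A₁ + A₂ + m₁ + m₂) * dist z z' ≤ (1 - kap b) * dist z z' :=
      mul_le_mul_of_nonneg_right h8 hd
    unfold fS
    linarith
  · have a2 := C_norm h1
    have a3 := (abs_le.1 (abs_dt_le w (z - z'))).1
    rw [← dt_sub_right, ← dist_eq_norm] at a3
    have a4 : ‖w‖ * dist z z' ≤ 1 * dist z z' := mul_le_mul_of_nonneg_right a2 hd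
    have a5 : (1 - kap b) * (dt w z' - dt w z) ≤ (1 - kap b) * dist z z' :=
      mul_le_mul_of_nonneg_left (by linarith) (by linarith)
    simp only
    linarith
  · exact U1_lip L hz hz' h
  · have h9 := U1_lip L (z := (starRingEnd ℂ) z) (z' := (starRingEnd ℂ) z')
      (by rwa [RCLike.norm_conj]) (by rwa [RCLike.norm_conj]) h
    rw [Complex.conj_conj, Complex.conj_conj, GG_conj, GG_conj] at h9
    have e : dist ((starRingEnd ℂ) z) ((starRingEnd ℂ) z') = dist z z' := by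
      rw [dist_eq_norm, dist_eq_norm, ← map_sub, RCLike.norm_conj]
    rwa [e] at h9

end Pool.Agent.W_8c5d11_h65
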