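import Pool.Agent.W_8c5d11_h65.USys
import Pool.Agent.W_8c5d11_v22.Top
import Pool.Agent.W_8c5d11_v22.StrictU

/-!
MP_8c5d11_gt, uniqueness: the centre, and the system of certificates.
-/

set_option autoImplicit false

open Set
open scoped Real

namespace Pool.Agent.W_8c5d11_h65

open Pool.Agent.W_8c5d11_v22

/-- three parts can be certified at a point -/
def TopU (b H a c e : ℝ) (z : ℂ) : Prop :=
  ∃ f₁ f₂ f₃ : ℂ → ℝ, U b a c f₁ ∧ U b c e f₂ ∧ U b e (a + 2 * π) f₃ ∧ H ≤ f₁ z + f₂ z + f₃ z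

/-- The centre with a margin, if no gap is small. -/
def TopMg (b : ℝ) : Prop :=
  ∀ a c e : ℝ, a < c → c < e → e < a + 2 * π → c < a + π → e < c + π → a + π < e →
    1 / 2 ≤ c - a → 1 / 2 ≤ e - c → 1 / 2 ≤ a + 2 * π - e →
    TopP (C b) (π + 2 * cb b + 1 / 250) a c e

theorem TopU.rot {b H a c e : ℝ} {z : ℂ} (h : TopU b H c e (a + 2 * π) z) : TopU b H a c e z := by
  obtain ⟨f₁, f₂, f₃, h1, h2, h3, h4⟩ := h
  exact ⟨f₃, f₁, f₂, (U_per _ _ _ _).1 h3, h1, h2, by linarith⟩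

theorem tri_zero {a e k : ℝ} (hk : k = (a + 2 * π - e) / 2) (hck : Real.cos k ≠ 0) :
    pt 1 (a + π / 2) + pt 1 (e - π / 2) +
      (pt (Real.tan k) e + pt (Real.tan k) (a + 2 * π)) = 0 := by
  have e2 : a + 2 * π = (e + k) + k := by rw [hk]; ring
  have e3 : a + π / 2 = ((e + k) + k + π / 2) - 2 * π := by rw [hk]; ring
  have ht : Real.tan k * Real.cos k = Real.sin k := Real.tan_mul_cos hck
  apply Complex.ext
  · simp only [Complex.add_re, pt_re, one_mul, Complex.zero_re]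
    rw [e3, e2, Real.cos_sub_two_pi, Real.cos_add_pi_div_two, Real.cos_sub_pi_div_two]
    conv_lhs => rw [show Real.sin e = Real.sin (e + k - k) by ring_nf,
      show Real.cos e = Real.cos (e + k - k) by ring_nf]
    rw [Real.sin_add (e + k) k, Real.sin_sub (e + k) k, Real.cos_sub (e + k) k,
      Real.cos_add (e + k) k]
    linear_combination (2 * Real.cos (e + k)) * ht
  · simp only [Complex.add_im, pt_im, one_mul, Complex.zero_im]
    rw [e3, e2, Real.sin_sub_two_pi, Real.sin_add_pi_div_two, Real.sin_sub_pi_div_two]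
    conv_lhs => rw [show Real.sin e = Real.sin (e + k - k) by ring_nf,
      show Real.cos e = Real.cos (e + k - k) by ring_nf]
    rw [Real.sin_add (e + k) k, Real.sin_sub (e + k) k, Real.cos_sub (e + k) k,
      Real.cos_add (e + k) k]
    linear_combination (2 * Real.sin (e + k)) * ht

/-- the last gap is small -/
theorem top_small {b a c e : ℝ} {z : ℂ} (hb0 : 0 < b) (hb1 : b ≤ π / 6)
    (hz : ‖z‖ ≤ 1 / Real.sin b) (h3 : e < a + 2 * π) (h4 : c < a + π) (h5 : e < c + π)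
    (hs : a + 2 * π - e ≤ 1 / 2) : TopU b (π + 2 * cb b) a c e z := by
  have hpi := Real.pi_gt_d2
  obtain ⟨k, hk⟩ : ∃ k, k = (a + 2 * π - e) / 2 := ⟨_, rfl⟩
  have hk0 : 0 < k := by linarith
  have hk1 : k ≤ 1 / 4 := by linarith
  have hck : 0 < Real.cos k := Real.cos_pos_of_mem_Ioo ⟨by linarith, by linarith⟩
  have htan : k ≤ Real.tan k := Real.le_tan hk0.le (by linarith)
  have htan1 := tan_le_half hk0.le hk1
  refine ⟨_, _, _, U.main (g := a) (d := c) le_rfl le_rfl (by linarith) (by linarith),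
    U.mirr (g := c) (d := e) le_rfl le_rfl (by linarith) (by linarith),
    U.soft2 (s₁ := e) (s₂ := a + 2 * π) (A₁ := Real.tan k) (A₂ := Real.tan k) (m₁ := 1 / 10)
      (m₂ := 1 / 10) le_rfl h3.le le_rfl (by linarith) (by linarith) (by norm_num) (by norm_num)
      (by linarith [kap_le hb0 hb1]), ?_⟩
  have h6 := psP_le (b := b) (ν := a) (ν' := a) hb0 hb1 hz
  have h7 := psM_le (b := b) (ν := e) (ν' := e) hb0 hb1 hz
  rw [sub_self] at h6 h7
  have h8 := congrArg (fun w => dt w z) (tri_zero hk hck.ne')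
  simp only [dt_add_left] at h8
  rw [dt_pt_mul (Real.tan k) e, dt_pt_mul (Real.tan k) (a + 2 * π)] at h8
  have h9 : dt (0 : ℂ) z = 0 := by simp [dt]
  rw [h9] at h8
  have h10 : ee (a + 2 * π) z = ee a z := by
    unfold ee
    have : pt 1 (a + 2 * π) = pt 1 a := by
      rw [pt_add, pt_one_mul_pt, add_comm]
      apply Complex.ext
      · rw [pt_re, pt_re, add_comm, Real.cos_add_two_pi]
      · rw [pt_im, pt_im, add_comm, Real.sin_add_two_pi]
    rw [this]
  unfold fS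
  rw [h10]
  unfold vF
  rw [Real.sin_zero, Real.cos_zero]
  linarith

theorem U_top (M : ∀ b, 0 < b → b ≤ π / 6 → TopMg b) {b a c e : ℝ} {z : ℂ} (hb0 : 0 < b)
    (hb1 : b ≤ π / 6) (h1 : a < c) (h2 : c < e) (h3 : e < a + 2 * π) (h4 : c < a + π)
    (h5 : e < c + π) (h6 : a + π < e) (hz : ‖z‖ ≤ 1 / Real.sin b) :
    TopU b (π + 2 * cb b) a c e z := by
  rcases le_or_gt (a + 2 * π - e) (1 / 2) with c1 | c1
  · exact top_small hb0 hb1 hz h3 h4 h5 c1
  rcases le_or_gt (c - a) (1 / 2) with c2 | c2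
  · exact TopU.rot (top_small hb0 hb1 hz (by linarith) h5 (by linarith) (by linarith))
  rcases le_or_gt (e - c) (1 / 2) with c3 | c3
  · exact TopU.rot (TopU.rot (top_small hb0 hb1 hz (by linarith) (by linarith) (by linarith)
      (by linarith)))
  obtain ⟨w₁, v₁, w₂, v₂, w₃, v₃, a1, a2, a3, hw, hv⟩ :=
    M b hb0 hb1 a c e h1 h2 h3 h4 h5 h6 c2.le c3.le c1.le
  refine ⟨_, _, _, Or.inr (Or.inr (Or.inl ⟨w₁, v₁, a1, rfl⟩)),
    Or.inr (Or.inr (Or.inl ⟨w₂, v₂, a2, rfl⟩)), Or.inr (Or.inr (Or.inl ⟨w₃, v₃, a3, rfl⟩)), ?_⟩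
  have e4 := dt_add_left (w₁ + w₂) w₃ z
  have e5 := dt_add_left w₁ w₂ z
  have e6 : dt (0 : ℂ) z = 0 := by simp [dt]
  rw [hw, e6] at e4
  have hk := kap_le hb0 hb1
  have hk0 := kap_pos hb0 hb1
  have hc := cb_le hb0 hb1
  have hs := sqrt3_bounds.2
  have hpi := Real.pi_lt_d2
  have h7 : (1 - kap b) * (π + 2 * cb b + 1 / 250) ≤ (1 - kap b) * (v₁ + v₂ + v₃) :=
    mul_le_mul_of_nonneg_left hv (by linarith)
  have h8 : (1 - kap b) * (v₁ - dt w₁ z) + (1 - kap b) * (v₂ - dt w₂ z) +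
      (1 - kap b) * (v₃ - dt w₃ z) = (1 - kap b) * (v₁ + v₂ + v₃) -
      (1 - kap b) * (dt w₁ z + dt w₂ z + dt w₃ z) := by ring
  have h9 : dt w₁ z + dt w₂ z + dt w₃ z = 0 := by linarith
  have h10 : kap b * (π + 2 * cb b + 1 / 250) ≤ kap b * 10 :=
    mul_le_mul_of_nonneg_left (by linarith) hk0.le
  show π + 2 * cb b ≤ (1 - kap b) * (v₁ - dt w₁ z) + (1 - kap b) * (v₂ - dt w₂ z) +
    (1 - kap b) * (v₃ - dt w₃ z)
  rw [h8, h9]
  linarith

/-- **The system of certificates.** -/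
theorem fsys (I : IneqsM) (L : ∀ b, 0 < b → b ≤ π / 6 → LipU b)
    (M : ∀ b, 0 < b → b ≤ π / 6 → TopMg b) {b : ℝ} (hb0 : 0 < b) (hb1 : b ≤ π / 6) :
    FSys (1 / Real.sin b) (1 / Real.sin b - 1) (π + 2 * (b + 1 - Real.tan (b / 2)))
      (7 + 1 / Real.sin b) (GG b) (U b) where
  zero a c := U.zero b a c
  bdd a c f hf y hy := U_bdd hb0 hb1 hy hf
  lip a c f hf y y' hy hy' := by
    have := U_lip hb0 hb1 (L b hb0 hb1) hy hy' hf
    linarith
  per a c f := U_per b a c f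
  leaf a c f y _ _ hy hcov hf := U_leaf hb0 hb1 hy hcov hf
  split a c d f y h1 h2 _ hy hf := U_split I hb0 hb1 h1 h2 hy hf
  top a c e y h1 h2 h3 h4 h5 h6 hy := U_top M hb0 hb1 h1 h2 h3 h4 h5 h6 hy
  pot y y' := by
    have h1 := (L b hb0 hb1).G y y'
    have h2 := kap_le hb0 hb1
    have h3 : kap b * dist y y' ≤ 1 * dist y y' :=
      mul_le_mul_of_nonneg_right (by linarith) dist_nonneg
    linarith

end Pool.Agent.W_8c5d11_h65
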